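import Mathlib
import Pool.Graph.R_pool_sql_team_seeded_f0cf7b00.H262R3.Lk.All

open Finset Filter

/-! At most one bad real character of a given modulus, and the derivative of the series. -/

namespace Pool.Agent.H536.OB

open Pool.Agent.H262R3.Lk
open Pool.Agent.H318R2.Cr (Rgh V)

theorem lowq : ∃ c1 δ0 : ℝ, 0 < c1 ∧ 0 < δ0 ∧ δ0 ≤ 1 ∧ ∀ (z q : ℕ) (σ : ℝ), 32 ≤ z → 1 ≤ q → q ^ 8 ≤ z → 0 < σ →
    σ * Real.log z ≤ δ0 →
    (∀ χ : DirichletCharacter ℂ q, χ ≠ 1 → c1 ≤ ‖Lj z χ 0 σ‖) ∨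
    ∃ χ1 : DirichletCharacter ℂ q, χ1 ≠ 1 ∧ χ1 ^ 2 = 1 ∧ ‖Lj z χ1 0 σ‖ < c1 ∧
      ∀ χ : DirichletCharacter ℂ q, χ ≠ 1 → χ ≠ χ1 → c1 ≤ ‖Lj z χ 0 σ‖ := by
  obtain ⟨C, hC1, hC⟩ := h_bnd
  have hC0 : 0 < C := by linarith
  set e : ℝ := 1 / (2 * C ^ 2) with he
  have he0 : 0 < e := by positivity
  set δ : ℝ := min (e ^ 4) (min (1 / (2 * (C ^ 2 * (1 + C) ^ 2))) (1 / 2)) with hδ
  have hδ0 : 0 < δ := by
    rw [hδ]
    apply lt_min (by positivity) (lt_min (by positivity) (by norm_num))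
  have hδe : δ ≤ e ^ 4 := min_le_left _ _
  have hδC : δ ≤ 1 / (2 * (C ^ 2 * (1 + C) ^ 2)) := (min_le_right _ _).trans (min_le_left _ _)
  have hδh : δ ≤ 1 / 2 := (min_le_right _ _).trans (min_le_right _ _)
  have hδ1 : δ ≤ 1 := by linarith
  have hδlt : C ^ 2 * (1 + C) ^ 2 * δ < 1 := by
    have h1 : C ^ 2 * (1 + C) ^ 2 * δ ≤ C ^ 2 * (1 + C) ^ 2 * (1 / (2 * (C ^ 2 * (1 + C) ^ 2))) :=
      mul_le_mul_of_nonneg_left hδC (by positivity)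
    have h2 : C ^ 2 * (1 + C) ^ 2 * (1 / (2 * (C ^ 2 * (1 + C) ^ 2))) = 1 / 2 := by
      field_simp
    linarith
  refine ⟨min (e ^ 3 / (2 * C)) δ, δ, lt_min (by positivity) hδ0, hδ0, hδ1, ?_⟩
  intro z q σ hz hq hq8 hσ hσL
  by_cases hall : ∀ χ : DirichletCharacter ℂ q, χ ≠ 1 → min (e ^ 3 / (2 * C)) δ ≤ ‖Lj z χ 0 σ‖
  · exact Or.inl hall
  right
  push Not at hall
  obtain ⟨χ1, hχ1, hχ1b⟩ := hall
  have hreal : ∀ χ : DirichletCharacter ℂ q, χ ≠ 1 → ‖Lj z χ 0 σ‖ < min (e ^ 3 / (2 * C)) δ → χ ^ 2 = 1 := by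
    intro χ hχ hb
    by_contra hsq
    have := LOW.complex_case h_eul hC1 hC he hz hq hq8 χ hχ hsq hσ (hσL.trans hδe)
    exact absurd (this.trans_lt (hb.trans_le (min_le_left _ _))) (lt_irrefl _)
  refine ⟨χ1, hχ1, hreal χ1 hχ1 hχ1b, hχ1b, fun χ hχ hne => ?_⟩
  by_contra hb
  push Not at hb
  have hsq := hreal χ hχ hb
  have hsq1 := hreal χ1 hχ1 hχ1b
  have hzr : (32:ℝ) ≤ z := by exact_mod_cast hz
  have hL : 0 < Real.log z := Real.log_pos (by linarith)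
  set L := Real.log z with hLdef
  have hqz : q ≤ z := (Nat.le_self_pow (by norm_num) q).trans hq8
  set τ := δ / L with hτ
  have hτ0 : 0 < τ := by positivity
  have hτL : τ * L = δ := by rw [hτ]; field_simp
  have key : ∀ ψ : DirichletCharacter ℂ q, ψ ≠ 1 → ‖Lj z ψ 0 σ‖ < δ → ‖Lj z ψ 0 τ‖ ≤ δ * (1 + C) := by
    intro ψ hψ hψb
    have h3 := (hC z q ψ τ hz hq hq8 hτ0 (by rw [← hLdef, hτL]; exact hδ1)).2.2
      hψ σ hσ (by rw [← hLdef]; linarith)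
    have h4 : |τ - σ| ≤ δ / L := by
      have h5 : σ ≤ δ / L := by rw [le_div_iff₀ hL]; exact hσL
      rw [abs_le]
      constructor <;> linarith
    have h6 : C * L * |τ - σ| ≤ C * δ := by
      calc C * L * |τ - σ| ≤ C * L * (δ / L) := by gcongr
        _ = C * δ := by field_simp
    have h7 := norm_le_insert' (Lj z ψ 0 τ) (Lj z ψ 0 σ)
    calc ‖Lj z ψ 0 τ‖ ≤ ‖Lj z ψ 0 σ‖ + ‖Lj z ψ 0 τ - Lj z ψ 0 σ‖ := h7
      _ ≤ δ + C * δ := add_le_add hψb.le (h3.trans h6)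
      _ = _ := by ring
  have k1 := key χ1 hχ1 (hχ1b.trans_le (min_le_right _ _))
  have k2 := key χ hχ (hb.trans_le (min_le_right _ _))
  have hprod : χ1 * χ ≠ 1 := by
    intro h3
    apply hne
    have h5 : χ1 * (χ * χ) = χ := by rw [← mul_assoc, h3, one_mul]
    rw [← sq, hsq, mul_one] at h5
    exact h5.symm
  have hE := (h_eul z q χ1 χ τ hz hq hqz hτ0).2.2 hsq1 hsq
  have b1 := (hC z q 1 τ hz hq hq8 hτ0 (by rw [← hLdef, hτL]; exact hδ1)).2.1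
  rw [← hLdef, hτL] at b1
  have b2 := (hC z q (χ1 * χ) τ hz hq hq8 hτ0 (by rw [← hLdef, hτL]; exact hδ1)).1 hprod 0
    (by norm_num)
  rw [pow_zero, mul_one] at b2
  have hfin : ‖Lj z (1 : DirichletCharacter ℂ q) 0 τ‖ * ‖Lj z χ1 0 τ‖ * ‖Lj z χ 0 τ‖ *
      ‖Lj z (χ1 * χ) 0 τ‖ ≤ (C / δ) * (δ * (1 + C)) * (δ * (1 + C)) * C := by
    gcongr
  have : (C / δ) * (δ * (1 + C)) * (δ * (1 + C)) * C = C ^ 2 * (1 + C) ^ 2 * δ := by
    field_simp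
  linarith

/-- the series as an `L`-series -/
theorem Lj_LSeries {z q : ℕ} (χ : DirichletCharacter ℂ q) (hz : 32 ≤ z) (j : ℕ) (σ : ℝ) :
    Lj z χ j σ = LSeries (fun n => fz z χ n * ((ALG.lg j n : ℝ) : ℂ)) ((1 + σ : ℝ) : ℂ) :=
  ALG.tsum_eq_S χ hz σ (ALG.lg j)

theorem absc {z q : ℕ} (χ : DirichletCharacter ℂ q) (j : ℕ) {σ : ℝ} (hσ : 0 < σ) :
    LSeries.abscissaOfAbsConv (fun n => fz z χ n * ((ALG.lg j n : ℝ) : ℂ)) < (((1 + σ : ℝ) : ℂ).re : EReal) := by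
  have h1 : LSeriesSummable (fun n => fz z χ n * ((ALG.lg j n : ℝ) : ℂ)) ((1 + σ / 2 : ℝ) : ℂ) := by
    apply ALG.summ (ALG.f_le χ) (by linarith) j
    intro n
    unfold ALG.lg
    rw [abs_of_nonneg (pow_nonneg (Real.log_natCast_nonneg n) j)]
  refine lt_of_le_of_lt h1.abscissaOfAbsConv_le ?_
  rw [Complex.ofReal_re, Complex.ofReal_re]
  exact_mod_cast (by linarith : 1 + σ / 2 < 1 + σ)

theorem Lj_deriv {z q : ℕ} (χ : DirichletCharacter ℂ q) (hz : 32 ≤ z) (j : ℕ) {σ : ℝ} (hσ : 0 < σ) :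
    HasDerivAt (fun s : ℝ => Lj z χ j s) (-Lj z χ (j + 1) σ) σ := by
  have h1 := LSeries_hasDerivAt (absc (z := z) χ j hσ)
  have h2 : LSeries (LSeries.logMul (fun n => fz z χ n * ((ALG.lg j n : ℝ) : ℂ))) ((1 + σ : ℝ) : ℂ) = Lj z χ (j + 1) σ := by
    rw [Lj_LSeries χ hz]
    apply LSeries_congr
    intro n _
    unfold LSeries.logMul ALG.lg
    rw [pow_succ, ← Complex.ofReal_natCast, ← Complex.ofReal_log (Nat.cast_nonneg n)]
    push_cast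
    ring
  rw [h2] at h1
  have h3 : HasDerivAt (fun s : ℝ => ((1 + s : ℝ) : ℂ)) 1 σ := by
    have := (hasDerivAt_id σ).const_add (1 : ℝ)
    exact this.ofReal_comp
  have h4 := h1.comp σ h3
  rw [mul_one] at h4
  have h5 : (fun s : ℝ => Lj z χ j s) = (LSeries (fun n => fz z χ n * ((ALG.lg j n : ℝ) : ℂ)) ∘ fun s : ℝ => ((1 + s : ℝ) : ℂ)) := by
    funext s
    rw [Lj_LSeries χ hz]
    rfl
  rw [h5]
  exact h4

end Pool.Agent.H536.OB
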