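import Mathlib
import Pool.Agent.H536.OB.D1

open Finset Filter Topology

/-! Real characters: the real series and their signs. -/

namespace Pool.Agent.H536.OB

open Pool.Agent.H262R3.Lk
open Pool.Agent.H318R2.Cr (Rgh V)

/-- the values of a character as real numbers -/
noncomputable def cr {q : ℕ} (χ : DirichletCharacter ℂ q) (n : ℕ) : ℝ := (χ (n : ZMod q)).re

theorem vals3 {q : ℕ} {χ : DirichletCharacter ℂ q} (h : χ ^ 2 = 1) (a : ZMod q) : χ a = 0 ∨ χ a = 1 ∨ χ a = -1 := by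
  by_cases ha : IsUnit a
  · exact Or.inr (EUL.vals χ h ha)
  · exact Or.inl (MulChar.map_nonunit _ ha)

theorem cr_eq {q : ℕ} {χ : DirichletCharacter ℂ q} (h : χ ^ 2 = 1) (n : ℕ) : χ (n : ZMod q) = ((cr χ n : ℝ) : ℂ) := by
  unfold cr
  rcases vals3 h (n : ZMod q) with h1 | h1 | h1 <;> simp [h1]

theorem cr_vals {q : ℕ} {χ : DirichletCharacter ℂ q} (h : χ ^ 2 = 1) (n : ℕ) : cr χ n = 0 ∨ cr χ n = 1 ∨ cr χ n = -1 := by
  unfold cr
  rcases vals3 h (n : ZMod q) with h1 | h1 | h1 <;> simp [h1]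

theorem cr_mul {q : ℕ} {χ : DirichletCharacter ℂ q} (h : χ ^ 2 = 1) (m n : ℕ) : cr χ (m * n) = cr χ m * cr χ n := by
  have h1 : χ ((m * n : ℕ) : ZMod q) = χ (m : ZMod q) * χ (n : ZMod q) := by rw [Nat.cast_mul, map_mul]
  rw [cr_eq h, cr_eq h, cr_eq h, ← Complex.ofReal_mul] at h1
  exact_mod_cast h1

theorem cr_one {q : ℕ} (χ : DirichletCharacter ℂ q) : cr χ 1 = 1 := by
  unfold cr
  simp

theorem cr_abs {q : ℕ} {χ : DirichletCharacter ℂ q} (h : χ ^ 2 = 1) (n : ℕ) : |cr χ n| ≤ 1 := by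
  rcases cr_vals h n with h1 | h1 | h1 <;> simp [h1]

open Classical in
noncomputable def fr (z : ℕ) {q : ℕ} (χ : DirichletCharacter ℂ q) (n : ℕ) : ℝ := if Rgh z n then cr χ n else 0

/-- the real series -/
noncomputable def Lr (z : ℕ) {q : ℕ} (χ : DirichletCharacter ℂ q) (j : ℕ) (σ : ℝ) : ℝ :=
  ∑' n : ℕ, fr z χ n * ((Real.log n) ^ j / (n : ℝ) ^ (1 + σ))

theorem Lj_Lr {z q : ℕ} {χ : DirichletCharacter ℂ q} (h : χ ^ 2 = 1) (j : ℕ) (σ : ℝ) :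
    Lj z χ j σ = ((Lr z χ j σ : ℝ) : ℂ) := by
  unfold Lj Lr
  rw [Complex.ofReal_tsum]
  refine tsum_congr fun n => ?_
  unfold fz fr
  split_ifs
  · rw [cr_eq h]
    push_cast
    rfl
  · simp

theorem norm_Lj {z q : ℕ} {χ : DirichletCharacter ℂ q} (h : χ ^ 2 = 1) (j : ℕ) (σ : ℝ) :
    ‖Lj z χ j σ‖ = |Lr z χ j σ| := by
  rw [Lj_Lr h, Complex.norm_real, Real.norm_eq_abs]

theorem Lr_deriv {z q : ℕ} {χ : DirichletCharacter ℂ q} (h : χ ^ 2 = 1) (hz : 32 ≤ z) (j : ℕ) {σ : ℝ} (hσ : 0 < σ) :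
    HasDerivAt (fun s : ℝ => Lr z χ j s) (-Lr z χ (j + 1) σ) σ := by
  have h1 := Lj_deriv (z := z) χ hz j hσ
  have h2 := Complex.reCLM.hasFDerivAt.comp_hasDerivAt σ h1
  have h3 : (Complex.reCLM ∘ fun s : ℝ => Lj z χ j s) = fun s => Lr z χ j s := by
    funext s
    simp [Lj_Lr h]
  rw [h3] at h2
  have h4 : Complex.reCLM (-Lj z χ (j + 1) σ) = -Lr z χ (j + 1) σ := by
    simp [Lj_Lr h]
  rw [h4] at h2
  exact h2

theorem prod_real {N : ℕ} (χ : DirichletCharacter ℂ N) (h : χ ^ 2 = 1) {σ : ℝ} (hσ : 0 < σ) (S : Finset ℕ)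
    (hS : ∀ p ∈ S, p.Prime) :
    ∃ r : ℝ, 0 < r ∧ ∏ p ∈ S, (1 - χ (p : ZMod N) * (p : ℂ) ^ (-(1 + σ : ℂ)))⁻¹ = (r : ℂ) := by
  classical
  induction S using Finset.induction_on with
  | empty => exact ⟨1, one_pos, by simp⟩
  | insert p S hp ih =>
    obtain ⟨r, hr, hr2⟩ := ih fun s hs => hS s (mem_insert_of_mem hs)
    obtain ⟨x, h0, h1, hx⟩ := EUL.pow_real (hS p (mem_insert_self _ _)) hσ
    have h2 : ∃ t : ℝ, 0 < t ∧ (1 - χ (p : ZMod N) * (p : ℂ) ^ (-(1 + σ : ℂ)))⁻¹ = (t : ℂ) := by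
      rcases vals3 h (p : ZMod N) with h3 | h3 | h3
      · exact ⟨1, one_pos, by rw [h3]; simp⟩
      · refine ⟨(1 - x)⁻¹, inv_pos.2 (by linarith), ?_⟩
        rw [h3, hx]
        push_cast
        ring_nf
      · refine ⟨(1 + x)⁻¹, inv_pos.2 (by linarith), ?_⟩
        rw [h3, hx]
        push_cast
        ring_nf
    obtain ⟨t, ht, ht2⟩ := h2
    refine ⟨t * r, mul_pos ht hr, ?_⟩
    rw [prod_insert hp, hr2, ht2]
    push_cast
    rfl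

theorem Lr_pos {z q : ℕ} {χ : DirichletCharacter ℂ q} (h : χ ^ 2 = 1) (hz : 32 ≤ z) (hq : 0 < q) (hqz : q ≤ z) {σ : ℝ}
    (hσ : 0 < σ) : 0 < Lr z χ 0 σ := by
  have h0 : Lr z χ 0 σ ≠ 0 := by
    intro h0
    have h1 := (h_alg z q χ σ hz hσ).1
    rw [Lj_Lr h, h0] at h1
    simp at h1
  have h1 : 0 ≤ Lr z χ 0 σ := by
    have h2 := EUL.Lj_eq hq hqz hz χ σ
    have h3 := DirichletCharacter.LSeries_eulerProduct (EUL.ext z χ) (s := 1 + σ) (by simp [hσ])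
    rw [← h2, Lj_Lr h] at h3
    have h4 := (Complex.continuous_re.tendsto _).comp h3
    rw [Complex.ofReal_re] at h4
    refine ge_of_tendsto' h4 (fun n => ?_)
    have h5 : (EUL.ext z χ) ^ 2 = 1 := by rw [EUL.ext, ← map_pow, h, map_one]
    have h6 : ∃ r : ℝ, 0 ≤ r ∧ ∏ p ∈ Nat.primesBelow n, (1 - EUL.ext z χ (p : ZMod (q * primorial z)) * (p : ℂ) ^ (-(1 + σ : ℂ)))⁻¹ = (r : ℂ) := by
      obtain ⟨r, hr, hr2⟩ := prod_real (EUL.ext z χ) h5 hσ (Nat.primesBelow n) (fun p hp => (Nat.mem_primesBelow.1 hp).2)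
      exact ⟨r, hr.le, hr2⟩
    obtain ⟨r, hr, hr2⟩ := h6
    simp only [Function.comp]
    rw [hr2, Complex.ofReal_re]
    exact hr
  exact lt_of_le_of_ne h1 (Ne.symm h0)

/-- for an exceptional character the first derivative is large and negative -/
theorem neg_deriv : ∃ C δ' : ℝ, 1 ≤ C ∧ 0 < δ' ∧ δ' ≤ 1 ∧ ∀ (z q : ℕ) (χ : DirichletCharacter ℂ q) (σ : ℝ), 32 ≤ z → 1 ≤ q →
    q ^ 8 ≤ z → 0 < σ → σ * Real.log z ≤ δ' / 2 → χ ≠ 1 → χ ^ 2 = 1 → ‖Lj z χ 0 σ‖ < δ' / (2 * C) →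
    Lr z χ 1 σ ≤ -(Real.log z / (4 * C)) := by
  obtain ⟨C, hC1, hC⟩ := h_bnd
  have hC0 : 0 < C := by linarith
  obtain ⟨δ', hδ'⟩ : ∃ δ' : ℝ, δ' = 1 / (4 * C ^ 2) := ⟨_, rfl⟩
  have hδ0 : 0 < δ' := by rw [hδ']; positivity
  have hδ1 : δ' ≤ 1 := by
    rw [hδ', div_le_one (by positivity)]
    nlinarith
  refine ⟨C, δ', hC1, hδ0, hδ1, ?_⟩
  intro z q χ σ hz hq hq8 hσ hσL hχ hχ2 hb
  have hzr : (32:ℝ) ≤ z := by exact_mod_cast hz
  have hL : 0 < Real.log z := Real.log_pos (by linarith)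
  set L := Real.log z with hLdef
  have hqz : q ≤ z := (Nat.le_self_pow (by norm_num) q).trans hq8
  set τ := δ' / L with hτ
  have hτ0 : 0 < τ := by positivity
  have hτL : τ * L = δ' := by rw [hτ]; field_simp
  have hστ : σ < τ := by
    have h1 : σ * L < τ * L := by rw [hτL]; linarith
    exact lt_of_mul_lt_mul_right h1 hL.le
  rw [norm_Lj hχ2] at hb
  have hl0 := Lr_pos (χ := χ) hχ2 hz hq hqz hσ
  rw [abs_of_pos hl0] at hb
  -- value at τ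
  have hE := (h_eul z q χ χ τ hz hq hqz hτ0).2.1 hχ2
  have b1 := (hC z q 1 τ hz hq hq8 hτ0 (by rw [← hLdef, hτL]; exact hδ1)).2.1
  rw [← hLdef, hτL] at b1
  rw [norm_Lj hχ2] at hE
  have hl0τ := Lr_pos (χ := χ) hχ2 hz hq hqz hτ0
  rw [abs_of_pos hl0τ] at hE
  have h1 : δ' / C ≤ Lr z χ 0 τ := by
    have h2 : 1 ≤ C / δ' * Lr z χ 0 τ := hE.trans (mul_le_mul_of_nonneg_right b1 hl0τ.le)
    rw [div_le_iff₀ hC0]
    have h3 : δ' * 1 ≤ δ' * (C / δ' * Lr z χ 0 τ) := mul_le_mul_of_nonneg_left h2 hδ0.le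
    have h4 : δ' * (C / δ' * Lr z χ 0 τ) = Lr z χ 0 τ * C := by field_simp
    linarith
  -- mean value
  have hderiv : ∀ j : ℕ, ∀ x : ℝ, 0 < x → HasDerivAt (fun s : ℝ => Lr z χ j s) (-Lr z χ (j + 1) x) x :=
    fun j x hx => Lr_deriv hχ2 hz j hx
  obtain ⟨ξ, hξ, hξ2⟩ := exists_hasDerivAt_eq_slope (fun s : ℝ => Lr z χ 0 s) (fun x => -Lr z χ 1 x) hστ
    (fun x hx => ((hderiv 0 x (by rw [Set.mem_Icc] at hx; linarith [hx.1])).continuousAt).continuousWithinAt)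
    (fun x hx => hderiv 0 x (by rw [Set.mem_Ioo] at hx; linarith [hx.1]))
  rw [Set.mem_Ioo] at hξ
  have hξ0 : 0 < ξ := by linarith [hξ.1]
  have hτσ : 0 < τ - σ := by linarith
  have h2 : L / (2 * C) ≤ -Lr z χ 1 ξ := by
    rw [hξ2, le_div_iff₀ hτσ]
    have h3 : δ' / (2 * C) ≤ Lr z χ 0 τ - Lr z χ 0 σ := by
      have : δ' / C = δ' / (2 * C) + δ' / (2 * C) := by field_simp; ring
      linarith
    refine le_trans ?_ h3
    calc L / (2 * C) * (τ - σ) ≤ L / (2 * C) * τ := by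
          apply mul_le_mul_of_nonneg_left _ (by positivity)
          linarith
      _ = δ' / (2 * C) := by rw [← hτL]; ring
  obtain ⟨ξ', hξ', hξ2'⟩ := exists_hasDerivAt_eq_slope (fun s : ℝ => Lr z χ 1 s) (fun x => -Lr z χ 2 x) hξ.1
    (fun x hx => ((hderiv 1 x (by rw [Set.mem_Icc] at hx; linarith [hx.1])).continuousAt).continuousWithinAt)
    (fun x hx => hderiv 1 x (by rw [Set.mem_Ioo] at hx; linarith [hx.1]))
  rw [Set.mem_Ioo] at hξ'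
  have hξ'0 : 0 < ξ' := by linarith [hξ'.1]
  have hξ'L : ξ' * L ≤ 1 := by
    have : ξ' * L ≤ τ * L := mul_le_mul_of_nonneg_right (by linarith [hξ'.2, hξ.2]) hL.le
    linarith
  have b2 := (hC z q χ ξ' hz hq hq8 hξ'0 (by rw [← hLdef]; exact hξ'L)).1 hχ 2 (by norm_num)
  rw [norm_Lj hχ2, ← hLdef] at b2
  have hξσ : 0 < ξ - σ := by linarith [hξ.1]
  have h3 : Lr z χ 1 σ = Lr z χ 1 ξ + Lr z χ 2 ξ' * (ξ - σ) := by
    rw [eq_div_iff hξσ.ne'] at hξ2'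
    linarith
  have h4 : Lr z χ 2 ξ' * (ξ - σ) ≤ L / (4 * C) := by
    have h5 : Lr z χ 2 ξ' ≤ C * L ^ 2 := (le_abs_self _).trans b2
    calc Lr z χ 2 ξ' * (ξ - σ) ≤ (C * L ^ 2) * (ξ - σ) := mul_le_mul_of_nonneg_right h5 hξσ.le
      _ ≤ (C * L ^ 2) * τ := by
          apply mul_le_mul_of_nonneg_left _ (by positivity)
          linarith [hξ.2]
      _ = C * L * (τ * L) := by ring
      _ = L / (4 * C) := by
          rw [hτL, hδ']
          field_simp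
  have h5 : L / (2 * C) = L / (4 * C) + L / (4 * C) := by field_simp; ring
  linarith

end Pool.Agent.H536.OB
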