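import Mathlib
import Pool.Agent.H536.OB.D2
import Pool.Graph.R_seed8.H307R2.LU
import Pool.Graph.R_seed8.H307R2.Sg6

open Finset Filter Topology

/-! The value at `1` of the `L`-function of a real character. -/

namespace Pool.Agent.H536.OB

open Pool.Agent.H262R3.Lk
open Pool.Agent.H318R2.Cr (Rgh V)

/-- the value at one -/
noncomputable def LV {q : ℕ} [NeZero q] (χ : DirichletCharacter ℂ q) : ℝ := (χ.LFunction 1).re

theorem LF_tail {q : ℕ} [NeZero q] {χ : DirichletCharacter ℂ q} (hχ : χ ≠ 1) {N : ℕ} (hN : 1 ≤ N) :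
    ‖χ.LFunction 1 - ∑ n ∈ Icc 1 N, χ (n : ZMod q) / (n : ℂ)‖ ≤ q / N := by
  have h1 := Pool.Agent.H307R2.LFunction_eq hχ hN (s := 1) (by simp)
  have h2 := Pool.Agent.H307R2.TM_norm_le hN (Pool.Agent.H307R2.Ech_norm_le hχ N) (s := 1) (by simp)
  have h3 : ∑ n ∈ Icc 1 N, χ (n : ZMod q) / (n : ℂ) = ∑ n ∈ Icc 1 N, χ (n : ZMod q) * (n : ℂ) ^ (-1 : ℂ) := by
    apply sum_congr rfl
    intro n _
    rw [Complex.cpow_neg_one, div_eq_mul_inv]
  rw [h3, h1, add_sub_cancel_left, one_mul]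
  refine h2.trans (le_of_eq ?_)
  simp [Real.rpow_neg_one, div_eq_mul_inv]

theorem LF_real {q : ℕ} [NeZero q] {χ : DirichletCharacter ℂ q} (hχ : χ ≠ 1) (h : χ ^ 2 = 1) :
    χ.LFunction 1 = ((LV χ : ℝ) : ℂ) := by
  apply Complex.ext
  · simp [LV]
  · rw [Complex.ofReal_im]
    have key : ∀ N : ℕ, 1 ≤ N → |(χ.LFunction 1).im| ≤ q / N := by
      intro N hN
      have h1 := LF_tail hχ hN
      have h2 : (∑ n ∈ Icc 1 N, χ (n : ZMod q) / (n : ℂ)).im = 0 := by
        rw [Complex.im_sum]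
        apply sum_eq_zero
        intro n _
        rw [cr_eq h, ← Complex.ofReal_natCast, ← Complex.ofReal_div, Complex.ofReal_im]
      have h3 := (Complex.abs_im_le_norm (χ.LFunction 1 - ∑ n ∈ Icc 1 N, χ (n : ZMod q) / (n : ℂ))).trans h1
      rwa [Complex.sub_im, h2, sub_zero] at h3
    have h4 : Tendsto (fun N : ℕ => (q : ℝ) / N) atTop (𝓝 0) := tendsto_const_div_atTop_nhds_zero_nat (q : ℝ)
    have h5 : |(χ.LFunction 1).im| ≤ 0 := by
      apply ge_of_tendsto h4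
      filter_upwards [eventually_ge_atTop 1] with N hN
      exact key N hN
    exact abs_nonpos_iff.1 h5

theorem LV_tail {q : ℕ} [NeZero q] {χ : DirichletCharacter ℂ q} (hχ : χ ≠ 1) (h : χ ^ 2 = 1) {N : ℕ} (hN : 1 ≤ N) :
    |LV χ - ∑ n ∈ Icc 1 N, cr χ n / (n : ℝ)| ≤ q / N := by
  have h1 := LF_tail hχ hN
  rw [LF_real hχ h] at h1
  have h2 : (∑ n ∈ Icc 1 N, χ (n : ZMod q) / (n : ℂ)) = ((∑ n ∈ Icc 1 N, cr χ n / (n : ℝ) : ℝ) : ℂ) := by
    push_cast
    apply sum_congr rfl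
    intro n _
    rw [cr_eq h]
  rwa [h2, ← Complex.ofReal_sub, Complex.norm_real, Real.norm_eq_abs] at h1

theorem LV_le {q : ℕ} [NeZero q] {χ : DirichletCharacter ℂ q} (hχ : χ ≠ 1) (h : χ ^ 2 = 1) : |LV χ| ≤ 1 + q := by
  have h1 := LV_tail hχ h le_rfl
  simp only [Icc_self, sum_singleton, Nat.cast_one, cr_one, div_one] at h1
  have h2 := abs_sub_abs_le_abs_sub (LV χ) 1
  rw [abs_one] at h2
  linarith

/-- the rough value -/
noncomputable def ell (z : ℕ) {q : ℕ} [NeZero q] (χ : DirichletCharacter ℂ q) : ℝ :=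
  LV χ * ∏ p ∈ Pool.Agent.H318R2.Cr.Pz z, (1 - cr χ p / (p : ℝ))

theorem fac_pos {q : ℕ} {χ : DirichletCharacter ℂ q} (h : χ ^ 2 = 1) {p : ℕ} (hp : p.Prime) : 0 < 1 - cr χ p / (p : ℝ) := by
  have h1 : (2 : ℝ) ≤ p := by exact_mod_cast hp.two_le
  have h2 := (abs_le.1 (cr_abs h p)).2
  have h3 : cr χ p / (p : ℝ) ≤ 1 / 2 := by
    rw [div_le_div_iff₀ (by linarith) (by norm_num)]
    linarith
  linarith

theorem ell_tendsto {z q : ℕ} [NeZero q] {χ : DirichletCharacter ℂ q} (hz : 32 ≤ z) (hqz : q ≤ z) (hχ : χ ≠ 1)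
    (h : χ ^ 2 = 1) : Tendsto (fun s : ℝ => Lr z χ 0 s) (𝓝[>] 0) (𝓝 (ell z χ)) := by
  have hq : 0 < q := Nat.pos_of_ne_zero (NeZero.ne q)
  have hN : NeZero (q * primorial z) := ⟨(Nat.mul_pos hq (primorial_pos z)).ne'⟩
  have hext : EUL.ext z χ ≠ 1 := by
    unfold EUL.ext
    rw [Ne, DirichletCharacter.changeLevel_eq_one_iff]
    exact hχ
  have h1 : Tendsto (fun s : ℝ => (EUL.ext z χ).LFunction (1 + s)) (𝓝[>] 0) (𝓝 ((EUL.ext z χ).LFunction 1)) := by
    have h2 : Continuous (fun s : ℝ => (EUL.ext z χ).LFunction (1 + s)) :=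
      (DirichletCharacter.differentiable_LFunction hext).continuous.comp (by fun_prop)
    have h3 := h2.tendsto 0
    simp only [Complex.ofReal_zero, add_zero] at h3
    exact h3.mono_left nhdsWithin_le_nhds
  have h2 : (EUL.ext z χ).LFunction 1 = ((ell z χ : ℝ) : ℂ) := by
    unfold EUL.ext
    rw [DirichletCharacter.LFunction_changeLevel _ χ (Or.inl hχ), LF_real hχ h]
    unfold ell
    push_cast
    congr 1
    have h3 : (q * primorial z).primeFactors = q.primeFactors ∪ Pool.Agent.H318R2.Cr.Pz z := by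
      rw [Nat.primeFactors_mul hq.ne' (primorial_pos z).ne']
      congr 1
      unfold primorial
      rw [Nat.primeFactors_prod (fun p hp => (mem_filter.1 hp).2)]
      ext p
      rw [mem_filter, mem_range, Pool.Agent.H318R2.Cr.mem_Pz]
      constructor
      · rintro ⟨a1, a2⟩; exact ⟨a2, by omega⟩
      · rintro ⟨a1, a2⟩; exact ⟨by omega, a1⟩
    have h4 : q.primeFactors ∪ Pool.Agent.H318R2.Cr.Pz z = Pool.Agent.H318R2.Cr.Pz z := by
      apply union_eq_right.2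
      intro p hp
      rw [Pool.Agent.H318R2.Cr.mem_Pz]
      exact ⟨Nat.prime_of_mem_primeFactors hp, (Nat.le_of_mem_primeFactors hp).trans hqz⟩
    rw [h3, h4]
    apply prod_congr rfl
    intro p _
    rw [cr_eq h, Complex.cpow_neg_one, div_eq_mul_inv]
  have h3 : Tendsto (fun s : ℝ => ((Lr z χ 0 s : ℝ) : ℂ)) (𝓝[>] 0) (𝓝 ((ell z χ : ℝ) : ℂ)) := by
    rw [← h2]
    refine h1.congr' ?_
    filter_upwards [self_mem_nhdsWithin] with s hs
    rw [Set.mem_Ioi] at hs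
    rw [← Lj_Lr h, EUL.Lj_eq hq hqz hz, DirichletCharacter.LFunction_eq_LSeries _ (by simp [hs])]
  have h4 := (Complex.continuous_re.tendsto _).comp h3
  simpa [Function.comp_def] using h4

theorem LV_pos {q : ℕ} [NeZero q] {χ : DirichletCharacter ℂ q} (hχ : χ ≠ 1) (h : χ ^ 2 = 1) : 0 < LV χ := by
  have hq : 0 < q := Nat.pos_of_ne_zero (NeZero.ne q)
  set z := q + 32 with hz
  have h1 := ell_tendsto (z := z) (by omega) (by omega) hχ h
  have h2 : 0 ≤ ell z χ := by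
    apply ge_of_tendsto h1
    filter_upwards [self_mem_nhdsWithin] with s hs
    exact (Lr_pos h (by omega) hq (by omega) hs).le
  have h3 : 0 < ∏ p ∈ Pool.Agent.H318R2.Cr.Pz z, (1 - cr χ p / (p : ℝ)) :=
    prod_pos fun p hp => fac_pos h (Pool.Agent.H318R2.Cr.mem_Pz.1 hp).1
  have h4 : 0 ≤ LV χ := by
    unfold ell at h2
    exact nonneg_of_mul_nonneg_left h2 h3
  have h5 : LV χ ≠ 0 := by
    intro h5
    have h6 := DirichletCharacter.LFunction_apply_one_ne_zero hχ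
    rw [LF_real hχ h, h5] at h6
    simp at h6
  exact lt_of_le_of_ne h4 h5.symm

theorem ell_pos {z q : ℕ} [NeZero q] {χ : DirichletCharacter ℂ q} (hχ : χ ≠ 1) (h : χ ^ 2 = 1) : 0 < ell z χ :=
  mul_pos (LV_pos hχ h) (prod_pos fun _ hp => fac_pos h (Pool.Agent.H318R2.Cr.mem_Pz.1 hp).1)

/-- the rough value is close to the series -/
theorem ell_le : ∃ C : ℝ, 1 ≤ C ∧ ∀ (z q : ℕ) [NeZero q] (χ : DirichletCharacter ℂ q) (σ : ℝ), 32 ≤ z → q ^ 8 ≤ z →
    0 < σ → σ * Real.log z ≤ 1 → χ ≠ 1 → χ ^ 2 = 1 → ell z χ ≤ ‖Lj z χ 0 σ‖ + C * (σ * Real.log z) := by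
  obtain ⟨C, hC1, hC⟩ := h_bnd
  refine ⟨C, hC1, ?_⟩
  intro z q _ χ σ hz hq8 hσ hσL hχ h
  have hq : 0 < q := Nat.pos_of_ne_zero (NeZero.ne q)
  have hqz : q ≤ z := (Nat.le_self_pow (by norm_num) q).trans hq8
  have hzr : (32:ℝ) ≤ z := by exact_mod_cast hz
  have hL : 0 < Real.log z := Real.log_pos (by linarith)
  have h1 := ell_tendsto hz hqz hχ h
  apply le_of_tendsto h1
  have h2 : Set.Ioo (0 : ℝ) σ ∈ 𝓝[>] (0 : ℝ) := Ioo_mem_nhdsGT hσ
  filter_upwards [h2] with s hs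
  rw [Set.mem_Ioo] at hs
  have h3 := (hC z q χ σ hz hq hq8 hσ hσL).2.2 hχ s hs.1 (by nlinarith [hs.1, hs.2])
  have h4 := norm_le_insert' (Lj z χ 0 s) (Lj z χ 0 σ)
  rw [norm_sub_rev] at h4
  have h5 : |σ - s| ≤ σ := by
    rw [abs_of_pos (by linarith [hs.2])]
    linarith [hs.1]
  have h6 : C * Real.log z * |σ - s| ≤ C * Real.log z * σ := mul_le_mul_of_nonneg_left h5 (by positivity)
  have h7 : Lr z χ 0 s ≤ ‖Lj z χ 0 s‖ := by
    rw [norm_Lj h]
    exact le_abs_self _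
  linarith

theorem LV_low : ∃ c : ℝ, 0 < c ∧ ∀ (q : ℕ) [NeZero q] (χ : DirichletCharacter ℂ q), χ ≠ 1 → χ ^ 2 = 1 →
    c / (q : ℝ) ^ 2 ≤ LV χ := by
  obtain ⟨c, hc, hS⟩ := Pool.Agent.H307R2.siegel 1 one_pos
  refine ⟨c, hc, ?_⟩
  intro q _ χ hχ h
  have hq : 0 < q := Nat.pos_of_ne_zero (NeZero.ne q)
  have hqr : (1 : ℝ) ≤ q := by exact_mod_cast hq
  have hf : χ.conductor ∣ q := DirichletCharacter.conductor_dvd_level χ
  have hf0 : NeZero χ.conductor := ⟨DirichletCharacter.conductor_ne_zero χ⟩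
  have hcl : DirichletCharacter.changeLevel hf χ.primitiveCharacter = χ := DirichletCharacter.changeLevel_primitiveCharacter χ
  have hp2 : χ.primitiveCharacter ^ 2 = 1 := by
    apply DirichletCharacter.changeLevel_injective hf
    rw [map_pow, hcl, h, map_one]
  have hp1 : χ.primitiveCharacter ≠ 1 := by
    intro h1
    apply hχ
    rw [← hcl, h1, map_one]
  have h1 := hS χ.conductor χ.primitiveCharacter (DirichletCharacter.primitiveCharacter_isPrimitive χ) hp2 hp1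
  have h2 : χ.LFunction 1 = χ.primitiveCharacter.LFunction 1 *
      ∏ p ∈ q.primeFactors, (1 - χ.primitiveCharacter p * (p : ℂ) ^ (-(1 : ℂ))) := by
    conv_lhs => rw [← hcl]
    exact DirichletCharacter.LFunction_changeLevel hf _ (Or.inl hp1)
  have h3 : LV χ = ‖χ.LFunction 1‖ := by
    rw [LF_real hχ h, Complex.norm_real, Real.norm_eq_abs, abs_of_pos (LV_pos hχ h)]
  rw [h3, h2, norm_mul, norm_prod]
  have h4 : c / q ≤ ‖χ.primitiveCharacter.LFunction 1‖ := by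
    refine le_trans ?_ h1
    rw [Real.rpow_neg_one, div_eq_mul_inv]
    apply mul_le_mul_of_nonneg_left _ hc.le
    apply inv_anti₀
    · exact_mod_cast Nat.pos_of_ne_zero hf0.out
    · exact_mod_cast Nat.le_of_dvd hq hf
  have h5 : 1 / (q : ℝ) ≤ ∏ p ∈ q.primeFactors, ‖1 - χ.primitiveCharacter p * (p : ℂ) ^ (-(1 : ℂ))‖ := by
    have h6 : (q.totient : ℝ) / q = ∏ p ∈ q.primeFactors, (1 - (p : ℝ)⁻¹) := by
      have h60 : (q.totient : ℝ) = q * ∏ p ∈ q.primeFactors, (1 - (p : ℝ)⁻¹) := by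
        have h61 := congrArg (fun x : ℚ => (x : ℝ)) (Nat.totient_eq_mul_prod_factors q)
        push_cast at h61
        exact h61
      rw [h60]
      field_simp
    have h7 : 1 / (q : ℝ) ≤ (q.totient : ℝ) / q := by
      apply div_le_div_of_nonneg_right _ (by linarith)
      exact_mod_cast Nat.totient_pos.2 hq
    refine h7.trans ?_
    rw [h6]
    apply Finset.prod_le_prod
    · intro p hp
      have h8 : (2 : ℝ) ≤ p := by exact_mod_cast (Nat.prime_of_mem_primeFactors hp).two_le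
      have h9 : (p : ℝ)⁻¹ ≤ 1 := inv_le_one_of_one_le₀ (by linarith)
      linarith
    · intro p hp
      have h8 : (2 : ℝ) ≤ p := by exact_mod_cast (Nat.prime_of_mem_primeFactors hp).two_le
      rw [cr_eq hp2, Complex.cpow_neg_one, ← Complex.ofReal_natCast, ← Complex.ofReal_inv, ← Complex.ofReal_mul,
        ← Complex.ofReal_one, ← Complex.ofReal_sub, Complex.norm_real, Real.norm_eq_abs]
      refine le_trans ?_ (le_abs_self _)
      have h9 := (abs_le.1 (cr_abs hp2 p)).2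
      have h10 : 0 < (p : ℝ)⁻¹ := by positivity
      nlinarith
  calc c / (q : ℝ) ^ 2 = c / q * (1 / q) := by field_simp
    _ ≤ _ := mul_le_mul h4 h5 (by positivity) (norm_nonneg _)

end Pool.Agent.H536.OB
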