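import Mathlib
import Pool.Graph.R_pool_sql_team_seeded_f0cf7b00.H262R3.Lk.Fn6
import Pool.Graph.R_seed8.TH882.FL
import Pool.Graph.R_seed8.W41.Sieve

open Finset Filter

/-! The fundamental lemma of the sieve for the primes of an arithmetic progression of large modulus. -/

namespace Pool.Agent.H536.OB

open Pool.Agent.H262R3.Lk Pool.Agent.H378R2

/-- existence of a common class -/
theorem crt_ex {Q : ℕ} (B : ℕ) (T : Finset ℕ) (hT : ∀ p ∈ T, p.Prime ∧ ¬ p ∣ Q) (c : ℕ → ℕ) :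
    ∃ B' : ℕ, B' ≡ B [MOD Q] ∧ ∀ p ∈ T, B' ≡ c p [MOD p] := by
  classical
  induction T using Finset.induction_on with
  | empty => exact ⟨B, Nat.ModEq.refl _, fun p hp => absurd hp (notMem_empty p)⟩
  | insert p T hp ih =>
    obtain ⟨B1, h1, h2⟩ := ih fun r hr => hT r (mem_insert_of_mem hr)
    obtain ⟨hpp, hpQ⟩ := hT p (mem_insert_self _ _)
    have hco : (Q * ∏ r ∈ T, r).Coprime p := by
      apply Nat.Coprime.symm
      rw [Nat.Prime.coprime_iff_not_dvd hpp]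
      intro hd
      rcases (Nat.Prime.dvd_mul hpp).1 hd with h | h
      · exact hpQ h
      · obtain ⟨r, hr, hpr⟩ := (Prime.dvd_finsetProd_iff hpp.prime _).1 h
        have := (Nat.prime_dvd_prime_iff_eq hpp (hT r (mem_insert_of_mem hr)).1).1 hpr
        subst this
        exact hp hr
    obtain ⟨B', h3, h4⟩ := Nat.chineseRemainder hco B1 (c p)
    refine ⟨B', (h3.of_dvd (dvd_mul_right _ _)).trans h1, ?_⟩
    intro r hr
    rcases mem_insert.1 hr with rfl | hr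
    · exact h4
    · exact (h3.of_dvd ((dvd_prod_of_mem _ hr).mul_left _)).trans (h2 r hr)

theorem modEq_prod {Q n B' : ℕ} (T : Finset ℕ) (hT : ∀ p ∈ T, p.Prime ∧ ¬ p ∣ Q) :
    n ≡ B' [MOD Q * ∏ p ∈ T, p] ↔ n ≡ B' [MOD Q] ∧ ∀ p ∈ T, n ≡ B' [MOD p] := by
  constructor
  · intro h
    exact ⟨h.of_dvd (dvd_mul_right _ _), fun p hp => h.of_dvd ((dvd_prod_of_mem _ hp).mul_left _)⟩
  · rintro ⟨h1, h2⟩
    rw [Nat.modEq_iff_dvd] at h1 ⊢
    push_cast
    apply IsCoprime.mul_dvd _ h1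
    · apply Finset.prod_dvd_of_coprime
      · intro p hp r hr hpr
        have := (Nat.coprime_primes (hT p hp).1 (hT r hr).1).2 hpr
        exact Nat.isCoprime_iff_coprime.2 this
      · intro p hp
        have := h2 p hp
        rwa [Nat.modEq_iff_dvd] at this
    · apply IsCoprime.prod_right
      intro p hp
      have h3 : p.Coprime Q := (Nat.Prime.coprime_iff_not_dvd (hT p hp).1).2 (hT p hp).2
      exact (Nat.isCoprime_iff_coprime.2 h3.symm)

theorem tot_prod (T : Finset ℕ) (hT : ∀ p ∈ T, p.Prime) :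
    ((∏ p ∈ T, p).totient : ℝ) = ∏ p ∈ T, ((p : ℝ) - 1) := by
  classical
  induction T using Finset.induction_on with
  | empty => simp
  | insert p T hp ih =>
    have hpp := hT p (mem_insert_self _ _)
    have hco : p.Coprime (∏ r ∈ T, r) := by
      rw [Nat.Prime.coprime_iff_not_dvd hpp]
      intro h
      obtain ⟨r, hr, hpr⟩ := (Prime.dvd_finsetProd_iff hpp.prime _).1 h
      have := (Nat.prime_dvd_prime_iff_eq hpp (hT r (mem_insert_of_mem hr))).1 hpr
      subst this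
      exact hp hr
    rw [prod_insert hp, prod_insert hp, Nat.totient_mul hco, Nat.cast_mul,
      ih fun r hr => hT r (mem_insert_of_mem hr), Nat.totient_prime hpp, Nat.cast_sub hpp.one_lt.le, Nat.cast_one]

theorem card_div_prod (T : Finset ℕ) (hT : ∀ p ∈ T, p.Prime) :
    (∏ p ∈ T, p).divisors.card = 2 ^ T.card := by
  classical
  induction T using Finset.induction_on with
  | empty => simp
  | insert p T hp ih =>
    have hpp := hT p (mem_insert_self _ _)
    have hco : p.Coprime (∏ r ∈ T, r) := by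
      rw [Nat.Prime.coprime_iff_not_dvd hpp]
      intro h
      obtain ⟨r, hr, hpr⟩ := (Prime.dvd_finsetProd_iff hpp.prime _).1 h
      have := (Nat.prime_dvd_prime_iff_eq hpp (hT r (mem_insert_of_mem hr))).1 hpr
      subst this
      exact hp hr
    rw [prod_insert hp, Nat.Coprime.card_divisors_mul hco, ih fun r hr => hT r (mem_insert_of_mem hr),
      card_insert_of_notMem hp, Nat.Prime.divisors hpp, card_pair hpp.one_lt.ne, pow_succ, mul_comm]

theorem prod_mem_inj {T T' : Finset ℕ} (hT : ∀ p ∈ T, p.Prime) (hT' : ∀ p ∈ T', p.Prime)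
    (h : ∏ p ∈ T, p = ∏ p ∈ T', p) : T = T' := by
  rw [← Nat.primeFactors_prod hT, ← Nat.primeFactors_prod hT', h]

open Classical in
/-- the sifted sum -/
noncomputable def SF (Y : ℝ) (Q B : ℕ) (P : Finset ℕ) (Om : ℕ → Finset ℕ) : ℝ :=
  ∑ n ∈ ((Icc 1 ⌊3 * Y⌋₊).filter (fun n => n ≡ B [MOD Q])).filter (fun n => ∀ p ∈ P, n % p ∉ Om p),
    Phi (n / Y) * ArithmeticFunction.vonMangoldt n

/-- the product of the sieve -/
noncomputable def VF (P : Finset ℕ) (Om : ℕ → Finset ℕ) : ℝ := ∏ p ∈ P, (1 - ((Om p).card : ℝ) * (1 / ((p : ℝ) - 1)))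

open Classical in
theorem N1 (κ : ℕ) : ∃ C0 : ℕ, 1 ≤ C0 ∧ ∀ b : ℕ, C0 ≤ b → ∀ A : ℕ, ∃ C1 : ℕ, ∀ᶠ X : ℝ in atTop,
    ∀ (Y : ℝ) (a W B : ℕ) (P : Finset ℕ) (Om : ℕ → Finset ℕ), X ≤ Y → Y ≤ X ^ 2 → 1 ≤ a →
    (a : ℝ) ≤ X ^ (1 / 1000 : ℝ) → 1 ≤ W → (W : ℝ) ≤ X ^ (1 / 500 : ℝ) → B.Coprime (a * W) →
    (∀ p ∈ P, p.Prime ∧ ⌊(Real.log X) ^ C1⌋₊ < p ∧ (p : ℝ) ≤ X ^ (1 / (200 * C0 * b : ℝ)) ∧ ¬ p ∣ a * W) →
    (∀ p ∈ P, (Om p).card ≤ κ ∧ ∀ c ∈ Om p, 0 < c ∧ c < p) →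
    |SF Y (a * W) B P Om - pc Y (a * W) B * VF P Om| ≤
      (1 / 2 : ℝ) ^ b * (pc Y (a * W) B * VF P Om) + Y / (((a * W).totient : ℝ) * (Real.log X) ^ A) := by
  obtain ⟨C0, hC0, hfl⟩ := Pool.Agent.TH882.FL.fla κ
  refine ⟨C0, hC0, fun b hb A => ?_⟩
  obtain ⟨C1, hrel⟩ := relbv (A + κ + 2)
  refine ⟨C1 + 1, ?_⟩
  have hb1 : 1 ≤ b := hC0.trans hb
  have hCb : (0 : ℝ) < 200 * C0 * b := by
    have h1 : (0 : ℝ) < C0 := by exact_mod_cast hC0
    have h2 : (0 : ℝ) < b := by exact_mod_cast hb1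
    positivity
  have hlog : Tendsto Real.log atTop atTop := Real.tendsto_log_atTop
  have hy : Tendsto (fun X : ℝ => X ^ (1 / (200 * C0 * b : ℝ))) atTop atTop :=
    tendsto_rpow_atTop (by positivity)
  filter_upwards [hrel, hlog.eventually_ge_atTop ((C0 : ℝ) + 4), hy.eventually_ge_atTop 8, eventually_ge_atTop (3 : ℝ)]
    with X h1 h2 h3 hX3
  intro Y a W B P Om hXY hYX ha haX hW hWX hB hP hOm
  have hX0 : 0 < X := by linarith
  have hX1 : 1 ≤ X := by linarith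
  have hY0 : 0 < Y := by linarith
  set Q := a * W with hQ
  have hQ0 : 0 < Q := Nat.mul_pos ha hW
  have hlog1 : (1 : ℝ) ≤ Real.log X := by
    have : (0 : ℝ) ≤ C0 := Nat.cast_nonneg _
    linarith
  obtain ⟨y, hy⟩ : ∃ y : ℕ, y = ⌊X ^ (1 / (200 * C0 * b : ℝ))⌋₊ := ⟨_, rfl⟩
  have hyle : (y : ℝ) ≤ X ^ (1 / (200 * C0 * b : ℝ)) := by
    rw [hy]; exact Nat.floor_le (by positivity)
  have hy8 : 8 ≤ y := by
    rw [hy]; exact Nat.le_floor (by exact_mod_cast h3)
  obtain ⟨J, hJ⟩ : ∃ J : ℕ, J = Pool.Agent.W41.JJ y := ⟨_, rfl⟩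
  have hJle : 2 ^ 2 ^ J ≤ y ^ 2 := by rw [hJ]; exact Pool.Agent.W41.JJ_le y (by omega)
  have hJlt : y < 2 ^ 2 ^ J := by rw [hJ]; exact Pool.Agent.W41.JJ_lt y
  -- level
  have hlev : (((2 ^ 2 ^ J : ℕ) ^ (C0 * b) : ℕ) : ℝ) ≤ X ^ (1 / 100 : ℝ) := by
    have g1 : (((2 ^ 2 ^ J : ℕ) ^ (C0 * b) : ℕ) : ℝ) ≤ ((y : ℝ) ^ 2) ^ (C0 * b) := by
      exact_mod_cast Nat.pow_le_pow_left hJle (C0 * b)
    refine g1.trans ?_
    calc ((y : ℝ) ^ 2) ^ (C0 * b) ≤ ((X ^ (1 / (200 * C0 * b : ℝ))) ^ 2) ^ (C0 * b) := by gcongr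
      _ = X ^ (1 / 100 : ℝ) := by
        rw [← pow_mul, ← Real.rpow_natCast, ← Real.rpow_mul hX0.le]
        congr 1
        push_cast
        field_simp
        norm_num
  have hlev' : (2 ^ 2 ^ J) ^ (C0 * b) ≤ ⌊X ^ (1 / 100 : ℝ)⌋₊ := Nat.le_floor hlev
  -- the smallest prime
  have hlogC : Real.log X ≤ (Real.log X) ^ (C1 + 1) := le_self_pow₀ hlog1 (by omega)
  have hz0 : C0 ≤ ⌊(Real.log X) ^ (C1 + 1)⌋₊ := by
    apply Nat.le_floor
    linarith
  have hPP : ∀ p ∈ P, p.Prime := fun p hp => (hP p hp).1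
  have hPy : ∀ p ∈ P, p ≤ y := by
    intro p hp
    rw [hy]
    exact Nat.le_floor (hP p hp).2.2.1
  obtain ⟨Bc, hBc1, hBc2⟩ := Bc_exists' Y Q hQ0
  set S := (Icc 1 ⌊3 * Y⌋₊).filter (fun n => n ≡ B [MOD Q]) with hS
  have hw0 : ∀ n : ℕ, 0 ≤ Phi (n / Y) * ArithmeticFunction.vonMangoldt n := fun n =>
    mul_nonneg (by unfold Phi; exact le_max_left _ _) ArithmeticFunction.vonMangoldt_nonneg
  have hpc0 : 0 ≤ pc Y Q B := by
    unfold pc
    exact sum_nonneg fun n _ => hw0 n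
  have hmain := hfl b J (⌊(Real.log X) ^ (C1 + 1)⌋₊) P (fun p => 1 / ((p : ℝ) - 1)) Om hb hz0
    (fun p hp => ⟨hPP p hp, (hP p hp).2.1, (hPy p hp).trans hJlt.le⟩) (fun p hp => (hOm p hp).1)
    (fun p hp => by
      have : (2 : ℝ) ≤ p := by exact_mod_cast (hPP p hp).two_le
      refine ⟨?_, le_rfl⟩
      apply div_nonneg zero_le_one
      linarith) S (fun n => Phi (n / Y) * ArithmeticFunction.vonMangoldt n) (pc Y Q B)
    (fun d => |ER Y Q d (Bc d)|) (fun n _ => hw0 n) hpc0 (fun m => abs_nonneg _) (by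
      intro T hT _ c hc
      have hTp : ∀ p ∈ T, p.Prime ∧ ¬ p ∣ Q := fun p hp => ⟨hPP p (hT hp), (hP p (hT hp)).2.2.2⟩
      obtain ⟨B', hB'1, hB'2⟩ := crt_ex (Q := Q) B T hTp c
      set d := ∏ p ∈ T, p with hd
      have hd1 : 1 ≤ d := Nat.one_le_iff_ne_zero.2 (prod_ne_zero_iff.2 fun p hp => (hTp p hp).1.ne_zero)
      have e1 : ∑ n ∈ S.filter (fun n => ∀ p ∈ T, n % p = c p), Phi (n / Y) * ArithmeticFunction.vonMangoldt n =
          pc Y (Q * d) B' := by
        unfold pc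
        congr 1
        ext n
        rw [hS, mem_filter, mem_filter, mem_filter, hd, modEq_prod T hTp]
        constructor
        · rintro ⟨⟨k1, k2⟩, k3⟩
          refine ⟨k1, k2.trans hB'1.symm, fun p hp => ?_⟩
          have hcp := (hOm p (hT hp)).2 _ (hc p hp)
          have k4 : n ≡ c p [MOD p] := by
            unfold Nat.ModEq
            rw [k3 p hp, Nat.mod_eq_of_lt hcp.2]
          exact k4.trans (hB'2 p hp).symm
        · rintro ⟨k1, k2, k3⟩
          refine ⟨⟨k1, k2.trans hB'1⟩, fun p hp => ?_⟩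
          have hcp := (hOm p (hT hp)).2 _ (hc p hp)
          have k4 : n ≡ c p [MOD p] := (k3 p hp).trans (hB'2 p hp)
          unfold Nat.ModEq at k4
          rwa [Nat.mod_eq_of_lt hcp.2] at k4
      have e2 : pc Y Q B = pc Y Q B' := by
        unfold pc
        congr 1
        ext n
        rw [mem_filter, mem_filter]
        constructor
        · rintro ⟨k1, k2⟩; exact ⟨k1, k2.trans hB'1.symm⟩
        · rintro ⟨k1, k2⟩; exact ⟨k1, k2.trans hB'1⟩
      have e3 : ∏ p ∈ T, (1 / ((p : ℝ) - 1)) = 1 / (d.totient : ℝ) := by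
        rw [prod_div_distrib, prod_const_one, hd, tot_prod T fun p hp => (hTp p hp).1]
      have hcop : B'.Coprime (Q * d) := by
        apply Nat.Coprime.mul_right
        · have := hB'1.gcd_eq
          rw [Nat.coprime_iff_gcd_eq_one, this]
          exact hB
        · rw [hd]
          apply Nat.Coprime.prod_right
          intro p hp
          apply Nat.Coprime.symm
          rw [Nat.Prime.coprime_iff_not_dvd (hTp p hp).1]
          intro hdv
          have k1 := hB'2 p hp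
          have hcp := (hOm p (hT hp)).2 _ (hc p hp)
          unfold Nat.ModEq at k1
          rw [Nat.mod_eq_of_lt hcp.2, Nat.mod_eq_zero_of_dvd hdv] at k1
          omega
      have e4 : ∑ n ∈ S.filter (fun n => ∀ p ∈ T, n % p = c p), Phi (n / Y) * ArithmeticFunction.vonMangoldt n -
          pc Y Q B * ∏ p ∈ T, (1 / ((p : ℝ) - 1)) = ER Y Q d B' := by
        unfold ER
        rw [← e1, e2, e3]
      rw [e4]
      exact hBc2 d hd1 B' hcop)
  have hSF : ∑ n ∈ S.filter (fun n => ∀ p ∈ P, n % p ∉ Om p), Phi (n / Y) * ArithmeticFunction.vonMangoldt n =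
      SF Y Q B P Om := rfl
  rw [hSF] at hmain
  refine hmain.trans ?_
  unfold VF
  apply add_le_add le_rfl
  -- the error
  set P0 := a * ∏ p ∈ (Icc 1 ⌊(Real.log X) ^ C1⌋₊).filter Nat.Prime, p with hP0
  have hrel' := h1 Y a W P0 hXY hYX ha haX hW hWX (dvd_mul_right _ _) (by
    intro p hp hple
    rw [hP0]
    apply Dvd.dvd.mul_left
    exact dvd_prod_of_mem (fun q => q) (mem_filter.2 ⟨mem_Icc.2 ⟨hp.one_lt.le, hple⟩, hp⟩)) Bc hBc1
  have hmap : ∑ T ∈ P.powerset.filter (fun T : Finset ℕ => ∏ p ∈ T, p ≤ (2 ^ 2 ^ J) ^ (C0 * b)),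
        (κ : ℝ) ^ T.card * |ER Y Q (∏ p ∈ T, p) (Bc (∏ p ∈ T, p))| ≤
      ∑ q ∈ LSBV.QQ W P0 ⌊X ^ (1 / 100 : ℝ)⌋₊, (q.divisors.card : ℝ) ^ (A + κ + 2) * |ER Y Q q (Bc q)| := by
    have g1 : ∀ T ∈ P.powerset.filter (fun T : Finset ℕ => ∏ p ∈ T, p ≤ (2 ^ 2 ^ J) ^ (C0 * b)),
        (κ : ℝ) ^ T.card * |ER Y Q (∏ p ∈ T, p) (Bc (∏ p ∈ T, p))| ≤
        ((∏ p ∈ T, p).divisors.card : ℝ) ^ (A + κ + 2) * |ER Y Q (∏ p ∈ T, p) (Bc (∏ p ∈ T, p))| := by
      intro T hT
      rw [mem_filter, mem_powerset] at hT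
      apply mul_le_mul_of_nonneg_right _ (abs_nonneg _)
      rw [card_div_prod T fun p hp => hPP p (hT.1 hp)]
      push_cast
      rw [← pow_mul, mul_comm, pow_mul]
      apply pow_le_pow_left₀ (Nat.cast_nonneg _)
      have k1 : κ < 2 ^ κ := Nat.lt_two_pow_self
      have k2 : 2 ^ κ ≤ 2 ^ (A + κ + 2) := Nat.pow_le_pow_right (by norm_num) (by omega)
      exact_mod_cast k1.le.trans k2
    refine (sum_le_sum g1).trans ?_
    have g2 : Set.InjOn (fun T : Finset ℕ => ∏ p ∈ T, p)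
        (P.powerset.filter (fun T : Finset ℕ => ∏ p ∈ T, p ≤ (2 ^ 2 ^ J) ^ (C0 * b)) : Set (Finset ℕ)) := by
      intro T hT T' hT' h
      rw [mem_coe, mem_filter, mem_powerset] at hT hT'
      exact prod_mem_inj (fun p hp => hPP p (hT.1 hp)) (fun p hp => hPP p (hT'.1 hp)) h
    rw [← sum_image (f := fun q => (q.divisors.card : ℝ) ^ (A + κ + 2) * |ER Y Q q (Bc q)|) g2]
    apply sum_le_sum_of_subset_of_nonneg
    · intro q hq
      rw [mem_image] at hq
      obtain ⟨T, hT, rfl⟩ := hq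
      rw [mem_filter, mem_powerset] at hT
      rw [LSBV.mem_QQ]
      have hTp : ∀ p ∈ T, p.Prime := fun p hp => hPP p (hT.1 hp)
      refine ⟨⟨Nat.one_le_iff_ne_zero.2 (prod_ne_zero_iff.2 fun p hp => (hTp p hp).ne_zero), hT.2.trans hlev'⟩, ?_, ?_⟩
      · apply Finset.squarefree_prod_of_pairwise_isCoprime
        · intro p hp r hr hpr
          exact Nat.coprime_iff_isRelPrime.1 ((Nat.coprime_primes (hTp p hp) (hTp r hr)).2 hpr)
        · intro p hp
          exact (hTp p hp).prime.squarefree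
      · apply Nat.Coprime.prod_left
        intro p hp
        rw [Nat.Prime.coprime_iff_not_dvd (hTp p hp)]
        have hpP := hP p (hT.1 hp)
        intro hd
        rcases (Nat.Prime.dvd_mul hpP.1).1 hd with h | h
        · exact hpP.2.2.2 (h.mul_left _)
        · rw [hP0] at h
          rcases (Nat.Prime.dvd_mul hpP.1).1 h with h | h
          · exact hpP.2.2.2 (h.mul_right _)
          · obtain ⟨r, hr, hpr⟩ := (Prime.dvd_finsetProd_iff hpP.1.prime _).1 h
            rw [mem_filter, mem_Icc] at hr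
            have := (Nat.prime_dvd_prime_iff_eq hpP.1 hr.2).1 hpr
            subst this
            have k1 : ⌊(Real.log X) ^ C1⌋₊ ≤ ⌊(Real.log X) ^ (C1 + 1)⌋₊ :=
              Nat.floor_le_floor (pow_le_pow_right₀ hlog1 (by omega))
            omega
    · intro q _ _
      positivity
  have hJlog : (J : ℝ) + 2 ≤ (Real.log X) ^ 2 := by
    have k1 : J + 2 ≤ Nat.log 2 y + 3 := by
      rw [hJ]
      unfold Pool.Agent.W41.JJ
      have := Nat.log_le_self 2 (Nat.log 2 y)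
      omega
    have k2 : (Nat.log 2 y : ℝ) * Real.log 2 ≤ Real.log y := by
      have k3 : ((2 : ℝ) ^ Nat.log 2 y) ≤ y := by exact_mod_cast Nat.pow_log_le_self 2 (by omega)
      have k4 := Real.log_le_log (by positivity) k3
      rwa [Real.log_pow] at k4
    have k3 : Real.log y ≤ Real.log X := by
      apply Real.log_le_log (by exact_mod_cast (by omega : 0 < y))
      refine hyle.trans ?_
      calc X ^ (1 / (200 * C0 * b : ℝ)) ≤ X ^ (1 : ℝ) := by
            apply Real.rpow_le_rpow_of_exponent_le hX1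
            rw [div_le_one hCb]
            have h5 : (1 : ℝ) ≤ C0 := by exact_mod_cast hC0
            have h6 : (1 : ℝ) ≤ b := by exact_mod_cast hb1
            nlinarith
        _ = X := Real.rpow_one X
    have k4 := Real.log_two_gt_d9
    have k5 : ((J : ℝ) + 2) ≤ (Nat.log 2 y : ℝ) + 3 := by exact_mod_cast k1
    have k6 : (Nat.log 2 y : ℝ) ≤ 2 * Real.log X := by
      have : (0 : ℝ) ≤ (Nat.log 2 y : ℝ) := Nat.cast_nonneg _
      nlinarith
    have hC00 : (0 : ℝ) ≤ C0 := Nat.cast_nonneg _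
    nlinarith
  have hφ : (0 : ℝ) < (Q.totient : ℝ) := by exact_mod_cast Nat.totient_pos.2 hQ0
  calc ((J : ℝ) + 2) * ∑ T ∈ P.powerset.filter (fun T : Finset ℕ => ∏ p ∈ T, p ≤ (2 ^ 2 ^ J) ^ (C0 * b)),
        (κ : ℝ) ^ T.card * |ER Y Q (∏ p ∈ T, p) (Bc (∏ p ∈ T, p))| ≤
        (Real.log X) ^ 2 * (Y / ((Q.totient : ℝ) * (Real.log X) ^ (A + κ + 2))) :=
        mul_le_mul hJlog (hmap.trans hrel') (sum_nonneg fun _ _ => by positivity) (by positivity)
    _ ≤ Y / ((Q.totient : ℝ) * (Real.log X) ^ A) := by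
        rw [mul_div_assoc', div_le_div_iff₀ (by positivity) (by positivity)]
        have k1 : (Real.log X) ^ (A + 2) ≤ (Real.log X) ^ (A + κ + 2) := pow_le_pow_right₀ hlog1 (by omega)
        calc (Real.log X) ^ 2 * Y * ((Q.totient : ℝ) * (Real.log X) ^ A) =
            Y * (Q.totient : ℝ) * (Real.log X) ^ (A + 2) := by ring
          _ ≤ Y * (Q.totient : ℝ) * (Real.log X) ^ (A + κ + 2) := mul_le_mul_of_nonneg_left k1 (by positivity)
          _ = _ := by ring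

end Pool.Agent.H536.OB
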