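import Mathlib
import Pool.Agent.H536.OB.N1

open Finset Filter

/-! Auxiliary estimates for the sieve in a progression. -/

namespace Pool.Agent.H536.OB

open Pool.Agent.H262R3.Lk Pool.Agent.H378R2

/-- Brun-Titchmarsh -/
theorem pc_up : ∃ C : ℝ, 0 < C ∧ ∀ (Y : ℝ) (q B : ℕ), 11 ≤ Y → 1 ≤ q → ((q ^ 8 : ℕ) : ℝ) ≤ Y → B.Coprime q →
    pc Y q B ≤ C * Y / q.totient := by
  obtain ⟨C, hC, h⟩ := h_bt
  refine ⟨3 * C, by positivity, fun Y q B hY hq hqY hB => ?_⟩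
  have hN : 32 ≤ ⌊3 * Y⌋₊ := Nat.le_floor (by push_cast; linarith)
  have hqN : q ^ 8 ≤ ⌊3 * Y⌋₊ := Nat.le_floor (by linarith)
  have h1 := h q B _ hN hq hqN hB
  have hφ : (0 : ℝ) < q.totient := by exact_mod_cast Nat.totient_pos.2 hq
  have h2 : ((⌊3 * Y⌋₊ : ℕ) : ℝ) ≤ 3 * Y := Nat.floor_le (by linarith)
  calc pc Y q B ≤ C * ((⌊3 * Y⌋₊ : ℕ) : ℝ) / q.totient := (WUP.pc_le _ _ _).trans h1
    _ ≤ C * (3 * Y) / q.totient := by gcongr
    _ = _ := by ring

theorem factor_low {κ m p : ℕ} (hm : m ≤ κ) (hp : 2 * κ + 2 ≤ p) :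
    (1 - 1 / (p : ℝ)) ^ (2 * κ) ≤ 1 - (m : ℝ) * (1 / ((p : ℝ) - 1)) := by
  have hp1 : (2 * κ + 2 : ℝ) ≤ p := by exact_mod_cast hp
  have hκ : (0 : ℝ) ≤ κ := Nat.cast_nonneg κ
  have hp0 : (0 : ℝ) < p := by linarith
  have hmr : (m : ℝ) ≤ κ := by exact_mod_cast hm
  have h1 : (1 + (2 * κ : ℕ) * (1 / (p : ℝ))) ≤ (1 + 1 / (p : ℝ)) ^ (2 * κ) :=
    one_add_mul_le_pow (by have : 0 < 1 / (p : ℝ) := by positivity
                           linarith) _
  have h2 : (1 - 1 / (p : ℝ)) ^ (2 * κ) * (1 + 1 / (p : ℝ)) ^ (2 * κ) ≤ 1 := by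
    rw [← mul_pow]
    apply pow_le_one₀
    · have h3 : 1 / (p : ℝ) ≤ 1 := by rw [div_le_one hp0]; linarith
      have : 0 < 1 / (p : ℝ) := by positivity
      apply mul_nonneg <;> linarith
    · have : 0 < 1 / (p : ℝ) := by positivity
      nlinarith
  have h0 : 0 ≤ (1 - 1 / (p : ℝ)) ^ (2 * κ) := by
    apply pow_nonneg
    have h3 : 1 / (p : ℝ) ≤ 1 := by rw [div_le_one hp0]; linarith
    linarith
  have h3 : (1 - 1 / (p : ℝ)) ^ (2 * κ) * (1 + (2 * κ : ℕ) * (1 / (p : ℝ))) ≤ 1 :=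
    (mul_le_mul_of_nonneg_left h1 h0).trans h2
  have h4 : (1 - 1 / (p : ℝ)) ^ (2 * κ) ≤ p / (p + 2 * κ) := by
    rw [le_div_iff₀ (by linarith)]
    have h5 : (1 - 1 / (p : ℝ)) ^ (2 * κ) * (p + 2 * κ) =
        (1 - 1 / (p : ℝ)) ^ (2 * κ) * (1 + (2 * κ : ℕ) * (1 / (p : ℝ))) * p := by
      push_cast
      field_simp
    rw [h5]
    nlinarith
  refine h4.trans ?_
  have h6 : 1 - (κ : ℝ) * (1 / ((p : ℝ) - 1)) ≤ 1 - (m : ℝ) * (1 / ((p : ℝ) - 1)) := by
    have : 0 ≤ 1 / ((p : ℝ) - 1) := by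
      apply div_nonneg zero_le_one; linarith
    nlinarith
  refine le_trans ?_ h6
  have h7 : 1 - (κ : ℝ) * (1 / ((p : ℝ) - 1)) = (p - 1 - κ) / (p - 1) := by
    have : (p : ℝ) - 1 ≠ 0 := by linarith
    field_simp
  rw [h7, div_le_div_iff₀ (by linarith) (by linarith)]
  nlinarith

theorem VF_low (κ : ℕ) : ∃ c : ℝ, 0 < c ∧ ∀ (P : Finset ℕ) (Om : ℕ → Finset ℕ) (z : ℕ), 2 ≤ z →
    (∀ p ∈ P, p.Prime ∧ 2 * κ + 2 ≤ p ∧ p ≤ z) → (∀ p ∈ P, (Om p).card ≤ κ) →
    (c / Real.log z) ^ (2 * κ) ≤ VF P Om := by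
  obtain ⟨c1, c2, hc1, _, h⟩ := Pool.Agent.H318R2.Cr.cz_bounds
  refine ⟨c1, hc1, fun P Om z hz hP hOm => ?_⟩
  have hlog : 0 < Real.log z := Real.log_pos (by exact_mod_cast hz)
  have h1 := (h z hz).1
  have h2 : c1 / Real.log z ≤ Pool.Agent.H318R2.Cr.V z := by rwa [div_le_iff₀ hlog]
  have h3 : Pool.Agent.H318R2.Cr.V z ≤ ∏ p ∈ P, (1 - 1 / (p : ℝ)) := by
    unfold Pool.Agent.H318R2.Cr.V
    have hsub : P ⊆ Pool.Agent.H318R2.Cr.Pz z := fun p hp =>
      Pool.Agent.H318R2.Cr.mem_Pz.2 ⟨(hP p hp).1, (hP p hp).2.2⟩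
    rw [← prod_sdiff hsub]
    have h4 : ∏ p ∈ Pool.Agent.H318R2.Cr.Pz z \ P, (1 - 1 / (p : ℝ)) ≤ 1 := by
      apply prod_le_one
      · intro p hp
        exact (Pool.Agent.H318R2.Cr.one_sub_inv_pos (Pool.Agent.H318R2.Cr.mem_Pz.1 (Finset.mem_sdiff.1 hp).1).1).le
      · intro p hp
        have : 0 ≤ 1 / (p : ℝ) := by positivity
        linarith
    have h5 : 0 ≤ ∏ p ∈ P, (1 - 1 / (p : ℝ)) := prod_nonneg fun p hp =>
      (Pool.Agent.H318R2.Cr.one_sub_inv_pos (hP p hp).1).le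
    nlinarith
  calc (c1 / Real.log z) ^ (2 * κ) ≤ (∏ p ∈ P, (1 - 1 / (p : ℝ))) ^ (2 * κ) :=
        pow_le_pow_left₀ (by positivity) (h2.trans h3) _
    _ = ∏ p ∈ P, (1 - 1 / (p : ℝ)) ^ (2 * κ) := by rw [prod_pow]
    _ ≤ VF P Om := by
        unfold VF
        apply Finset.prod_le_prod
        · intro p hp
          exact pow_nonneg (Pool.Agent.H318R2.Cr.one_sub_inv_pos (hP p hp).1).le _
        · intro p hp
          exact factor_low (hOm p hp) (hP p hp).2.1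

theorem VF_nonneg {κ : ℕ} {P : Finset ℕ} {Om : ℕ → Finset ℕ} (hP : ∀ p ∈ P, 2 * κ + 2 ≤ p)
    (hOm : ∀ p ∈ P, (Om p).card ≤ κ) : 0 ≤ VF P Om := by
  unfold VF
  apply prod_nonneg
  intro p hp
  refine le_trans ?_ (factor_low (hOm p hp) (hP p hp))
  apply pow_nonneg
  have h1 : (2 * κ + 2 : ℝ) ≤ p := by exact_mod_cast hP p hp
  have hκ : (0 : ℝ) ≤ κ := Nat.cast_nonneg κ
  have h3 : 1 / (p : ℝ) ≤ 1 := by rw [div_le_one (by linarith)]; linarith
  linarith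

theorem mid_sum : ∃ C : ℝ, 0 ≤ C ∧ ∀ y z : ℕ, 2 ≤ y → y ≤ z →
    ∑ p ∈ (Ioc y z).filter Nat.Prime, 1 / ((p : ℝ) - 1) ≤ 2 * (Real.log (Real.log z / Real.log y) + C / Real.log y) := by
  obtain ⟨C, hC, h⟩ := Helper923.HMertens.mertens_ratio
  refine ⟨C, hC, fun y z hy hyz => ?_⟩
  have h1 := (abs_le.1 (h y z hy hyz)).2
  have h2 : ∑ p ∈ (Ioc y z).filter Nat.Prime, 1 / ((p : ℝ) - 1) ≤ ∑ p ∈ (Ioc y z).filter Nat.Prime, 2 * ((1 : ℝ) / p) := by
    apply sum_le_sum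
    intro p hp
    rw [mem_filter, mem_Ioc] at hp
    have h3 : (2 : ℝ) ≤ p := by exact_mod_cast hp.2.two_le
    rw [mul_one_div, div_le_div_iff₀ (by linarith) (by linarith)]
    linarith
  rw [← mul_sum] at h2
  linarith

theorem sq_sum {y : ℕ} (hy : 1 ≤ y) (S : Finset ℕ) (hS : ∀ n ∈ S, y < n) :
    ∑ n ∈ S, 1 / ((n : ℝ) * ((n : ℝ) - 1)) ≤ 1 / (y : ℝ) := by
  have hyr : (1 : ℝ) ≤ y := by exact_mod_cast hy
  have key : ∀ N : ℕ, ∑ n ∈ Ioc y (y + N), 1 / ((n : ℝ) * ((n : ℝ) - 1)) = 1 / (y : ℝ) - 1 / ((y + N : ℕ) : ℝ) := by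
    intro N
    induction N with
    | zero => simp
    | succ N ih =>
      have hI : Ioc y (y + (N + 1)) = insert (y + (N + 1)) (Ioc y (y + N)) := by
        ext n
        rw [mem_insert, mem_Ioc, mem_Ioc]
        omega
      rw [hI, sum_insert (by simp), ih]
      push_cast
      have h1 : (y : ℝ) + N ≠ 0 := by positivity
      have h2 : (y : ℝ) + N + 1 ≠ 0 := by positivity
      have h3 : (y : ℝ) + (N + 1) ≠ 0 := by positivity
      have h4 : (y : ℝ) + N + 1 - 1 ≠ 0 := by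
        have : (y : ℝ) + N + 1 - 1 = y + N := by ring
        rw [this]; exact h1
      have h5 : (y : ℝ) + (N + 1) - 1 ≠ 0 := by
        have : (y : ℝ) + (N + 1) - 1 = y + N := by ring
        rw [this]; exact h1
      field_simp
      ring
  obtain ⟨N, hN⟩ : ∃ N, ∀ n ∈ S, n ≤ y + N := ⟨S.sup id, fun n hn => by
    have : n ≤ S.sup id := Finset.le_sup (f := id) hn
    omega⟩
  calc ∑ n ∈ S, 1 / ((n : ℝ) * ((n : ℝ) - 1)) ≤ ∑ n ∈ Ioc y (y + N), 1 / ((n : ℝ) * ((n : ℝ) - 1)) := by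
        apply sum_le_sum_of_subset_of_nonneg
        · intro n hn
          exact mem_Ioc.2 ⟨hS n hn, hN n hn⟩
        · intro n hn _
          rw [mem_Ioc] at hn
          have h1 : (y : ℝ) + 1 ≤ n := by exact_mod_cast hn.1
          apply div_nonneg zero_le_one
          apply mul_nonneg <;> linarith
    _ = 1 / (y : ℝ) - 1 / ((y + N : ℕ) : ℝ) := key N
    _ ≤ 1 / (y : ℝ) := by
        have : 0 ≤ 1 / ((y + N : ℕ) : ℝ) := by positivity
        linarith

theorem nonprime_mass {Y : ℝ} (hY : 1 ≤ Y) :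
    ∑ n ∈ (Icc 1 ⌊3 * Y⌋₊).filter (fun n => ¬ n.Prime), Phi (n / Y) * ArithmeticFunction.vonMangoldt n ≤
      2 * √(3 * Y) * Real.log (3 * Y) := by
  refine le_trans ?_ (Chebyshev.psi_sub_theta_le (x := 3 * Y) (by linarith))
  rw [Chebyshev.psi_sub_theta_eq_sum_not_prime]
  have h1 : (Icc 1 ⌊3 * Y⌋₊) = Ioc 0 ⌊3 * Y⌋₊ := by
    ext n
    rw [mem_Icc, mem_Ioc]
    omega
  rw [h1]
  apply sum_le_sum
  intro n _
  calc Phi (n / Y) * ArithmeticFunction.vonMangoldt n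
      ≤ 1 * ArithmeticFunction.vonMangoldt n :=
        mul_le_mul_of_nonneg_right (WUP.Phi_le_one _) ArithmeticFunction.vonMangoldt_nonneg
    _ = ArithmeticFunction.vonMangoldt n := one_mul _

theorem small_mass (Y : ℝ) (N : ℕ) :
    ∑ n ∈ Icc 1 N, Phi (n / Y) * ArithmeticFunction.vonMangoldt n ≤ N * Real.log N := by
  calc ∑ n ∈ Icc 1 N, Phi (n / Y) * ArithmeticFunction.vonMangoldt n ≤ ∑ n ∈ Icc 1 N, Real.log N := by
        apply sum_le_sum
        intro n hn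
        rw [mem_Icc] at hn
        calc Phi (n / Y) * ArithmeticFunction.vonMangoldt n
            ≤ 1 * ArithmeticFunction.vonMangoldt n :=
              mul_le_mul_of_nonneg_right (WUP.Phi_le_one _) ArithmeticFunction.vonMangoldt_nonneg
          _ = ArithmeticFunction.vonMangoldt n := one_mul _
          _ ≤ Real.log n := ArithmeticFunction.vonMangoldt_le_log
          _ ≤ Real.log N := Real.log_le_log (by exact_mod_cast hn.1) (by exact_mod_cast hn.2)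
    _ = N * Real.log N := by rw [sum_const, Nat.card_Icc, nsmul_eq_mul, Nat.add_sub_cancel]

/-- the number of prime factors -/
theorem cardF_bound {N Z R1 R0 : ℕ} {U : ℝ} (hN : N ≠ 0) (hU : 1 < U)
    (hpr : ∀ p : ℕ, p.Prime → p ∣ N → (p ≤ Z ∧ ¬ p ^ 2 ∣ N) ∨ U < p)
    (hmid : ((Icc 1 Z).filter (fun p => p.Prime ∧ p ∣ N)).card ≤ R1) (hNU : (N : ℝ) ≤ U ^ R0) :
    ArithmeticFunction.cardFactors N ≤ R1 + R0 := by
  classical
  rw [ArithmeticFunction.cardFactors_apply]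
  set L := N.primeFactorsList with hL
  have hmem : ∀ p ∈ L, p.Prime ∧ p ∣ N := fun p hp =>
    ⟨Nat.prime_of_mem_primeFactorsList hp, Nat.dvd_of_mem_primeFactorsList hp⟩
  have h1 : L.length = (L.filter (fun p => decide (p ≤ Z ∧ ¬ p ^ 2 ∣ N))).length +
      (L.filter (fun p => !decide (p ≤ Z ∧ ¬ p ^ 2 ∣ N))).length := by
    exact List.length_eq_length_filter_add _
  rw [h1]
  apply Nat.add_le_add
  · have hnd : (L.filter (fun p => decide (p ≤ Z ∧ ¬ p ^ 2 ∣ N))).Nodup := by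
      rw [List.nodup_iff_count_le_one]
      intro p
      by_contra hcon
      push Not at hcon
      have h2 : 0 < (L.filter (fun p => decide (p ≤ Z ∧ ¬ p ^ 2 ∣ N))).count p := by omega
      have h3 := List.count_pos_iff.1 h2
      rw [List.mem_filter] at h3
      have h4 := of_decide_eq_true h3.2
      have h6 : (L.filter (fun p => decide (p ≤ Z ∧ ¬ p ^ 2 ∣ N))).count p ≤ L.count p :=
        List.filter_sublist.count_le p
      have h5 : 2 ≤ L.count p := by omega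
      rw [hL, Nat.primeFactorsList_count_eq] at h5
      exact h4.2 ((Nat.pow_dvd_pow _ h5).trans (Nat.ordProj_dvd N p))
    refine le_trans ?_ hmid
    rw [← List.toFinset_card_of_nodup hnd]
    apply card_le_card
    intro p hp
    rw [List.mem_toFinset, List.mem_filter] at hp
    have h4 := of_decide_eq_true hp.2
    have h5 := hmem p hp.1
    rw [mem_filter, mem_Icc]
    exact ⟨⟨h5.1.one_lt.le, h4.1⟩, h5⟩
  · set L2 := L.filter (fun p => !decide (p ≤ Z ∧ ¬ p ^ 2 ∣ N)) with hL2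
    have h2 : ∀ p ∈ L2, U < p := by
      intro p hp
      rw [hL2, List.mem_filter] at hp
      have h5 := hmem p hp.1
      rcases hpr p h5.1 h5.2 with h | h
      · exfalso
        have h6 := hp.2
        simp only [Bool.not_eq_true', decide_eq_false_iff_not] at h6
        exact h6 h
      · exact h
    have h3 : L2.prod ∣ N := by
      have h4 : L2.prod ∣ L.prod := List.Sublist.prod_dvd_prod List.filter_sublist
      rwa [hL, Nat.prod_primeFactorsList hN] at h4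
    have h4 : U ^ L2.length ≤ (L2.prod : ℝ) := by
      clear_value L2
      clear h3 hL2 h1
      induction L2 with
      | nil => simp
      | cons p L2 ih =>
        rw [List.length_cons, List.prod_cons, pow_succ, Nat.cast_mul]
        have h5 := ih fun r hr => h2 r (List.mem_cons_of_mem _ hr)
        have h6 := h2 p List.mem_cons_self
        have h7 : 0 ≤ U ^ L2.length := by positivity
        have h8 : (0 : ℝ) ≤ (L2.prod : ℝ) := Nat.cast_nonneg _
        rw [mul_comm]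
        exact mul_le_mul h6.le h5 h7 (by linarith)
    have h5 : (L2.prod : ℝ) ≤ N := by exact_mod_cast Nat.le_of_dvd (Nat.pos_of_ne_zero hN) h3
    have h6 : U ^ L2.length ≤ U ^ R0 := h4.trans (h5.trans hNU)
    exact (pow_le_pow_iff_right₀ hU).1 h6

end Pool.Agent.H536.OB
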