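import Mathlib
import Pool.Agent.H536.OB.N2

open Finset Filter

/-! The classes of the sieve. -/

namespace Pool.Agent.H536.OB

open Pool.Agent.H262R3.Lk Pool.Agent.H378R2

theorem cls {a b W ν m : ℕ} (hWm : W.Coprime m) (ham : a.Coprime m) (hm : 1 ≤ m) :
    ∃ N1 : ℕ, N1 ≡ ν [MOD W] ∧ m ∣ a * N1 + b ∧
      ∀ n, n ≡ ν [MOD W] → m ∣ a * n + b → n ≡ N1 [MOD W * m] := by
  have : NeZero m := ⟨by omega⟩
  obtain ⟨x, hx⟩ : ∃ x : ℕ, m ∣ a * x + b := by
    have hu : IsUnit (a : ZMod m) := (ZMod.isUnit_iff_coprime a m).2 ham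
    obtain ⟨u, hu⟩ := hu
    refine ⟨((-(b : ZMod m)) * ((u⁻¹ : (ZMod m)ˣ) : ZMod m)).val, ?_⟩
    rw [← ZMod.natCast_eq_zero_iff]
    push_cast
    rw [ZMod.natCast_zmod_val, ← hu]
    have : (u : ZMod m) * (-(b : ZMod m) * ((u⁻¹ : (ZMod m)ˣ) : ZMod m)) = -(b : ZMod m) * ((u : ZMod m) * ((u⁻¹ : (ZMod m)ˣ) : ZMod m)) := by ring
    rw [this, Units.mul_inv, mul_one, neg_add_cancel]
  obtain ⟨N1, h1, h2⟩ := Nat.chineseRemainder hWm ν x
  have h3 : m ∣ a * N1 + b := by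
    have h4 : a * N1 + b ≡ a * x + b [MOD m] := Nat.ModEq.add_right _ (Nat.ModEq.mul_left _ h2)
    exact (Nat.modEq_zero_iff_dvd).1 (h4.trans ((Nat.modEq_zero_iff_dvd).2 hx))
  refine ⟨N1, h1, h3, fun n hn hd => ?_⟩
  rw [← Nat.modEq_and_modEq_iff_modEq_mul hWm]
  refine ⟨hn.trans h1.symm, ?_⟩
  have h4 : a * n + b ≡ a * N1 + b [MOD m] :=
    ((Nat.modEq_zero_iff_dvd).2 hd).trans ((Nat.modEq_zero_iff_dvd).2 h3).symm
  have h5 : a * n ≡ a * N1 [MOD m] := Nat.ModEq.add_right_cancel' _ h4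
  exact Nat.ModEq.cancel_left_of_coprime (by rw [Nat.gcd_comm]; exact ham) h5

/-- the modulus `m` divides the form `i` at the point of the form `j` -/
def GG {k : ℕ} (a b : Fin k → ℕ) (j i : Fin k) (m P : ℕ) : Prop := ∃ n : ℕ, a j * n + b j = P ∧ m ∣ a i * n + b i

theorem dich {k : ℕ} {a b : Fin k → ℕ} (hpos : ∀ i, 0 < a i) (hcop : ∀ i, (a i).Coprime (b i)) {W ν : ℕ} (hW : 0 < W)
    (j i : Fin k) (hWj : (a j * ν + b j).Coprime W) {l v y1 : ℕ} (hl : l.Prime) (hv : 1 ≤ v) (hlW : ¬ l ∣ W)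
    (hly : l ≤ y1 ∨ l ∣ a j) :
    (∀ P, P ≡ a j * ν + b j [MOD a j * W] → P.Prime → y1 < P → ¬ GG a b j i (l ^ v) P) ∨
    ∃ B', B'.Coprime (a j * (W * l ^ v)) ∧
      ∀ P, P ≡ a j * ν + b j [MOD a j * W] → GG a b j i (l ^ v) P → P ≡ B' [MOD a j * (W * l ^ v)] := by
  have hlv : l ∣ l ^ v := dvd_pow_self l (by omega)
  by_cases hli : l ∣ a i
  · left
    rintro P _ _ _ ⟨n, _, hn⟩
    have h1 : l ∣ b i := (Nat.dvd_add_right (hli.mul_right n)).1 (hlv.trans hn)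
    have h2 := Nat.dvd_gcd hli h1
    rw [hcop i] at h2
    exact hl.one_lt.ne' (Nat.dvd_one.1 h2)
  · have hWl : W.Coprime (l ^ v) := Nat.Coprime.pow_right _ ((Nat.Prime.coprime_iff_not_dvd hl).2 hlW).symm
    have hal : (a i).Coprime (l ^ v) := Nat.Coprime.pow_right _ ((Nat.Prime.coprime_iff_not_dvd hl).2 hli).symm
    obtain ⟨N1, h1, h2, h3⟩ := cls (b := b i) (ν := ν) hWl hal (Nat.one_le_pow _ _ hl.pos)
    have hG : ∀ P, P ≡ a j * ν + b j [MOD a j * W] → GG a b j i (l ^ v) P →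
        P ≡ a j * N1 + b j [MOD a j * (W * l ^ v)] := by
      rintro P hP ⟨n, hn, hd⟩
      rw [← hn] at hP ⊢
      have h4 : a j * n ≡ a j * ν [MOD a j * W] := Nat.ModEq.add_right_cancel' _ hP
      have h5 : n ≡ ν [MOD W] := Nat.ModEq.mul_left_cancel' (hpos j).ne' h4
      exact Nat.ModEq.add_right _ (Nat.ModEq.mul_left' _ (h3 n h5 hd))
    by_cases hc : (a j * N1 + b j).Coprime (a j * (W * l ^ v))
    · right
      exact ⟨_, hc, hG⟩
    · left
      intro P hP hPp hPy hGG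
      have h4 := hG P hP hGG
      apply hc
      have c1 : (a j * N1 + b j).Coprime (a j) := by
        have h5 : a j * N1 + b j ≡ b j [MOD a j] := by
          have := Nat.ModEq.add_right (b j) ((Nat.modEq_zero_iff_dvd).2 (dvd_mul_right (a j) N1))
          rwa [zero_add] at this
        rw [Nat.coprime_iff_gcd_eq_one, h5.gcd_eq]
        exact (hcop j).symm
      have c2 : (a j * N1 + b j).Coprime W := by
        have h5 : a j * N1 + b j ≡ a j * ν + b j [MOD W] := Nat.ModEq.add_right _ (Nat.ModEq.mul_left _ h1)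
        rw [Nat.coprime_iff_gcd_eq_one, h5.gcd_eq]
        exact hWj
      have c3 : (a j * N1 + b j).Coprime (l ^ v) := by
        apply Nat.Coprime.pow_right
        apply Nat.Coprime.symm
        rw [Nat.Prime.coprime_iff_not_dvd hl]
        intro hd
        rcases hly with hly | hly
        · have h5 : P ≡ a j * N1 + b j [MOD l] := h4.of_dvd ((hlv.mul_left W).mul_left (a j))
          have h6 : l ∣ P := (Nat.modEq_zero_iff_dvd).1 (h5.trans ((Nat.modEq_zero_iff_dvd).2 hd))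
          have h7 := (Nat.prime_dvd_prime_iff_eq hl hPp).1 h6
          omega
        · have h5 : l ∣ b j := (Nat.dvd_add_right (hly.mul_right N1)).1 hd
          have h6 := Nat.dvd_gcd hly h5
          rw [hcop j] at h6
          exact hl.one_lt.ne' (Nat.dvd_one.1 h6)
      exact Nat.Coprime.mul_right c1 (Nat.Coprime.mul_right c2 c3)

open Classical in
/-- the classes removed by the sieve -/
noncomputable def OmF {k : ℕ} (a b : Fin k → ℕ) (j : Fin k) (p : ℕ) : Finset ℕ :=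
  (range p).filter (fun c => c ≠ 0 ∧ ∃ i, i ≠ j ∧ ∃ n, (a j * n + b j) % p = c ∧ p ∣ a i * n + b i)

theorem OmF_card {k : ℕ} {a b : Fin k → ℕ} (hcop : ∀ i, (a i).Coprime (b i)) (j : Fin k) {p : ℕ} (hp : p.Prime) :
    (OmF a b j p).card ≤ k := by
  classical
  have : Inhabited (Fin k) := ⟨j⟩
  have h : ∀ c ∈ OmF a b j p, ∃ i : Fin k, ∃ n, (a j * n + b j) % p = c ∧ p ∣ a i * n + b i := by
    intro c hc
    unfold OmF at hc
    rw [mem_filter] at hc
    obtain ⟨_, _, i, _, n, h⟩ := hc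
    exact ⟨i, n, h⟩
  choose! f g hfg using h
  have h1 : (OmF a b j p).card ≤ (univ : Finset (Fin k)).card := by
    apply card_le_card_of_injOn f (fun _ _ => mem_coe.2 (mem_univ _))
    intro c hc c' hc' hff
    obtain ⟨h1, h2⟩ := hfg c hc
    obtain ⟨h3, h4⟩ := hfg c' hc'
    rw [← hff] at h4
    have hpi : ¬ p ∣ a (f c) := by
      intro hd
      have h5 := (Nat.dvd_add_right (hd.mul_right (g c))).1 h2
      have h6 := Nat.dvd_gcd hd h5
      rw [hcop (f c)] at h6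
      exact hp.one_lt.ne' (Nat.dvd_one.1 h6)
    have h5 : a (f c) * g c + b (f c) ≡ a (f c) * g c' + b (f c) [MOD p] :=
      ((Nat.modEq_zero_iff_dvd).2 h2).trans ((Nat.modEq_zero_iff_dvd).2 h4).symm
    have h6 := Nat.ModEq.add_right_cancel' _ h5
    have h7 : g c ≡ g c' [MOD p] := Nat.ModEq.cancel_left_of_coprime
      ((Nat.Prime.coprime_iff_not_dvd hp).2 hpi) h6
    rw [← h1, ← h3]
    exact Nat.ModEq.add_right _ (Nat.ModEq.mul_left _ h7)
  simpa using h1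

theorem OmF_mem {k : ℕ} {a b : Fin k → ℕ} {j : Fin k} {p c : ℕ} (h : c ∈ OmF a b j p) : 0 < c ∧ c < p := by
  classical
  unfold OmF at h
  rw [mem_filter, mem_range] at h
  exact ⟨Nat.pos_of_ne_zero h.2.1, h.1⟩

theorem OmF_sift {k : ℕ} {a b : Fin k → ℕ} {j i : Fin k} (hij : i ≠ j) {p n : ℕ} (hp : p.Prime)
    (hP : (a j * n + b j).Prime) (hlt : p < a j * n + b j) (h : (a j * n + b j) % p ∉ OmF a b j p) :
    ¬ p ∣ a i * n + b i := by
  classical
  intro hd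
  apply h
  unfold OmF
  rw [mem_filter, mem_range]
  refine ⟨Nat.mod_lt _ hp.pos, ?_, i, hij, n, rfl, hd⟩
  intro h0
  have h1 := Nat.dvd_of_mod_eq_zero h0
  have h2 := (Nat.prime_dvd_prime_iff_eq hp hP).1 h1
  omega

open Classical in
/-- the sifted sum over a subset -/
noncomputable def US (Y : ℝ) (Q B : ℕ) (P : Finset ℕ) (Om : ℕ → Finset ℕ) (G : ℕ → Prop) : ℝ :=
  ∑ n ∈ (((Icc 1 ⌊3 * Y⌋₊).filter (fun n => n ≡ B [MOD Q])).filter (fun n => ∀ p ∈ P, n % p ∉ Om p)).filter G,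
    Phi (n / Y) * ArithmeticFunction.vonMangoldt n

theorem wgt_nonneg (Y : ℝ) (n : ℕ) : 0 ≤ Phi (n / Y) * ArithmeticFunction.vonMangoldt n :=
  mul_nonneg (WUP.Phi_nonneg _) ArithmeticFunction.vonMangoldt_nonneg

theorem US_le_SF {Y : ℝ} {Q B Q' B' : ℕ} {P : Finset ℕ} {Om : ℕ → Finset ℕ} {G : ℕ → Prop}
    (h : ∀ n, n ≡ B [MOD Q] → G n → n ≡ B' [MOD Q']) : US Y Q B P Om G ≤ SF Y Q' B' P Om := by
  classical
  unfold US SF
  apply sum_le_sum_of_subset_of_nonneg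
  · intro n hn
    rw [mem_filter, mem_filter, mem_filter] at hn
    rw [mem_filter, mem_filter]
    exact ⟨⟨hn.1.1.1, h n hn.1.1.2 hn.2⟩, hn.1.2⟩
  · intro n _ _
    exact wgt_nonneg Y n

theorem US_le_pc {Y : ℝ} {Q B Q' B' : ℕ} {P : Finset ℕ} {Om : ℕ → Finset ℕ} {G : ℕ → Prop}
    (h : ∀ n, n ≡ B [MOD Q] → G n → n ≡ B' [MOD Q']) : US Y Q B P Om G ≤ pc Y Q' B' := by
  classical
  unfold US pc
  apply sum_le_sum_of_subset_of_nonneg
  · intro n hn
    rw [mem_filter, mem_filter, mem_filter] at hn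
    rw [mem_filter]
    exact ⟨hn.1.1.1, h n hn.1.1.2 hn.2⟩
  · intro n _ _
    exact wgt_nonneg Y n

theorem US_zero {Y : ℝ} {Q B : ℕ} {P : Finset ℕ} {Om : ℕ → Finset ℕ} {G : ℕ → Prop}
    (h : ∀ n, n ≡ B [MOD Q] → ¬ G n) : US Y Q B P Om G = 0 := by
  classical
  unfold US
  apply sum_eq_zero
  intro n hn
  rw [mem_filter, mem_filter, mem_filter] at hn
  exact absurd hn.2 (h n hn.1.1.2)

theorem US_nonneg (Y : ℝ) (Q B : ℕ) (P : Finset ℕ) (Om : ℕ → Finset ℕ) (G : ℕ → Prop) : 0 ≤ US Y Q B P Om G :=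
  sum_nonneg fun n _ => wgt_nonneg Y n

theorem pc_nonneg' (Y : ℝ) (q b : ℕ) : 0 ≤ pc Y q b := WUP.pc_nonneg Y q b

end Pool.Agent.H536.OB
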