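import Mathlib
import Pool.Agent.H536.OB.E1
import Pool.Agent.H536.OB.N3

open Finset Filter Topology

/-! The distribution of `1 * χ` in arithmetic progressions. -/

namespace Pool.Agent.H536.OB

/-- `∑_{e ∣ n} χ(e)` -/
noncomputable def rr {q : ℕ} (χ : DirichletCharacter ℂ q) (n : ℕ) : ℝ := ∑ e ∈ n.divisors, cr χ e

theorem rr_split {q : ℕ} {χ : DirichletCharacter ℂ q} (h : χ ^ 2 = 1) {n E : ℕ} (hn : 0 < n) (h1 : cr χ n = 1) :
    rr χ n = ∑ e ∈ n.divisors.filter (fun e => e ≤ E), cr χ e + ∑ e ∈ n.divisors.filter (fun e => e * E < n), cr χ e := by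
  unfold rr
  rw [← sum_filter_add_sum_filter_not n.divisors (fun e => e ≤ E)]
  congr 1
  have key : ∀ e e' : ℕ, e * e' = n → cr χ e = cr χ e' := by
    intro e e' hee
    have h2 : cr χ e * cr χ e' = 1 := by rw [← cr_mul h, hee, h1]
    rcases cr_vals h e with h3 | h3 | h3 <;> rcases cr_vals h e' with h4 | h4 | h4 <;> rw [h3, h4] at h2 ⊢ <;> norm_num at h2
  refine sum_nbij' (fun e => n / e) (fun e => n / e) ?_ ?_ ?_ ?_ ?_
  · intro e he
    rw [mem_filter, Nat.mem_divisors] at he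
    obtain ⟨⟨⟨e', he'⟩, _⟩, hE⟩ := he
    have he0 : 0 < e := Nat.pos_of_ne_zero (by rintro rfl; omega)
    have he'0 : 0 < e' := Nat.pos_of_ne_zero (by rintro rfl; omega)
    have hne : n / e = e' := by rw [he']; exact Nat.mul_div_cancel_left e' he0
    rw [mem_filter, Nat.mem_divisors, hne]
    refine ⟨⟨⟨e, by rw [he', mul_comm]⟩, hn.ne'⟩, ?_⟩
    push Not at hE
    calc e' * E < e' * e := Nat.mul_lt_mul_of_pos_left hE he'0
      _ = n := by rw [he', mul_comm]
  · intro e he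
    rw [mem_filter, Nat.mem_divisors] at he
    obtain ⟨⟨⟨e', he'⟩, _⟩, hE⟩ := he
    have he0 : 0 < e := Nat.pos_of_ne_zero (by rintro rfl; omega)
    have hne : n / e = e' := by rw [he']; exact Nat.mul_div_cancel_left e' he0
    rw [mem_filter, Nat.mem_divisors, hne]
    refine ⟨⟨⟨e, by rw [he', mul_comm]⟩, hn.ne'⟩, ?_⟩
    push Not
    have : e * E < e * e' := by rw [← he']; exact hE
    exact lt_of_mul_lt_mul_left this (Nat.zero_le _)
  · intro e he
    rw [mem_filter, Nat.mem_divisors] at he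
    exact Nat.div_div_self he.1.1 hn.ne'
  · intro e he
    rw [mem_filter, Nat.mem_divisors] at he
    exact Nat.div_div_self he.1.1 hn.ne'
  · intro e he
    rw [mem_filter, Nat.mem_divisors] at he
    exact key e (n / e) (Nat.mul_div_cancel' he.1.1)

theorem count_AP (x m τ : ℕ) (hm : 0 < m) :
    |((((range x).filter (fun t => t ≡ τ [MOD m])).card : ℕ) : ℝ) - (x : ℝ) / m| ≤ 1 := by
  have h1 : ((range x).filter (fun t => t ≡ τ [MOD m])).card = x.count (· ≡ τ [MOD m]) := by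
    rw [Nat.count_eq_card_filter_range]
  rw [h1, Nat.count_modEq_card x hm]
  have hmr : (0 : ℝ) < m := by exact_mod_cast hm
  have h2 : ((x / m : ℕ) : ℝ) ≤ (x : ℝ) / m := Nat.cast_div_le
  have h3 : (x : ℝ) / m < ((x / m : ℕ) : ℝ) + 1 := by
    rw [div_lt_iff₀ hmr]
    have := Nat.lt_div_mul_add (a := x) hm
    have h4 : (x : ℝ) < ((x / m * m + m : ℕ) : ℝ) := by exact_mod_cast this
    push_cast at h4
    linarith
  split_ifs
  · push_cast
    rw [abs_le]
    constructor <;> linarith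
  · push_cast
    rw [abs_le]
    constructor <;> linarith

/-- the weight of the gcd -/
def ww (D c e : ℕ) : ℕ := if e.gcd D ∣ c then e.gcd D else 0

/-- the count -/
def NN (q B D ν x e : ℕ) : ℕ := ((range x).filter (fun t => t ≡ ν [MOD D] ∧ e ∣ q * t + B)).card

theorem ww_le {D c e : ℕ} (hD : 0 < D) : ww D c e ≤ D := by
  unfold ww
  split_ifs
  · exact Nat.le_of_dvd hD (Nat.gcd_dvd_right _ _)
  · exact Nat.zero_le _

theorem NN_est {q B D ν x e : ℕ} (he : 0 < e) (hD : 0 < D) (hcop : e.Coprime q) :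
    |((NN q B D ν x e : ℕ) : ℝ) - (x : ℝ) / D * ((ww D (q * ν + B) e : ℝ) / e)| ≤ 1 := by
  have hDr : (0 : ℝ) < D := by exact_mod_cast hD
  have her : (0 : ℝ) < e := by exact_mod_cast he
  -- the class modulo e
  obtain ⟨u, _, hu, huq⟩ := cls (a := q) (b := B) (W := 1) (ν := 0) (m := e) (Nat.coprime_one_left e) hcop.symm he
  set g := e.gcd D with hg
  have hge : g ∣ e := Nat.gcd_dvd_left _ _
  have hgD : g ∣ D := Nat.gcd_dvd_right _ _
  have hg0 : 0 < g := Nat.gcd_pos_of_pos_left _ he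
  have hqg : Nat.Coprime g q := Nat.Coprime.coprime_dvd_left hge hcop
  unfold NN ww
  rw [← hg]
  by_cases hd : g ∣ q * ν + B
  · rw [if_pos hd]
    have h1 : q * u + B ≡ q * ν + B [MOD g] :=
      ((Nat.modEq_zero_iff_dvd).2 (hge.trans hu)).trans ((Nat.modEq_zero_iff_dvd).2 hd).symm
    have h2 : u ≡ ν [MOD g] := by
      have h3 : q * u ≡ q * ν [MOD g] := Nat.ModEq.add_right_cancel' _ h1
      exact Nat.ModEq.cancel_left_of_coprime hqg h3
    have h3 : ν ≡ u [MOD Nat.gcd D e] := by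
      rw [Nat.gcd_comm, ← hg]
      exact h2.symm
    obtain ⟨τ, hτ1, hτ2⟩ := Nat.chineseRemainder' h3
    have hset : (range x).filter (fun t => t ≡ ν [MOD D] ∧ e ∣ q * t + B) = (range x).filter (fun t => t ≡ τ [MOD Nat.lcm D e]) := by
      apply filter_congr
      intro t _
      constructor
      · rintro ⟨h4, h5⟩
        have h6 : t ≡ u [MOD e] := by
          have := huq t (Nat.modEq_one) h5
          rwa [one_mul] at this
        have h7 : t ≡ τ [MOD D] := h4.trans hτ1.symm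
        have h8 : t ≡ τ [MOD e] := h6.trans hτ2.symm
        rw [Nat.modEq_iff_dvd] at h7 h8 ⊢
        exact_mod_cast Int.coe_lcm_dvd h7 h8
      · intro h4
        have h5 : t ≡ τ [MOD D] := h4.of_dvd (Nat.dvd_lcm_left _ _)
        have h6 : t ≡ τ [MOD e] := h4.of_dvd (Nat.dvd_lcm_right _ _)
        refine ⟨h5.trans hτ1, ?_⟩
        have h7 : q * t + B ≡ q * u + B [MOD e] := Nat.ModEq.add_right _ (Nat.ModEq.mul_left _ (h6.trans hτ2))
        exact (Nat.modEq_zero_iff_dvd).1 (h7.trans ((Nat.modEq_zero_iff_dvd).2 hu))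
    rw [hset]
    have h4 := count_AP x (Nat.lcm D e) τ (Nat.lcm_pos hD he)
    have h5 : (x : ℝ) / D * ((g : ℝ) / e) = (x : ℝ) / (Nat.lcm D e : ℕ) := by
      have h6 : g * Nat.lcm D e = D * e := by
        rw [hg, Nat.gcd_comm]
        exact Nat.gcd_mul_lcm D e
      have h7 : (g : ℝ) * (Nat.lcm D e : ℕ) = D * e := by exact_mod_cast h6
      have h8 : (0 : ℝ) < (Nat.lcm D e : ℕ) := by exact_mod_cast Nat.lcm_pos hD he
      rw [div_mul_div_comm, div_eq_div_iff (by positivity) h8.ne', mul_assoc, h7]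
    rw [h5]
    exact h4
  · rw [if_neg hd]
    have hset : (range x).filter (fun t => t ≡ ν [MOD D] ∧ e ∣ q * t + B) = ∅ := by
      apply filter_false_of_mem
      rintro t _ ⟨h4, h5⟩
      apply hd
      have h7 : q * t + B ≡ q * ν + B [MOD g] := Nat.ModEq.add_right _ (Nat.ModEq.mul_left _ (h4.of_dvd hgD))
      exact (Nat.modEq_zero_iff_dvd).1 (h7.symm.trans ((Nat.modEq_zero_iff_dvd).2 (hge.trans h5)))
    rw [hset]
    simp

theorem ww_prod {c e : ℕ} (he : 0 < e) (T : Finset ℕ) (hT : ∀ p ∈ T, p.Prime) :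
    ((ww (∏ p ∈ T, p) c e : ℕ) : ℝ) = ∏ p ∈ T, (if p ∣ e then (if p ∣ c then (p : ℝ) else 0) else 1) := by
  classical
  induction T using Finset.induction_on with
  | empty => simp [ww]
  | insert p T hp ih =>
    have hpp := hT p (mem_insert_self _ _)
    have hco : p.Coprime (∏ r ∈ T, r) := by
      rw [Nat.Prime.coprime_iff_not_dvd hpp]
      intro h
      obtain ⟨r, hr, hpr⟩ := (Prime.dvd_finsetProd_iff hpp.prime _).1 h
      have := (Nat.prime_dvd_prime_iff_eq hpp (hT r (mem_insert_of_mem hr))).1 hpr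
      subst this
      exact hp hr
    rw [prod_insert hp, prod_insert hp, ← ih fun r hr => hT r (mem_insert_of_mem hr)]
    set D := ∏ r ∈ T, r with hD
    have hgcd : e.gcd (p * D) = e.gcd p * e.gcd D := Nat.Coprime.gcd_mul e hco
    have hco2 : (e.gcd p).Coprime (e.gcd D) :=
      Nat.Coprime.coprime_dvd_left (Nat.gcd_dvd_right _ _) (Nat.Coprime.coprime_dvd_right (Nat.gcd_dvd_right _ _) hco)
    unfold ww
    rw [hgcd]
    by_cases hpe : p ∣ e
    · have hgp : e.gcd p = p := Nat.gcd_eq_right hpe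
      rw [if_pos hpe, hgp]
      rw [hgp] at hco2
      by_cases hpc : p ∣ c
      · rw [if_pos hpc]
        by_cases hdc : e.gcd D ∣ c
        · rw [if_pos hdc, if_pos (Nat.Coprime.mul_dvd_of_dvd_of_dvd hco2 hpc hdc)]
          push_cast
          ring
        · rw [if_neg hdc, if_neg (fun h => hdc ((dvd_mul_left _ _).trans h))]
          simp
      · rw [if_neg hpc, if_neg (fun h => hpc ((dvd_mul_right _ _).trans h))]
        simp
    · have hgp : e.gcd p = 1 := by
        rw [Nat.gcd_comm]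
        exact (Nat.Prime.coprime_iff_not_dvd hpp).2 hpe
      rw [if_neg hpe, hgp, one_mul, one_mul]

/-- the coefficient -/
noncomputable def lamp (c p : ℕ) : ℝ := (if p ∣ c then (p : ℝ) else 0) - 1

theorem ww_expand {c e : ℕ} (he : 0 < e) (T : Finset ℕ) (hT : ∀ p ∈ T, p.Prime) :
    ((ww (∏ p ∈ T, p) c e : ℕ) : ℝ) = ∑ U ∈ T.powerset, (if (∏ p ∈ U, p) ∣ e then ∏ p ∈ U, lamp c p else 0) := by
  classical
  rw [ww_prod he T hT]
  have h1 : ∀ p ∈ T, (if p ∣ e then (if p ∣ c then (p : ℝ) else 0) else 1) = 1 + (if p ∣ e then lamp c p else 0) := by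
    intro p _
    unfold lamp
    split_ifs <;> ring
  rw [prod_congr rfl h1, Finset.prod_one_add]
  apply sum_congr rfl
  intro U hU
  rw [mem_powerset] at hU
  by_cases hd : (∏ p ∈ U, p) ∣ e
  · rw [if_pos hd]
    apply prod_congr rfl
    intro p hp
    rw [if_pos ((dvd_prod_of_mem _ hp).trans hd)]
  · rw [if_neg hd]
    have h2 : ∃ p ∈ U, ¬ p ∣ e := by
      by_contra hcon
      push Not at hcon
      apply hd
      apply Finset.prod_primes_dvd
      · intro p hp
        exact (hT p (hU hp)).prime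
      · exact hcon
    obtain ⟨p, hp, hpe⟩ := h2
    apply prod_eq_zero hp
    rw [if_neg hpe]

theorem sum_mult (f : ℕ → ℝ) (x m : ℕ) (hm : 0 < m) :
    ∑ e ∈ (Icc 1 x).filter (fun e => m ∣ e), f e = ∑ e ∈ Icc 1 (x / m), f (m * e) := by
  symm
  refine sum_nbij' (fun e => m * e) (fun e => e / m) ?_ ?_ ?_ ?_ ?_
  · intro e he
    rw [mem_Icc] at he
    rw [mem_filter, mem_Icc]
    refine ⟨⟨Nat.mul_pos hm he.1, ?_⟩, dvd_mul_right _ _⟩
    calc m * e ≤ m * (x / m) := Nat.mul_le_mul_left _ he.2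
      _ ≤ x := Nat.mul_div_le x m
  · intro e he
    rw [mem_filter, mem_Icc] at he
    rw [mem_Icc]
    exact ⟨Nat.div_pos (Nat.le_of_dvd he.1.1 he.2) hm, Nat.div_le_div_right he.1.2⟩
  · intro e _
    exact Nat.mul_div_cancel_left e hm
  · intro e he
    rw [mem_filter] at he
    exact Nat.mul_div_cancel' he.2
  · intro e _
    rfl

theorem lamp_abs {c p : ℕ} (hp : p.Prime) : |lamp c p| ≤ p := by
  have h1 : (2 : ℝ) ≤ p := by exact_mod_cast hp.two_le
  unfold lamp
  split_ifs <;> rw [abs_le] <;> constructor <;> linarith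

theorem lam_abs {c : ℕ} {U : Finset ℕ} (hU : ∀ p ∈ U, p.Prime) : |∏ p ∈ U, lamp c p| ≤ ((∏ p ∈ U, p : ℕ) : ℝ) := by
  rw [abs_prod]
  push_cast
  exact Finset.prod_le_prod (fun p _ => abs_nonneg _) fun p hp => lamp_abs (hU p hp)

theorem sum_cr_le {q : ℕ} [NeZero q] {χ : DirichletCharacter ℂ q} (hχ : χ ≠ 1) (h : χ ^ 2 = 1) (x : ℕ) :
    |∑ e ∈ Icc 1 x, cr χ e| ≤ q := by
  have h1 := Pool.Agent.H307R2.Ech_norm_le hχ 0 (x : ℝ)
  unfold Pool.Agent.H307R2.Ech at h1
  rw [Nat.floor_natCast] at h1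
  have h2 : Icc 1 x = Ioc 0 x := by
    ext n
    rw [mem_Icc, mem_Ioc]
    omega
  have h3 : (∑ k ∈ Ioc 0 x, χ (k : ZMod q)) = ((∑ k ∈ Ioc 0 x, cr χ k : ℝ) : ℂ) := by
    push_cast
    exact sum_congr rfl fun k _ => cr_eq h k
  rw [h3, Complex.norm_real, Real.norm_eq_abs] at h1
  rw [h2]
  exact h1

theorem sum_crd {q : ℕ} [NeZero q] {χ : DirichletCharacter ℂ q} (hχ : χ ≠ 1) (h : χ ^ 2 = 1) {x m : ℕ} (hx : 0 < x)
    (hm : 0 < m) : |∑ e ∈ Icc 1 (x / m), cr χ e / (e : ℝ) - LV χ| ≤ 2 * q * m / x := by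
  have hq : (1 : ℝ) ≤ q := by exact_mod_cast Nat.pos_of_ne_zero (NeZero.ne q)
  have hxr : (0 : ℝ) < x := by exact_mod_cast hx
  have hmr : (0 : ℝ) < m := by exact_mod_cast hm
  rcases Nat.eq_zero_or_pos (x / m) with h0 | h0
  · rw [h0]
    have h1 : x < m := (Nat.div_eq_zero_iff.1 h0).resolve_left hm.ne'
    have h2 : (x : ℝ) ≤ m := by exact_mod_cast h1.le
    simp only [zero_lt_one, Icc_eq_empty_of_lt, sum_empty, zero_sub, abs_neg]
    refine (LV_le hχ h).trans ?_
    rw [le_div_iff₀ hxr]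
    nlinarith
  · have h1 := LV_tail hχ h h0
    rw [abs_sub_comm] at h1
    refine h1.trans ?_
    have h2 : (x : ℝ) ≤ 2 * m * ((x / m : ℕ) : ℝ) := by
      have h3 := Nat.lt_div_mul_add (a := x) hm
      have h4 : x / m * m + m ≤ 2 * (x / m * m) := by
        have : m ≤ x / m * m := Nat.le_mul_of_pos_left m h0
        omega
      have h5 : (x : ℝ) ≤ ((2 * (x / m * m) : ℕ) : ℝ) := by exact_mod_cast (h3.le.trans h4)
      push_cast at h5
      linarith
    have h3 : (0 : ℝ) < ((x / m : ℕ) : ℝ) := by exact_mod_cast h0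
    rw [div_le_div_iff₀ h3 hxr]
    nlinarith

end Pool.Agent.H536.OB
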