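import Mathlib
import Pool.Agent.H536.OB.E2

open Finset Filter Topology

/-! The distribution lemma. -/

namespace Pool.Agent.H536.OB

/-- the local density -/
noncomputable def hh {q : ℕ} (χ : DirichletCharacter ℂ q) (c p : ℕ) : ℝ :=
  1 - cr χ p / (p : ℝ) + (if p ∣ c then cr χ p else 0)

theorem cr_prod {q : ℕ} {χ : DirichletCharacter ℂ q} (h : χ ^ 2 = 1) (U : Finset ℕ) :
    cr χ (∏ p ∈ U, p) = ∏ p ∈ U, cr χ p := by
  classical
  induction U using Finset.induction_on with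
  | empty => simp [cr_one]
  | insert p U hp ih => rw [prod_insert hp, prod_insert hp, cr_mul h, ih]

theorem cr_zero_of_not_coprime {q : ℕ} (χ : DirichletCharacter ℂ q) {e : ℕ} (he : ¬ e.Coprime q) : cr χ e = 0 := by
  unfold cr
  rw [MulChar.map_nonunit _ (by rwa [ZMod.isUnit_iff_coprime]), Complex.zero_re]

theorem expand_sum {q : ℕ} {χ : DirichletCharacter ℂ q} (c : ℕ) (T : Finset ℕ) (hT : ∀ p ∈ T, p.Prime) (x : ℕ) (f : ℕ → ℝ) :
    ∑ e ∈ Icc 1 x, cr χ e * ((ww (∏ p ∈ T, p) c e : ℕ) : ℝ) * f e =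
      ∑ U ∈ T.powerset, (∏ p ∈ U, lamp c p) * ∑ e ∈ Icc 1 (x / ∏ p ∈ U, p), cr χ ((∏ p ∈ U, p) * e) * f ((∏ p ∈ U, p) * e) := by
  classical
  have h1 : ∀ e ∈ Icc 1 x, cr χ e * ((ww (∏ p ∈ T, p) c e : ℕ) : ℝ) * f e =
      ∑ U ∈ T.powerset, (if (∏ p ∈ U, p) ∣ e then (∏ p ∈ U, lamp c p) * (cr χ e * f e) else 0) := by
    intro e he
    rw [mem_Icc] at he
    rw [ww_expand (by omega) T hT, mul_sum, sum_mul]
    apply sum_congr rfl
    intro U _
    split_ifs <;> ring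
  rw [sum_congr rfl h1, sum_comm]
  apply sum_congr rfl
  intro U hU
  rw [mem_powerset] at hU
  have hpos : 0 < ∏ p ∈ U, p := Nat.pos_of_ne_zero (prod_ne_zero_iff.2 fun p hp => (hT p (hU hp)).ne_zero)
  rw [← sum_filter, sum_mult _ x _ hpos, mul_sum]

theorem S1_est {q : ℕ} [NeZero q] {χ : DirichletCharacter ℂ q} (hχ : χ ≠ 1) (h : χ ^ 2 = 1) (c : ℕ) (T : Finset ℕ)
    (hT : ∀ p ∈ T, p.Prime) {x : ℕ} (hx : 0 < x) :
    |∑ e ∈ Icc 1 x, cr χ e * (((ww (∏ p ∈ T, p) c e : ℕ) : ℝ) / e) - LV χ * ∏ p ∈ T, hh χ c p| ≤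
      2 ^ T.card * (2 * q * ((∏ p ∈ T, p : ℕ) : ℝ) / x) := by
  classical
  have hxr : (0 : ℝ) < x := by exact_mod_cast hx
  have h1 : ∑ e ∈ Icc 1 x, cr χ e * (((ww (∏ p ∈ T, p) c e : ℕ) : ℝ) / e) =
      ∑ e ∈ Icc 1 x, cr χ e * ((ww (∏ p ∈ T, p) c e : ℕ) : ℝ) * (1 / (e : ℝ)) := by
    apply sum_congr rfl
    intro e _
    ring
  have h2 : ∏ p ∈ T, hh χ c p = ∑ U ∈ T.powerset, (∏ p ∈ U, lamp c p) * (cr χ (∏ p ∈ U, p) / ((∏ p ∈ U, p : ℕ) : ℝ)) := by
    have h3 : ∀ p ∈ T, hh χ c p = 1 + lamp c p * (cr χ p / (p : ℝ)) := by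
      intro p hp
      have hp0 : (p : ℝ) ≠ 0 := by exact_mod_cast (hT p hp).ne_zero
      unfold hh lamp
      split_ifs <;> field_simp <;> ring
    rw [prod_congr rfl h3, Finset.prod_one_add]
    apply sum_congr rfl
    intro U _
    rw [prod_mul_distrib, cr_prod h, prod_div_distrib]
    push_cast
    rfl
  rw [h1, expand_sum c T hT x, h2, mul_sum, ← sum_sub_distrib]
  refine (abs_sum_le_sum_abs _ _).trans ?_
  have h4 : ∀ U ∈ T.powerset, |(∏ p ∈ U, lamp c p) * ∑ e ∈ Icc 1 (x / ∏ p ∈ U, p), cr χ ((∏ p ∈ U, p) * e) * (1 / ((((∏ p ∈ U, p) * e : ℕ)) : ℝ)) -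
      LV χ * ((∏ p ∈ U, lamp c p) * (cr χ (∏ p ∈ U, p) / ((∏ p ∈ U, p : ℕ) : ℝ)))| ≤ 2 * q * ((∏ p ∈ T, p : ℕ) : ℝ) / x := by
    intro U hU
    rw [mem_powerset] at hU
    have hpos : 0 < ∏ p ∈ U, p := Nat.pos_of_ne_zero (prod_ne_zero_iff.2 fun p hp => (hT p (hU hp)).ne_zero)
    set m := ∏ p ∈ U, p with hm
    have hmr : (0 : ℝ) < (m : ℝ) := by exact_mod_cast hpos
    have h5 : ∑ e ∈ Icc 1 (x / m), cr χ (m * e) * (1 / (((m * e : ℕ)) : ℝ)) = cr χ m / m * ∑ e ∈ Icc 1 (x / m), cr χ e / (e : ℝ) := by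
      rw [mul_sum]
      apply sum_congr rfl
      intro e he
      rw [mem_Icc] at he
      have : (e : ℝ) ≠ 0 := by
        have : e ≠ 0 := by omega
        exact_mod_cast this
      rw [cr_mul h]
      push_cast
      field_simp
    rw [h5]
    have h6 : (∏ p ∈ U, lamp c p) * (cr χ m / m * ∑ e ∈ Icc 1 (x / m), cr χ e / (e : ℝ)) - LV χ * ((∏ p ∈ U, lamp c p) * (cr χ m / m)) =
        (∏ p ∈ U, lamp c p) * (cr χ m / m) * (∑ e ∈ Icc 1 (x / m), cr χ e / (e : ℝ) - LV χ) := by ring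
    rw [h6, abs_mul, abs_mul]
    have h7 := lam_abs (c := c) (U := U) (fun p hp => hT p (hU hp))
    rw [← hm] at h7
    have h8 : |cr χ m / (m : ℝ)| ≤ 1 / m := by
      rw [abs_div, abs_of_pos hmr]
      exact div_le_div_of_nonneg_right (cr_abs h m) hmr.le
    have h9 := sum_crd hχ h (x := x) (m := m) hx hpos
    have h10 : (m : ℝ) ≤ ((∏ p ∈ T, p : ℕ) : ℝ) := by
      have : m ≤ ∏ p ∈ T, p := Nat.le_of_dvd (Nat.pos_of_ne_zero (prod_ne_zero_iff.2 fun p hp => (hT p hp).ne_zero))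
        (Finset.prod_dvd_prod_of_subset _ _ _ hU)
      exact_mod_cast this
    calc |∏ p ∈ U, lamp c p| * |cr χ m / (m : ℝ)| * |∑ e ∈ Icc 1 (x / m), cr χ e / (e : ℝ) - LV χ| ≤
          (m : ℝ) * (1 / m) * (2 * q * m / x) := by gcongr
      _ = 2 * q * m / x := by field_simp
      _ ≤ _ := by gcongr
  refine (sum_le_sum h4).trans ?_
  rw [sum_const, card_powerset, nsmul_eq_mul]
  push_cast
  exact le_rfl

theorem S2_est {q : ℕ} [NeZero q] {χ : DirichletCharacter ℂ q} (hχ : χ ≠ 1) (h : χ ^ 2 = 1) (c : ℕ) (T : Finset ℕ)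
    (hT : ∀ p ∈ T, p.Prime) (x : ℕ) :
    |∑ e ∈ Icc 1 x, cr χ e * ((ww (∏ p ∈ T, p) c e : ℕ) : ℝ)| ≤ 2 ^ T.card * (((∏ p ∈ T, p : ℕ) : ℝ) * q) := by
  classical
  have h1 : ∑ e ∈ Icc 1 x, cr χ e * ((ww (∏ p ∈ T, p) c e : ℕ) : ℝ) =
      ∑ e ∈ Icc 1 x, cr χ e * ((ww (∏ p ∈ T, p) c e : ℕ) : ℝ) * (fun _ => (1 : ℝ)) e := by simp
  rw [h1, expand_sum c T hT x]
  refine (abs_sum_le_sum_abs _ _).trans ?_
  have h4 : ∀ U ∈ T.powerset, |(∏ p ∈ U, lamp c p) * ∑ e ∈ Icc 1 (x / ∏ p ∈ U, p), cr χ ((∏ p ∈ U, p) * e) * (fun _ => (1 : ℝ)) ((∏ p ∈ U, p) * e)| ≤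
      ((∏ p ∈ T, p : ℕ) : ℝ) * q := by
    intro U hU
    rw [mem_powerset] at hU
    have hpos : 0 < ∏ p ∈ U, p := Nat.pos_of_ne_zero (prod_ne_zero_iff.2 fun p hp => (hT p (hU hp)).ne_zero)
    set m := ∏ p ∈ U, p with hm
    have h5 : ∑ e ∈ Icc 1 (x / m), cr χ (m * e) * (fun _ => (1 : ℝ)) (m * e) = cr χ m * ∑ e ∈ Icc 1 (x / m), cr χ e := by
      rw [mul_sum]
      apply sum_congr rfl
      intro e _
      rw [cr_mul h]
      ring
    rw [h5, abs_mul, abs_mul]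
    have h7 := lam_abs (c := c) (U := U) (fun p hp => hT p (hU hp))
    rw [← hm] at h7
    have h9 := sum_cr_le hχ h (x / m)
    have h10 : (m : ℝ) ≤ ((∏ p ∈ T, p : ℕ) : ℝ) := by
      have : m ≤ ∏ p ∈ T, p := Nat.le_of_dvd (Nat.pos_of_ne_zero (prod_ne_zero_iff.2 fun p hp => (hT p hp).ne_zero))
        (Finset.prod_dvd_prod_of_subset _ _ _ hU)
      exact_mod_cast this
    have h8 := cr_abs h m
    calc |∏ p ∈ U, lamp c p| * (|cr χ m| * |∑ e ∈ Icc 1 (x / m), cr χ e|) ≤ (m : ℝ) * (1 * q) := by gcongr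
      _ = m * q := by ring
      _ ≤ _ := by gcongr
  refine (sum_le_sum h4).trans ?_
  rw [sum_const, card_powerset, nsmul_eq_mul]
  push_cast
  exact le_rfl

theorem cr_AP {q : ℕ} (χ : DirichletCharacter ℂ q) (t B : ℕ) : cr χ (q * t + B) = cr χ B := by
  unfold cr
  push_cast
  simp

theorem swap_sum {q : ℕ} (χ : DirichletCharacter ℂ q) (S : Finset ℕ) (x : ℕ) (R : ℕ → ℕ → Prop) [∀ t e, Decidable (R t e)] :
    ∑ t ∈ S, ∑ e ∈ (Icc 1 x).filter (fun e => R t e), cr χ e = ∑ e ∈ Icc 1 x, cr χ e * ((S.filter (fun t => R t e)).card : ℝ) := by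
  have h1 : ∀ t ∈ S, ∑ e ∈ (Icc 1 x).filter (fun e => R t e), cr χ e = ∑ e ∈ Icc 1 x, if R t e then cr χ e else 0 := by
    intro t _
    rw [sum_filter]
  rw [sum_congr rfl h1, sum_comm]
  apply sum_congr rfl
  intro e _
  rw [← sum_filter, sum_const, nsmul_eq_mul, mul_comm]

theorem DL0 {q : ℕ} [NeZero q] {χ : DirichletCharacter ℂ q} (hχ : χ ≠ 1) (h : χ ^ 2 = 1) {B : ℕ} (hB1 : 1 ≤ B)
    (hBq : B ≤ q) (hBχ : cr χ B = 1) (T : Finset ℕ) (hT : ∀ p ∈ T, p.Prime) (ν T0 E : ℕ) (hE : 0 < E) (hE' : 0 < q * T0 / E) :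
    |∑ t ∈ (range T0).filter (fun t => t ≡ ν [MOD ∏ p ∈ T, p]), rr χ (q * t + B) -
      2 * T0 / ((∏ p ∈ T, p : ℕ) : ℝ) * (LV χ * ∏ p ∈ T, hh χ (q * ν + B) p)| ≤
      2 ^ T.card * (2 * q * T0 / E + 2 * q * T0 / ((q * T0 / E : ℕ) : ℝ) + E) + E + 3 * ((q * T0 / E : ℕ) : ℝ) := by
  classical
  have hq : 0 < q := Nat.pos_of_ne_zero (NeZero.ne q)
  have hqr : (0 : ℝ) < q := by exact_mod_cast hq
  have hDpos : 0 < ∏ p ∈ T, p := Nat.pos_of_ne_zero (prod_ne_zero_iff.2 fun p hp => (hT p hp).ne_zero)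
  set D := ∏ p ∈ T, p with hD
  have hDr : (0 : ℝ) < D := by exact_mod_cast hDpos
  set E' := q * T0 / E with hE'def
  set c := q * ν + B with hc
  have hEr : (0 : ℝ) < E := by exact_mod_cast hE
  have hE'r : (0 : ℝ) < E' := by exact_mod_cast hE'
  set S := (range T0).filter (fun t => t ≡ ν [MOD D]) with hS
  -- splitting
  have h1 : ∀ t ∈ S, rr χ (q * t + B) = ∑ e ∈ (Icc 1 E).filter (fun e => e ∣ q * t + B), cr χ e +
      ∑ e ∈ (Icc 1 E').filter (fun e => e ∣ q * t + B ∧ e * E < q * t + B), cr χ e := by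
    intro t ht
    rw [hS, mem_filter, mem_range] at ht
    have hn : 0 < q * t + B := by omega
    rw [rr_split (E := E) h hn (by rw [cr_AP]; exact hBχ)]
    congr 1
    · apply sum_congr _ fun _ _ => rfl
      ext e
      rw [mem_filter, mem_filter, mem_Icc, Nat.mem_divisors]
      constructor
      · rintro ⟨⟨a1, a2⟩, a3⟩
        exact ⟨⟨Nat.pos_of_dvd_of_pos a1 hn, a3⟩, a1⟩
      · rintro ⟨⟨a1, a2⟩, a3⟩
        exact ⟨⟨a3, hn.ne'⟩, a2⟩
    · apply sum_congr _ fun _ _ => rfl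
      ext e
      rw [mem_filter, mem_filter, mem_Icc, Nat.mem_divisors]
      constructor
      · rintro ⟨⟨a1, a2⟩, a3⟩
        refine ⟨⟨Nat.pos_of_dvd_of_pos a1 hn, ?_⟩, a1, a3⟩
        rw [hE'def, Nat.le_div_iff_mul_le hE]
        have : q * t + B ≤ q * T0 := by
          calc q * t + B ≤ q * t + q := by omega
            _ = q * (t + 1) := by ring
            _ ≤ q * T0 := Nat.mul_le_mul_left _ (by omega)
        omega
      · rintro ⟨⟨a1, a2⟩, a3, a4⟩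
        exact ⟨⟨a3, hn.ne'⟩, a4⟩
  rw [sum_congr rfl h1, sum_add_distrib, swap_sum χ S E (fun t e => e ∣ q * t + B),
    swap_sum χ S E' (fun t e => e ∣ q * t + B ∧ e * E < q * t + B)]
  -- first sum
  have hA : |∑ e ∈ Icc 1 E, cr χ e * ((S.filter (fun t => e ∣ q * t + B)).card : ℝ) -
      (T0 : ℝ) / D * ∑ e ∈ Icc 1 E, cr χ e * ((ww D c e : ℕ) / (e : ℝ))| ≤ E := by
    rw [mul_sum, ← sum_sub_distrib]
    refine (abs_sum_le_sum_abs _ _).trans ?_
    have h2 : ∀ e ∈ Icc 1 E, |cr χ e * ((S.filter (fun t => e ∣ q * t + B)).card : ℝ) -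
        (T0 : ℝ) / D * (cr χ e * ((ww D c e : ℕ) / (e : ℝ)))| ≤ 1 := by
      intro e he
      rw [mem_Icc] at he
      by_cases hco : e.Coprime q
      · have h3 := NN_est (B := B) (ν := ν) (x := T0) (by omega : 0 < e) hDpos hco
        have h4 : (S.filter (fun t => e ∣ q * t + B)).card = NN q B D ν T0 e := by
          unfold NN
          rw [hS, filter_filter]
        rw [h4]
        have h5 : cr χ e * ((NN q B D ν T0 e : ℕ) : ℝ) - (T0 : ℝ) / D * (cr χ e * ((ww D c e : ℕ) / (e : ℝ))) =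
            cr χ e * (((NN q B D ν T0 e : ℕ) : ℝ) - (T0 : ℝ) / D * (((ww D c e : ℕ) : ℝ) / e)) := by ring
        rw [h5, abs_mul]
        calc |cr χ e| * |((NN q B D ν T0 e : ℕ) : ℝ) - (T0 : ℝ) / D * (((ww D c e : ℕ) : ℝ) / e)| ≤ 1 * 1 :=
              mul_le_mul (cr_abs h e) h3 (abs_nonneg _) zero_le_one
          _ = 1 := one_mul 1
      · rw [cr_zero_of_not_coprime χ hco]
        simp
    refine (sum_le_sum h2).trans ?_
    rw [sum_const, Nat.card_Icc, nsmul_eq_mul, Nat.add_sub_cancel, mul_one]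
  -- second sum
  have hBB : |∑ e ∈ Icc 1 E', cr χ e * ((S.filter (fun t => e ∣ q * t + B ∧ e * E < q * t + B)).card : ℝ) -
      ((T0 : ℝ) / D * ∑ e ∈ Icc 1 E', cr χ e * ((ww D c e : ℕ) / (e : ℝ)) -
        (E : ℝ) / (q * D) * ∑ e ∈ Icc 1 E', cr χ e * ((ww D c e : ℕ) : ℝ))| ≤ 3 * E' := by
    rw [mul_sum, mul_sum, ← sum_sub_distrib, ← sum_sub_distrib]
    refine (abs_sum_le_sum_abs _ _).trans ?_
    have h2 : ∀ e ∈ Icc 1 E', |cr χ e * ((S.filter (fun t => e ∣ q * t + B ∧ e * E < q * t + B)).card : ℝ) -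
        ((T0 : ℝ) / D * (cr χ e * ((ww D c e : ℕ) / (e : ℝ))) - (E : ℝ) / (q * D) * (cr χ e * ((ww D c e : ℕ) : ℝ)))| ≤ 3 := by
      intro e he
      rw [mem_Icc] at he
      by_cases hco : e.Coprime q
      · have he0 : 0 < e := by omega
        have her : (1 : ℝ) ≤ e := by exact_mod_cast he.1
        obtain ⟨τ, hτ⟩ : ∃ τ : ℕ, τ = (e * E + (q - B)) / q := ⟨_, rfl⟩
        have hlt : ∀ t, t < τ ↔ q * t + B ≤ e * E := by
          intro t
          rw [hτ, ← Nat.succ_le_iff, Nat.le_div_iff_mul_le hq, Nat.succ_mul, mul_comm t q]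
          omega
        have heE : e * E ≤ q * T0 := by
          have := he.2
          rw [hE'def, Nat.le_div_iff_mul_le hE] at this
          exact this
        have hτT : τ ≤ T0 := by
          by_contra hcon
          push Not at hcon
          have := (hlt T0).1 hcon
          omega
        have h3 := NN_est (B := B) (ν := ν) (x := T0) he0 hDpos hco
        have h3' := NN_est (B := B) (ν := ν) (x := τ) he0 hDpos hco
        have h4 : (S.filter (fun t => e ∣ q * t + B ∧ e * E < q * t + B)).card + NN q B D ν τ e = NN q B D ν T0 e := by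
          unfold NN
          rw [hS, filter_filter]
          have hu : (range τ).filter (fun t => t ≡ ν [MOD D] ∧ e ∣ q * t + B) =
              (range T0).filter (fun t => (t ≡ ν [MOD D] ∧ e ∣ q * t + B) ∧ q * t + B ≤ e * E) := by
            ext t
            rw [mem_filter, mem_filter, mem_range, mem_range, hlt t]
            constructor
            · rintro ⟨a1, a2⟩
              exact ⟨lt_of_lt_of_le ((hlt t).2 a1) hτT, a2, a1⟩
            · rintro ⟨a1, a2, a3⟩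
              exact ⟨a3, a2⟩
          have hv : (range T0).filter (fun t => t ≡ ν [MOD D] ∧ e ∣ q * t + B ∧ e * E < q * t + B) =
              (range T0).filter (fun t => (t ≡ ν [MOD D] ∧ e ∣ q * t + B) ∧ ¬ (q * t + B ≤ e * E)) := by
            apply filter_congr
            intro t _
            push Not
            tauto
          rw [hu, hv, ← filter_filter (fun t => t ≡ ν [MOD D] ∧ e ∣ q * t + B) (fun t => ¬ (q * t + B ≤ e * E)),
            ← filter_filter (fun t => t ≡ ν [MOD D] ∧ e ∣ q * t + B) (fun t => q * t + B ≤ e * E), add_comm,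
            card_filter_add_card_filter_not]
        have h4r : ((S.filter (fun t => e ∣ q * t + B ∧ e * E < q * t + B)).card : ℝ) =
            ((NN q B D ν T0 e : ℕ) : ℝ) - ((NN q B D ν τ e : ℕ) : ℝ) := by
          rw [eq_sub_iff_add_eq]
          exact_mod_cast h4
        rw [h4r]
        set w : ℝ := ((ww D c e : ℕ) : ℝ) / e with hw
        have hw0 : 0 ≤ w := by positivity
        have hwD : w / D ≤ 1 := by
          have h5 : ((ww D c e : ℕ) : ℝ) ≤ D := by exact_mod_cast ww_le hDpos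
          rw [hw, div_div, div_le_one (by positivity)]
          nlinarith
        have hτr : |(τ : ℝ) - (e : ℝ) * E / q| ≤ 1 := by
          have g1 : (τ : ℝ) ≤ ((e * E + (q - B) : ℕ) : ℝ) / q := by rw [hτ]; exact Nat.cast_div_le
          have g2 : ((e * E + (q - B) : ℕ) : ℝ) < (τ + 1) * q := by
            have := Nat.lt_div_mul_add (a := e * E + (q - B)) hq
            rw [← hτ] at this
            have g3 : ((e * E + (q - B) : ℕ) : ℝ) < ((τ * q + q : ℕ) : ℝ) := by exact_mod_cast this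
            push_cast at g3 ⊢
            linarith
          rw [Nat.cast_add, Nat.cast_sub hBq] at g1 g2
          push_cast at g1 g2
          have hB1r : (1 : ℝ) ≤ B := by exact_mod_cast hB1
          have hBqr : (B : ℝ) ≤ q := by exact_mod_cast hBq
          rw [abs_le]
          constructor
          · have : (e : ℝ) * E / q ≤ τ + 1 := by
              rw [div_le_iff₀ hqr]
              linarith
            linarith
          · have : ((e : ℝ) * E + (q - B)) / q ≤ (e : ℝ) * E / q + 1 := by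
              rw [add_div]
              have : ((q : ℝ) - B) / q ≤ 1 := by
                rw [div_le_one hqr]
                linarith
              linarith
            linarith
        have h5 : cr χ e * (((NN q B D ν T0 e : ℕ) : ℝ) - ((NN q B D ν τ e : ℕ) : ℝ)) -
            ((T0 : ℝ) / D * (cr χ e * w) - (E : ℝ) / (q * D) * (cr χ e * ((ww D c e : ℕ) : ℝ))) =
            cr χ e * ((((NN q B D ν T0 e : ℕ) : ℝ) - (T0 : ℝ) / D * w) - (((NN q B D ν τ e : ℕ) : ℝ) - (τ : ℝ) / D * w) -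
              ((τ : ℝ) - (e : ℝ) * E / q) * (w / D)) := by
          have h6 : (((ww D c e : ℕ) : ℝ)) = w * e := by
            rw [hw]
            field_simp
          rw [h6]
          field_simp
          ring
        rw [h5, abs_mul]
        have h6 : |(((NN q B D ν T0 e : ℕ) : ℝ) - (T0 : ℝ) / D * w) - (((NN q B D ν τ e : ℕ) : ℝ) - (τ : ℝ) / D * w) -
              ((τ : ℝ) - (e : ℝ) * E / q) * (w / D)| ≤ 3 := by
          have h7 : |((τ : ℝ) - (e : ℝ) * E / q) * (w / D)| ≤ 1 := by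
            rw [abs_mul, abs_of_nonneg (div_nonneg hw0 hDr.le)]
            calc |(τ : ℝ) - (e : ℝ) * E / q| * (w / D) ≤ 1 * 1 := mul_le_mul hτr hwD (by positivity) zero_le_one
              _ = 1 := one_mul 1
          have h8 := abs_sub (((NN q B D ν T0 e : ℕ) : ℝ) - (T0 : ℝ) / D * w) (((NN q B D ν τ e : ℕ) : ℝ) - (τ : ℝ) / D * w)
          have h9 := abs_sub ((((NN q B D ν T0 e : ℕ) : ℝ) - (T0 : ℝ) / D * w) - (((NN q B D ν τ e : ℕ) : ℝ) - (τ : ℝ) / D * w))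
            (((τ : ℝ) - (e : ℝ) * E / q) * (w / D))
          linarith
        calc _ ≤ 1 * 3 := mul_le_mul (cr_abs h e) h6 (abs_nonneg _) zero_le_one
          _ = 3 := one_mul 3
      · rw [cr_zero_of_not_coprime χ hco]
        simp
    refine (sum_le_sum h2).trans ?_
    rw [sum_const, Nat.card_Icc, nsmul_eq_mul, Nat.add_sub_cancel, mul_comm]
  -- the estimates of the sums over e
  have s1 := S1_est hχ h c T hT hE
  have s1' := S1_est hχ h c T hT hE'
  have s2 := S2_est hχ h c T hT E'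
  rw [← hD] at s1 s1' s2
  set X1 := ∑ e ∈ Icc 1 E, cr χ e * (((ww D c e : ℕ) : ℝ) / e) with hX1
  set X2 := ∑ e ∈ Icc 1 E', cr χ e * (((ww D c e : ℕ) : ℝ) / e) with hX2
  set X3 := ∑ e ∈ Icc 1 E', cr χ e * ((ww D c e : ℕ) : ℝ) with hX3
  set Pr := LV χ * ∏ p ∈ T, hh χ c p with hPr
  set F1 := ∑ e ∈ Icc 1 E, cr χ e * ((S.filter (fun t => e ∣ q * t + B)).card : ℝ) with hF1
  set F2 := ∑ e ∈ Icc 1 E', cr χ e * ((S.filter (fun t => e ∣ q * t + B ∧ e * E < q * t + B)).card : ℝ) with hF2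
  have hT0D : 0 ≤ (T0 : ℝ) / D := by positivity
  have e1 : |(T0 : ℝ) / D * (X1 - Pr)| ≤ 2 ^ T.card * (2 * q * T0 / E) := by
    rw [abs_mul, abs_of_nonneg hT0D]
    calc (T0 : ℝ) / D * |X1 - Pr| ≤ (T0 : ℝ) / D * (2 ^ T.card * (2 * q * D / E)) := mul_le_mul_of_nonneg_left s1 hT0D
      _ = _ := by field_simp
  have e2 : |(T0 : ℝ) / D * (X2 - Pr)| ≤ 2 ^ T.card * (2 * q * T0 / E') := by
    rw [abs_mul, abs_of_nonneg hT0D]
    calc (T0 : ℝ) / D * |X2 - Pr| ≤ (T0 : ℝ) / D * (2 ^ T.card * (2 * q * D / E')) := mul_le_mul_of_nonneg_left s1' hT0D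
      _ = _ := by field_simp
  have e3 : |(E : ℝ) / (q * D) * X3| ≤ 2 ^ T.card * E := by
    rw [abs_mul, abs_of_nonneg (by positivity)]
    calc (E : ℝ) / (q * D) * |X3| ≤ (E : ℝ) / (q * D) * (2 ^ T.card * (D * q)) := mul_le_mul_of_nonneg_left s2 (by positivity)
      _ = _ := by field_simp
  have hfin : F1 + F2 - 2 * T0 / (D : ℝ) * Pr = (F1 - (T0 : ℝ) / D * X1) + (F2 - ((T0 : ℝ) / D * X2 - (E : ℝ) / (q * D) * X3)) +
      (T0 : ℝ) / D * (X1 - Pr) + (T0 : ℝ) / D * (X2 - Pr) - (E : ℝ) / (q * D) * X3 := by ring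
  rw [hfin]
  have g1 := abs_sub ((F1 - (T0 : ℝ) / D * X1) + (F2 - ((T0 : ℝ) / D * X2 - (E : ℝ) / (q * D) * X3)) +
      (T0 : ℝ) / D * (X1 - Pr) + (T0 : ℝ) / D * (X2 - Pr)) ((E : ℝ) / (q * D) * X3)
  have g2 := abs_add_le ((F1 - (T0 : ℝ) / D * X1) + (F2 - ((T0 : ℝ) / D * X2 - (E : ℝ) / (q * D) * X3)) +
      (T0 : ℝ) / D * (X1 - Pr)) ((T0 : ℝ) / D * (X2 - Pr))
  have g3 := abs_add_le ((F1 - (T0 : ℝ) / D * X1) + (F2 - ((T0 : ℝ) / D * X2 - (E : ℝ) / (q * D) * X3))) ((T0 : ℝ) / D * (X1 - Pr))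
  have g4 := abs_add_le (F1 - (T0 : ℝ) / D * X1) (F2 - ((T0 : ℝ) / D * X2 - (E : ℝ) / (q * D) * X3))
  have g5 : (2 : ℝ) ^ T.card * (2 * q * T0 / E + 2 * q * T0 / E' + E) =
      2 ^ T.card * (2 * q * T0 / E) + 2 ^ T.card * (2 * q * T0 / E') + 2 ^ T.card * E := by ring
  rw [g5]
  linarith

end Pool.Agent.H536.OB
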