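import Mathlib
import Pool.Agent.H536.OB.E3
import Pool.Graph.R_seed8.TH423.SH.FLLP

open Finset Filter Topology

/-! The sieve for `1 * χ`. -/

namespace Pool.Agent.H536.OB

theorem DL {q : ℕ} [NeZero q] {χ : DirichletCharacter ℂ q} (hχ : χ ≠ 1) (h : χ ^ 2 = 1) {B : ℕ} (hB1 : 1 ≤ B)
    (hBq : B ≤ q) (hBχ : cr χ B = 1) (T : Finset ℕ) (hT : ∀ p ∈ T, p.Prime) (ν T0 : ℕ) (h16 : 16 ≤ q * T0) :
    |∑ t ∈ (range T0).filter (fun t => t ≡ ν [MOD ∏ p ∈ T, p]), rr χ (q * t + B) -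
      2 * T0 / ((∏ p ∈ T, p : ℕ) : ℝ) * (LV χ * ∏ p ∈ T, hh χ (q * ν + B) p)| ≤ 13 * 2 ^ T.card * √((q : ℝ) * T0) := by
  obtain ⟨s, hs⟩ : ∃ s : ℝ, s = √((q : ℝ) * T0) := ⟨_, rfl⟩
  have h16r : (16 : ℝ) ≤ (q : ℝ) * T0 := by exact_mod_cast h16
  have hs2 : s * s = (q : ℝ) * T0 := by rw [hs]; exact Real.mul_self_sqrt (by linarith)
  have hs4 : 4 ≤ s := by
    rw [hs]
    apply Real.le_sqrt_of_sq_le
    linarith
  obtain ⟨E, hE⟩ : ∃ E : ℕ, E = Nat.sqrt (q * T0) + 1 := ⟨_, rfl⟩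
  have hE1 : s ≤ E := by
    have h1 : q * T0 < E * E := by rw [hE]; exact Nat.lt_succ_sqrt _
    have h2 : (q : ℝ) * T0 ≤ (E : ℝ) * E := by exact_mod_cast h1.le
    rw [← hs2] at h2
    exact abs_le_of_sq_le_sq' (by nlinarith) (Nat.cast_nonneg _) |>.2
  have hE2 : (E : ℝ) ≤ s + 1 := by
    have h1 : Nat.sqrt (q * T0) * Nat.sqrt (q * T0) ≤ q * T0 := Nat.sqrt_le _
    have h2 : (Nat.sqrt (q * T0) : ℝ) * Nat.sqrt (q * T0) ≤ (q : ℝ) * T0 := by exact_mod_cast h1
    rw [← hs2] at h2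
    have h3 : (Nat.sqrt (q * T0) : ℝ) ≤ s := abs_le_of_sq_le_sq' (by nlinarith) (by linarith) |>.2
    rw [hE]
    push_cast
    linarith
  have hEpos : 0 < E := by omega
  have hEr : (0 : ℝ) < E := by exact_mod_cast hEpos
  obtain ⟨E', hE'⟩ : ∃ E' : ℕ, E' = q * T0 / E := ⟨_, rfl⟩
  have hE'1 : (E' : ℝ) ≤ s := by
    have h1 : (E' : ℝ) ≤ ((q * T0 : ℕ) : ℝ) / E := by rw [hE']; exact Nat.cast_div_le
    push_cast at h1
    refine h1.trans ?_
    rw [div_le_iff₀ hEr, ← hs2]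
    exact mul_le_mul_of_nonneg_left hE1 (by linarith)
  have hE'2 : s / 2 ≤ E' := by
    have h1 := Nat.lt_div_mul_add (a := q * T0) hEpos
    rw [← hE'] at h1
    have h2 : ((q * T0 : ℕ) : ℝ) < ((E' * E + E : ℕ) : ℝ) := by exact_mod_cast h1
    push_cast at h2
    rw [← hs2] at h2
    have h3 : ((E' : ℝ) + 1) * (s + 1) ≥ s * s := by nlinarith
    nlinarith
  have hE'0 : (0 : ℝ) < E' := by linarith
  have hE'pos : 0 < E' := by exact_mod_cast hE'0
  have hmain := DL0 hχ h hB1 hBq hBχ T hT ν T0 E hEpos (by rw [← hE']; exact hE'pos)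
  rw [← hE'] at hmain
  rw [← hs]
  refine hmain.trans ?_
  have h1 : 2 * (q : ℝ) * T0 / E ≤ 2 * s := by
    rw [div_le_iff₀ hEr]
    nlinarith
  have h2 : 2 * (q : ℝ) * T0 / E' ≤ 4 * s := by
    rw [div_le_iff₀ hE'0]
    nlinarith
  have h3 : (1 : ℝ) ≤ 2 ^ T.card := one_le_pow₀ (by norm_num)
  have h4 : (2 : ℝ) ^ T.card * (2 * q * T0 / E + 2 * q * T0 / E' + E) ≤ 2 ^ T.card * (8 * s) :=
    mul_le_mul_of_nonneg_left (by linarith) (by positivity)
  nlinarith

/-- the character as an arithmetic function -/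
noncomputable def crA {q : ℕ} (χ : DirichletCharacter ℂ q) : ArithmeticFunction ℝ :=
  ⟨fun n => if n = 0 then 0 else cr χ n, by simp⟩

theorem crA_mult {q : ℕ} {χ : DirichletCharacter ℂ q} (h : χ ^ 2 = 1) : (crA χ).IsMultiplicative := by
  refine ⟨by simp [crA, cr_one], ?_⟩
  intro m n _
  change (if m * n = 0 then 0 else cr χ (m * n)) = (if m = 0 then 0 else cr χ m) * (if n = 0 then 0 else cr χ n)
  by_cases hm : m = 0
  · simp [hm]
  by_cases hn : n = 0
  · simp [hn]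
  rw [if_neg hm, if_neg hn, if_neg (Nat.mul_ne_zero hm hn), cr_mul h]

theorem rr_eq {q : ℕ} (χ : DirichletCharacter ℂ q) (n : ℕ) :
    rr χ n = (crA χ * (ArithmeticFunction.zeta : ArithmeticFunction ℝ)) n := by
  rw [ArithmeticFunction.coe_mul_zeta_apply]
  unfold rr
  apply sum_congr rfl
  intro e he
  change _ = (if e = 0 then 0 else cr χ e)
  rw [if_neg (Nat.pos_of_mem_divisors he).ne']

theorem rr_mul {q : ℕ} {χ : DirichletCharacter ℂ q} (h : χ ^ 2 = 1) {m n : ℕ} (hmn : m.Coprime n) :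
    rr χ (m * n) = rr χ m * rr χ n := by
  rw [rr_eq, rr_eq, rr_eq]
  exact ((crA_mult h).mul ArithmeticFunction.isMultiplicative_zeta.natCast).map_mul_of_coprime hmn

theorem cr_pow {q : ℕ} {χ : DirichletCharacter ℂ q} (h : χ ^ 2 = 1) (p i : ℕ) : cr χ (p ^ i) = cr χ p ^ i := by
  induction i with
  | zero => simp [cr_one]
  | succ i ih => rw [pow_succ, cr_mul h, ih, pow_succ]

theorem rr_pp {q : ℕ} {χ : DirichletCharacter ℂ q} (h : χ ^ 2 = 1) {p : ℕ} (hp : p.Prime) (k : ℕ) :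
    rr χ (p ^ k) = ∑ i ∈ range (k + 1), cr χ p ^ i := by
  unfold rr
  rw [Nat.sum_divisors_prime_pow hp]
  exact sum_congr rfl fun i _ => cr_pow h p i

theorem rr_pp_nonneg {q : ℕ} {χ : DirichletCharacter ℂ q} (h : χ ^ 2 = 1) {p : ℕ} (hp : p.Prime) (k : ℕ) :
    0 ≤ rr χ (p ^ k) := by
  rw [rr_pp h hp]
  rcases cr_vals h p with h1 | h1 | h1
  · rw [h1, sum_range_succ']
    simp
  · rw [h1]
    simp
    positivity
  · rw [h1]
    induction k using Nat.twoStepInduction with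
    | zero => simp
    | one => simp [sum_range_succ]
    | more k ih1 _ =>
      rw [sum_range_succ, sum_range_succ]
      have h2 : (-1 : ℝ) ^ (k + 1) + (-1) ^ (k + 1 + 1) = 0 := by
        rw [pow_succ (-1 : ℝ) (k + 1)]
        ring
      have h3 : ∑ i ∈ range (k + 1), (-1 : ℝ) ^ i + (-1) ^ (k + 1) + (-1) ^ (k + 1 + 1) = ∑ i ∈ range (k + 1), (-1 : ℝ) ^ i := by
        rw [add_assoc, h2, add_zero]
      rw [h3]
      exact ih1

theorem rr_nonneg {q : ℕ} {χ : DirichletCharacter ℂ q} (h : χ ^ 2 = 1) (n : ℕ) : 0 ≤ rr χ n := by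
  induction n using Nat.recOnPosPrimePosCoprime with
  | prime_pow p k hp _ => exact rr_pp_nonneg h hp k
  | zero => simp [rr]
  | one => simp [rr, cr_one]
  | coprime a b _ _ hab ha hb =>
    rw [rr_mul h hab]
    exact mul_nonneg ha hb

theorem rr_prime {q : ℕ} {χ : DirichletCharacter ℂ q} {p : ℕ} (hp : p.Prime) : rr χ p = 1 + cr χ p := by
  unfold rr
  rw [hp.divisors, sum_pair hp.one_lt.ne, cr_one]

theorem rr_le_tau {q : ℕ} {χ : DirichletCharacter ℂ q} (h : χ ^ 2 = 1) (n : ℕ) : rr χ n ≤ n.divisors.card := by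
  unfold rr
  calc ∑ e ∈ n.divisors, cr χ e ≤ ∑ e ∈ n.divisors, 1 := sum_le_sum fun e _ => (abs_le.1 (cr_abs h e)).2
    _ = n.divisors.card := by simp

/-- removing one prime -/
theorem rr_mul_prime {q : ℕ} {χ : DirichletCharacter ℂ q} (h : χ ^ 2 = 1) {p m : ℕ} (hp : p.Prime) (hm : 0 < m)
    (hχp : cr χ p = 1) : rr χ (p * m) ≤ 2 * rr χ m := by
  obtain ⟨a, m', hpm', rfl⟩ := Nat.exists_eq_pow_mul_and_not_dvd hm.ne' p hp.ne_one
  have hco : ∀ k : ℕ, (p ^ k).Coprime m' := fun k => Nat.Coprime.pow_left _ ((Nat.Prime.coprime_iff_not_dvd hp).2 hpm')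
  rw [← mul_assoc, ← pow_succ', rr_mul h (hco _), rr_mul h (hco _), rr_pp h hp, rr_pp h hp, hχp]
  simp only [one_pow, sum_const, card_range, nsmul_eq_mul, mul_one]
  push_cast
  have := rr_nonneg h m'
  have : (0 : ℝ) ≤ a := Nat.cast_nonneg a
  nlinarith

theorem rr_zero_of {q : ℕ} {χ : DirichletCharacter ℂ q} (h : χ ^ 2 = 1) {p m : ℕ} (hp : p.Prime) (hpm : ¬ p ∣ m)
    (hχp : cr χ p = -1) : rr χ (p * m) = 0 := by
  rw [rr_mul h ((Nat.Prime.coprime_iff_not_dvd hp).2 hpm), rr_prime hp, hχp]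
  ring

theorem hh_nonneg {q : ℕ} {χ : DirichletCharacter ℂ q} (h : χ ^ 2 = 1) (c : ℕ) {p : ℕ} (hp : p.Prime) :
    0 ≤ hh χ c p ∧ hh χ c p ≤ 2 := by
  have h1 : (2 : ℝ) ≤ p := by exact_mod_cast hp.two_le
  have h2 : 0 < 1 / (p : ℝ) := by positivity
  have h3 : 1 / (p : ℝ) ≤ 1 / 2 := one_div_le_one_div_of_le (by norm_num) h1
  unfold hh
  rcases cr_vals h p with h4 | h4 | h4 <;> rw [h4] <;> split_ifs <;> constructor <;> (try simp only [zero_div, neg_div]) <;> linarith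

/-- the sieve density -/
noncomputable def gg {q : ℕ} (χ : DirichletCharacter ℂ q) (B : ℕ) (H : ℕ → Finset ℕ) (p : ℕ) : ℝ :=
  (1 / (p : ℝ)) * ∑ c ∈ H p, hh χ (q * c + B) p

theorem gg_sub {q : ℕ} {χ : DirichletCharacter ℂ q} {B : ℕ} {H : ℕ → Finset ℕ} {p : ℕ}
    (hp : p.Prime) (hH : H p ⊆ range p) (hcl : ¬ p ∣ q → ∃ c ∈ H p, p ∣ q * c + B) (hBq : B.Coprime q) :
    1 - gg χ B H p = (1 - ((H p).card : ℝ) / p) * (1 - cr χ p / (p : ℝ)) := by
  have hp0 : (p : ℝ) ≠ 0 := by exact_mod_cast hp.ne_zero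
  unfold gg hh
  rw [sum_add_distrib, sum_const, nsmul_eq_mul]
  by_cases hpq : p ∣ q
  · have h0 : cr χ p = 0 := cr_zero_of_not_coprime χ (fun h => by
      have := Nat.dvd_gcd dvd_rfl hpq
      rw [h] at this
      exact hp.one_lt.ne' (Nat.dvd_one.1 this))
    rw [h0]
    simp
    ring
  · obtain ⟨c0, hc0, hd0⟩ := hcl hpq
    have h1 : ∑ c ∈ H p, (if p ∣ q * c + B then cr χ p else 0) = cr χ p := by
      rw [sum_eq_single c0]
      · rw [if_pos hd0]
      · intro c hc hne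
        rw [if_neg]
        intro hd
        apply hne
        have h2 : q * c + B ≡ q * c0 + B [MOD p] := ((Nat.modEq_zero_iff_dvd).2 hd).trans ((Nat.modEq_zero_iff_dvd).2 hd0).symm
        have h3 : c ≡ c0 [MOD p] := Nat.ModEq.cancel_left_of_coprime ((Nat.Prime.coprime_iff_not_dvd hp).2 hpq)
          (Nat.ModEq.add_right_cancel' _ h2)
        exact Nat.ModEq.eq_of_lt_of_lt h3 (mem_range.1 (hH hc)) (mem_range.1 (hH hc0))
      · intro hn
        exact absurd hc0 hn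
    rw [h1]
    field_simp
    ring

/-- sums over several classes -/
theorem DLH {q : ℕ} [NeZero q] {χ : DirichletCharacter ℂ q} (hχ : χ ≠ 1) (h : χ ^ 2 = 1) {B : ℕ} (hB1 : 1 ≤ B)
    (hBq : B ≤ q) (hBχ : cr χ B = 1) (H : ℕ → Finset ℕ) {κ : ℕ} (T0 : ℕ) (h16 : 16 ≤ q * T0) (T2 : Finset ℕ) :
    (∀ p ∈ T2, p.Prime) → (∀ p ∈ T2, H p ⊆ range p ∧ (H p).card ≤ κ) →
    ∀ (T1 : Finset ℕ) (c : ℕ → ℕ), (∀ p ∈ T1, p.Prime) → (∀ p ∈ T1, c p < p) → Disjoint T1 T2 →
    |∑ t ∈ (range T0).filter (fun t => (∀ p ∈ T1, t % p = c p) ∧ ∀ p ∈ T2, t % p ∈ H p), rr χ (q * t + B) -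
      2 * T0 * LV χ * ((∏ p ∈ T1, ((1 / (p : ℝ)) * hh χ (q * c p + B) p)) * ∏ p ∈ T2, gg χ B H p)| ≤
      (κ : ℝ) ^ T2.card * (13 * 2 ^ (T1.card + T2.card) * √((q : ℝ) * T0)) := by
  classical
  induction T2 using Finset.induction_on with
  | empty =>
    intro _ _ T1 c hT1 hc _
    obtain ⟨ν, _, hν⟩ := crt_ex (Q := 1) 0 T1 (fun p hp => ⟨hT1 p hp, fun hd => (hT1 p hp).one_lt.ne' (Nat.dvd_one.1 hd)⟩) c
    have h1 := DL hχ h hB1 hBq hBχ T1 hT1 ν T0 h16
    have hset : (range T0).filter (fun t => (∀ p ∈ T1, t % p = c p) ∧ ∀ p ∈ (∅ : Finset ℕ), t % p ∈ H p) =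
        (range T0).filter (fun t => t ≡ ν [MOD ∏ p ∈ T1, p]) := by
      apply filter_congr
      intro t _
      have h2 := modEq_prod (Q := 1) (n := t) (B' := ν) T1
        (fun p hp => ⟨hT1 p hp, fun hd => (hT1 p hp).one_lt.ne' (Nat.dvd_one.1 hd)⟩)
      rw [one_mul] at h2
      rw [h2]
      constructor
      · rintro ⟨a1, _⟩
        refine ⟨Nat.modEq_one, fun p hp => ?_⟩
        have h3 := a1 p hp
        have h4 : t ≡ c p [MOD p] := by
          unfold Nat.ModEq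
          rw [h3, Nat.mod_eq_of_lt (hc p hp)]
        exact h4.trans (hν p hp).symm
      · rintro ⟨_, a2⟩
        refine ⟨fun p hp => ?_, fun p hp => absurd hp (notMem_empty p)⟩
        have h4 : t ≡ c p [MOD p] := (a2 p hp).trans (hν p hp)
        unfold Nat.ModEq at h4
        rwa [Nat.mod_eq_of_lt (hc p hp)] at h4
    rw [hset]
    simp only [prod_empty, mul_one, card_empty, pow_zero, add_zero, one_mul]
    have h3 : 2 * (T0 : ℝ) / ((∏ p ∈ T1, p : ℕ) : ℝ) * (LV χ * ∏ p ∈ T1, hh χ (q * ν + B) p) =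
        2 * T0 * LV χ * ∏ p ∈ T1, ((1 / (p : ℝ)) * hh χ (q * c p + B) p) := by
      have h4 : ∀ p ∈ T1, hh χ (q * ν + B) p = hh χ (q * c p + B) p := by
        intro p hp
        unfold hh
        have h5 : q * ν + B ≡ q * c p + B [MOD p] := Nat.ModEq.add_right _ (Nat.ModEq.mul_left _ (hν p hp))
        have h6 : p ∣ q * ν + B ↔ p ∣ q * c p + B := by
          rw [← Nat.modEq_zero_iff_dvd, ← Nat.modEq_zero_iff_dvd]
          exact ⟨fun h => h5.symm.trans h, fun h => h5.trans h⟩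
        simp only [h6]
      rw [prod_congr rfl h4, prod_mul_distrib, prod_div_distrib]
      push_cast
      simp only [prod_const_one]
      ring
    rw [← h3]
    exact h1
  | insert r T2 hr ih =>
    intro hT2 hH T1 c hT1 hc hdis
    have hrT1 : r ∉ T1 := fun hh => (Finset.disjoint_left.1 hdis) hh (mem_insert_self _ _)
    have hdis' : Disjoint T1 T2 := hdis.mono_right (subset_insert _ _)
    have hrp := hT2 r (mem_insert_self _ _)
    have hHr := hH r (mem_insert_self _ _)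
    have hstep : ∀ x ∈ H r, |∑ t ∈ (range T0).filter (fun t => (∀ p ∈ insert r T1, t % p = (Function.update c r x) p) ∧ ∀ p ∈ T2, t % p ∈ H p), rr χ (q * t + B) -
        2 * T0 * LV χ * ((∏ p ∈ insert r T1, ((1 / (p : ℝ)) * hh χ (q * (Function.update c r x) p + B) p)) * ∏ p ∈ T2, gg χ B H p)| ≤
        (κ : ℝ) ^ T2.card * (13 * 2 ^ ((insert r T1).card + T2.card) * √((q : ℝ) * T0)) := by
      intro x hx
      apply ih (fun p hp => hT2 p (mem_insert_of_mem hp)) (fun p hp => hH p (mem_insert_of_mem hp))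
      · intro p hp
        rcases mem_insert.1 hp with rfl | hp'
        · exact hrp
        · exact hT1 p hp'
      · intro p hp
        rcases mem_insert.1 hp with rfl | hp'
        · rw [Function.update_self]
          exact mem_range.1 (hHr.1 hx)
        · rw [Function.update_of_ne (by rintro rfl; exact hrT1 hp')]
          exact hc p hp'
      · rw [Finset.disjoint_insert_left]
        exact ⟨hr, hdis'⟩
    have hsum : ∑ t ∈ (range T0).filter (fun t => (∀ p ∈ T1, t % p = c p) ∧ ∀ p ∈ insert r T2, t % p ∈ H p), rr χ (q * t + B) =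
        ∑ x ∈ H r, ∑ t ∈ (range T0).filter (fun t => (∀ p ∈ insert r T1, t % p = (Function.update c r x) p) ∧ ∀ p ∈ T2, t % p ∈ H p), rr χ (q * t + B) := by
      have hfib : ∀ t ∈ (range T0).filter (fun t => (∀ p ∈ T1, t % p = c p) ∧ ∀ p ∈ insert r T2, t % p ∈ H p), t % r ∈ H r := by
        intro t ht
        rw [mem_filter] at ht
        exact ht.2.2 r (mem_insert_self _ _)
      rw [← sum_fiberwise_of_maps_to hfib]
      apply sum_congr rfl
      intro x hx
      apply sum_congr _ fun _ _ => rfl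
      ext t
      rw [mem_filter, mem_filter, mem_filter]
      constructor
      · rintro ⟨⟨a1, a2, a3⟩, a4⟩
        refine ⟨a1, fun p hp => ?_, fun p hp => a3 p (mem_insert_of_mem hp)⟩
        rcases mem_insert.1 hp with rfl | hp'
        · rw [Function.update_self]
          exact a4
        · rw [Function.update_of_ne (by rintro rfl; exact hrT1 hp')]
          exact a2 p hp'
      · rintro ⟨a1, a2, a3⟩
        have a4 := a2 r (mem_insert_self _ _)
        rw [Function.update_self] at a4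
        refine ⟨⟨a1, fun p hp => ?_, fun p hp => ?_⟩, a4⟩
        · have := a2 p (mem_insert_of_mem hp)
          rwa [Function.update_of_ne (by rintro rfl; exact hrT1 hp)] at this
        · rcases mem_insert.1 hp with rfl | hp
          · rw [a4]
            exact hx
          · exact a3 p hp
    have hprod : 2 * T0 * LV χ * ((∏ p ∈ T1, ((1 / (p : ℝ)) * hh χ (q * c p + B) p)) * ∏ p ∈ insert r T2, gg χ B H p) =
        ∑ x ∈ H r, 2 * T0 * LV χ * ((∏ p ∈ insert r T1, ((1 / (p : ℝ)) * hh χ (q * (Function.update c r x) p + B) p)) * ∏ p ∈ T2, gg χ B H p) := by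
      have h1 : ∀ x ∈ H r, ∏ p ∈ insert r T1, ((1 / (p : ℝ)) * hh χ (q * (Function.update c r x) p + B) p) =
          ((1 / (r : ℝ)) * hh χ (q * x + B) r) * ∏ p ∈ T1, ((1 / (p : ℝ)) * hh χ (q * c p + B) p) := by
        intro x _
        rw [prod_insert hrT1, Function.update_self]
        congr 1
        apply prod_congr rfl
        intro p hp
        rw [Function.update_of_ne (by rintro rfl; exact hrT1 hp)]
      rw [sum_congr rfl (fun x hx => by rw [h1 x hx]), prod_insert hr]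
      unfold gg
      rw [mul_sum, sum_mul, mul_sum, mul_sum]
      apply sum_congr rfl
      intro x _
      ring
    rw [hsum, hprod, ← sum_sub_distrib]
    refine (abs_sum_le_sum_abs _ _).trans ((sum_le_sum hstep).trans ?_)
    rw [sum_const, nsmul_eq_mul, card_insert_of_notMem hrT1, card_insert_of_notMem hr]
    have h2 : ((H r).card : ℝ) ≤ κ := by exact_mod_cast hHr.2
    have h3 : T1.card + 1 + T2.card = T1.card + (T2.card + 1) := by ring
    rw [h3]
    calc ((H r).card : ℝ) * ((κ : ℝ) ^ T2.card * (13 * 2 ^ (T1.card + (T2.card + 1)) * √((q : ℝ) * T0))) ≤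
          (κ : ℝ) * ((κ : ℝ) ^ T2.card * (13 * 2 ^ (T1.card + (T2.card + 1)) * √((q : ℝ) * T0))) := by gcongr
      _ = _ := by ring

end Pool.Agent.H536.OB
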