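import Mathlib
import Pool.Agent.H536.OB.E4

open Finset Filter Topology

/-! The sieve for `1 * χ`: the fundamental lemma. -/

namespace Pool.Agent.H536.OB

/-- the product of the sieve -/
noncomputable def VV {q : ℕ} (χ : DirichletCharacter ℂ q) (P : Finset ℕ) (H : ℕ → Finset ℕ) : ℝ :=
  ∏ p ∈ P, ((1 - ((H p).card : ℝ) / p) * (1 - cr χ p / (p : ℝ)))

open Classical in
/-- the sifted sum -/
noncomputable def SS {q : ℕ} (χ : DirichletCharacter ℂ q) (B T0 : ℕ) (P : Finset ℕ) (H : ℕ → Finset ℕ) : ℝ :=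
  ∑ t ∈ (range T0).filter (fun t => ∀ p ∈ P, t % p ∉ H p), rr χ (q * t + B)

open Classical in
theorem SVE (κ : ℕ) : ∃ C : ℕ, 1 ≤ C ∧ ∀ (b J z0 : ℕ) (P : Finset ℕ), C ≤ b → C ≤ z0 →
    (∀ p ∈ P, p.Prime ∧ z0 < p ∧ p ≤ 2 ^ 2 ^ J) → ∀ (q : ℕ) [NeZero q] (χ : DirichletCharacter ℂ q), χ ≠ 1 → χ ^ 2 = 1 →
    ∀ (B : ℕ) (H : ℕ → Finset ℕ) (T0 : ℕ), 1 ≤ B → B ≤ q → B.Coprime q → cr χ B = 1 →
    (∀ p ∈ P, H p ⊆ range p ∧ (H p).card ≤ κ ∧ (¬ p ∣ q → ∃ c ∈ H p, p ∣ q * c + B)) → 16 ≤ q * T0 →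
    |SS χ B T0 P H - 2 * T0 * LV χ * VV χ P H| ≤ (1 / 2 : ℝ) ^ b * (2 * T0 * LV χ * VV χ P H) +
      (J + 2) * (13 * (((2 ^ 2 ^ J) ^ (C * b) : ℕ) : ℝ) ^ 2 * √((q : ℝ) * T0)) := by
  obtain ⟨C0, hC0, hfl⟩ := Pool.Agent.TH423.SH.fLemC
  refine ⟨C0 * (2 * κ + 1) + 4 * κ, by nlinarith, ?_⟩
  intro b J z0 P hb hz0 hP q _ χ hχ h B H T0 hB1 hBq hBco hBχ hH h16
  have hg : ∀ p ∈ P, 1 - gg χ B H p = (1 - ((H p).card : ℝ) / p) * (1 - cr χ p / (p : ℝ)) := fun p hp =>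
    gg_sub (hP p hp).1 (hH p hp).1 (hH p hp).2.2 hBco
  have hg0 : ∀ p ∈ P, 0 ≤ gg χ B H p ∧ gg χ B H p ≤ ((2 * κ : ℕ) : ℝ) / ((p : ℝ) - 1) := by
    intro p hp
    have hpp := (hP p hp).1
    have h2 : (2 : ℝ) ≤ p := by exact_mod_cast hpp.two_le
    unfold gg
    constructor
    · apply mul_nonneg (by positivity)
      exact sum_nonneg fun c _ => (hh_nonneg h _ hpp).1
    · have h3 : ∑ c ∈ H p, hh χ (q * c + B) p ≤ 2 * κ := by
        calc ∑ c ∈ H p, hh χ (q * c + B) p ≤ ∑ c ∈ H p, 2 := sum_le_sum fun c _ => (hh_nonneg h _ hpp).2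
          _ = (H p).card * 2 := by rw [sum_const, nsmul_eq_mul]
          _ ≤ κ * 2 := by
              have : ((H p).card : ℝ) ≤ κ := by exact_mod_cast (hH p hp).2.1
              linarith
          _ = 2 * κ := by ring
      push_cast
      have hκ : (0 : ℝ) ≤ 2 * κ := by positivity
      calc 1 / (p : ℝ) * ∑ c ∈ H p, hh χ (q * c + B) p ≤ 1 / (p : ℝ) * (2 * κ) :=
            mul_le_mul_of_nonneg_left h3 (by positivity)
        _ = 2 * κ / p := by ring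
        _ ≤ 2 * κ / ((p : ℝ) - 1) := div_le_div_of_nonneg_left hκ (by linarith) (by linarith)
  have hL : 0 < LV χ := LV_pos hχ h
  have hA : 0 ≤ 2 * T0 * LV χ := by positivity
  have hmain := hfl (2 * κ) b J z0 P (gg χ B H) (by omega) (by omega) hP hg0 (range T0) (fun t => rr χ (q * t + B))
    (fun p t => t % p ∈ H p) (2 * T0 * LV χ) (fun T => (κ : ℝ) ^ T.card * (13 * 2 ^ T.card * √((q : ℝ) * T0)))
    (fun t _ => rr_nonneg h _) hA (by
      intro T hT _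
      have h1 := DLH hχ h hB1 hBq hBχ H (κ := κ) T0 h16 T (fun p hp => (hP p (hT hp)).1)
        (fun p hp => ⟨(hH p (hT hp)).1, (hH p (hT hp)).2.1⟩) ∅ (fun _ => 0) (fun p hp => absurd hp (notMem_empty p))
        (fun p hp => absurd hp (notMem_empty p)) (Finset.disjoint_empty_left _)
      simp only [prod_empty, one_mul, card_empty, zero_add, notMem_empty, IsEmpty.forall_iff, implies_true, true_and] at h1
      convert h1)
  have hV : ∏ p ∈ P, (1 - gg χ B H p) = VV χ P H := by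
    unfold VV
    exact prod_congr rfl hg
  rw [hV] at hmain
  have hmain' : |SS χ B T0 P H - 2 * T0 * LV χ * VV χ P H| ≤ (1 / 2 : ℝ) ^ b * (2 * T0 * LV χ * VV χ P H) +
      (J + 2) * ∑ T ∈ P.powerset.filter (fun T : Finset ℕ => ∏ p ∈ T, p ≤ (2 ^ 2 ^ J) ^ (C0 * b)),
        (κ : ℝ) ^ T.card * (13 * 2 ^ T.card * √((q : ℝ) * T0)) := by
    unfold SS
    convert hmain
  refine hmain'.trans ?_
  apply add_le_add le_rfl
  apply mul_le_mul_of_nonneg_left _ (by positivity)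
  -- the error sum
  set Lev := (2 ^ 2 ^ J) ^ (C0 * b) with hLev
  have hLev' : Lev ≤ (2 ^ 2 ^ J) ^ ((C0 * (2 * κ + 1) + 4 * κ) * b) := by
    apply Nat.pow_le_pow_right (by positivity)
    apply Nat.mul_le_mul_right
    nlinarith
  have h1 : ∀ T ∈ P.powerset.filter (fun T : Finset ℕ => ∏ p ∈ T, p ≤ Lev),
      (κ : ℝ) ^ T.card * (13 * 2 ^ T.card * √((q : ℝ) * T0)) ≤ 13 * Lev * √((q : ℝ) * T0) := by
    intro T hT
    rw [mem_filter, mem_powerset] at hT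
    have h2 : (2 * κ) ^ T.card ≤ ∏ p ∈ T, p := by
      rw [← prod_const]
      apply Finset.prod_le_prod'
      intro p hp
      have := (hP p (hT.1 hp)).2.1
      omega
    have h3 : ((2 * κ) ^ T.card : ℝ) ≤ Lev := by exact_mod_cast h2.trans hT.2
    calc (κ : ℝ) ^ T.card * (13 * 2 ^ T.card * √((q : ℝ) * T0)) = 13 * (2 * κ) ^ T.card * √((q : ℝ) * T0) := by
          rw [mul_pow]; ring
      _ ≤ 13 * Lev * √((q : ℝ) * T0) := by gcongr
  refine (sum_le_sum h1).trans ?_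
  rw [sum_const, nsmul_eq_mul]
  have h2 : (P.powerset.filter (fun T : Finset ℕ => ∏ p ∈ T, p ≤ Lev)).card ≤ Lev := by
    have h3 : (P.powerset.filter (fun T : Finset ℕ => ∏ p ∈ T, p ≤ Lev)).card ≤ (Icc 1 Lev).card := by
      apply card_le_card_of_injOn (fun T => ∏ p ∈ T, p)
      · intro T hT
        rw [mem_coe, mem_filter, mem_powerset] at hT
        rw [mem_coe, mem_Icc]
        exact ⟨Nat.pos_of_ne_zero (prod_ne_zero_iff.2 fun p hp => (hP p (hT.1 hp)).1.ne_zero), hT.2⟩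
      · intro T hT T' hT' hTT
        rw [mem_coe, mem_filter, mem_powerset] at hT hT'
        exact prod_mem_inj (fun p hp => (hP p (hT.1 hp)).1) (fun p hp => (hP p (hT'.1 hp)).1) hTT
    rwa [Nat.card_Icc, Nat.add_sub_cancel] at h3
  have h3 : ((P.powerset.filter (fun T : Finset ℕ => ∏ p ∈ T, p ≤ Lev)).card : ℝ) ≤ Lev := by exact_mod_cast h2
  have h4 : (Lev : ℝ) ≤ (((2 ^ 2 ^ J) ^ ((C0 * (2 * κ + 1) + 4 * κ) * b) : ℕ) : ℝ) := by exact_mod_cast hLev'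
  calc ((P.powerset.filter (fun T : Finset ℕ => ∏ p ∈ T, p ≤ Lev)).card : ℝ) * (13 * Lev * √((q : ℝ) * T0)) ≤
        Lev * (13 * Lev * √((q : ℝ) * T0)) := by gcongr
    _ = 13 * (Lev : ℝ) ^ 2 * √((q : ℝ) * T0) := by ring
    _ ≤ _ := by gcongr

end Pool.Agent.H536.OB
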