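import Mathlib
import Pool.Agent.H536.OB.E5

open Finset Filter Topology

/-! Products over primes, and the bound for the sum over the primes with `χ(p) = 1`: products. -/

namespace Pool.Agent.H536.OB

open Pool.Agent.H318R2.Cr (V Pz mem_Pz V_pos cz_bounds one_sub_inv_pos)
open Pool.Agent.H262R3.Lk (wM)

theorem VV_low (κ : ℕ) : ∃ c : ℝ, 0 < c ∧ ∀ (q : ℕ) (χ : DirichletCharacter ℂ q) (P : Finset ℕ) (H : ℕ → Finset ℕ) (z : ℕ), χ ^ 2 = 1 →
    2 ≤ z → (∀ p ∈ P, p.Prime ∧ 2 * κ + 2 ≤ p ∧ p ≤ z) → (∀ p ∈ P, (H p).card ≤ κ) →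
    (c / Real.log z) ^ (2 * κ + 1) ≤ VV χ P H := by
  obtain ⟨c1, c2, hc1, _, h⟩ := cz_bounds
  refine ⟨c1, hc1, fun q χ P H z hχ hz hP hH => ?_⟩
  have hlog : 0 < Real.log z := Real.log_pos (by exact_mod_cast hz)
  have h1 := (h z hz).1
  have h2 : c1 / Real.log z ≤ V z := by rwa [div_le_iff₀ hlog]
  have h3 : V z ≤ ∏ p ∈ P, (1 - 1 / (p : ℝ)) := by
    unfold V
    have hsub : P ⊆ Pz z := fun p hp => mem_Pz.2 ⟨(hP p hp).1, (hP p hp).2.2⟩
    rw [← prod_sdiff hsub]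
    have h4 : ∏ p ∈ Pz z \ P, (1 - 1 / (p : ℝ)) ≤ 1 := by
      apply prod_le_one
      · intro p hp
        exact (one_sub_inv_pos (mem_Pz.1 (Finset.mem_sdiff.1 hp).1).1).le
      · intro p hp
        have : 0 ≤ 1 / (p : ℝ) := by positivity
        linarith
    have h5 : 0 ≤ ∏ p ∈ P, (1 - 1 / (p : ℝ)) := prod_nonneg fun p hp => (one_sub_inv_pos (hP p hp).1).le
    nlinarith
  calc (c1 / Real.log z) ^ (2 * κ + 1) ≤ (∏ p ∈ P, (1 - 1 / (p : ℝ))) ^ (2 * κ + 1) :=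
        pow_le_pow_left₀ (by positivity) (h2.trans h3) _
    _ = ∏ p ∈ P, (1 - 1 / (p : ℝ)) ^ (2 * κ + 1) := by rw [prod_pow]
    _ ≤ VV χ P H := by
        unfold VV
        apply Finset.prod_le_prod
        · intro p hp
          exact pow_nonneg (one_sub_inv_pos (hP p hp).1).le _
        · intro p hp
          have hpp := (hP p hp).1
          have hp2 : (2 : ℝ) ≤ p := by exact_mod_cast hpp.two_le
          rw [pow_succ]
          have g1 := factor_low (hH p hp) (hP p hp).2.1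
          have g2 : 1 - ((H p).card : ℝ) * (1 / ((p : ℝ) - 1)) ≤ 1 - ((H p).card : ℝ) / p := by
            have : ((H p).card : ℝ) / p ≤ ((H p).card : ℝ) * (1 / ((p : ℝ) - 1)) := by
              rw [mul_one_div]
              exact div_le_div_of_nonneg_left (Nat.cast_nonneg _) (by linarith) (by linarith)
            linarith
          have g3 : 1 - 1 / (p : ℝ) ≤ 1 - cr χ p / (p : ℝ) := by
            have : cr χ p / (p : ℝ) ≤ 1 / p := div_le_div_of_nonneg_right (abs_le.1 (cr_abs hχ p)).2 (by linarith)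
            linarith
          have g4 : 0 ≤ (1 - 1 / (p : ℝ)) ^ (2 * κ) := pow_nonneg (one_sub_inv_pos hpp).le _
          exact mul_le_mul (g1.trans g2) g3 (one_sub_inv_pos hpp).le (g4.trans (g1.trans g2))

/-- comparison of the products of the character -/
theorem cmp_ell : ∃ K : ℝ, 1 ≤ K ∧ ∀ (q : ℕ) [NeZero q] (χ : DirichletCharacter ℂ q) (z z' : ℕ) (P : Finset ℕ), χ ≠ 1 → χ ^ 2 = 1 →
    2 ≤ z' → z' ≤ z → P ⊆ Pz z' → (∀ p ∈ Pz z', p ∉ P → p ∣ q) →
    LV χ * ∏ p ∈ P, (1 - cr χ p / (p : ℝ)) ≤ K * (Real.log z / Real.log z') * ell z χ := by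
  obtain ⟨c1, c2, hc1, hc12, h⟩ := cz_bounds
  have hc2 : 0 < c2 := by linarith
  refine ⟨c2 / c1, (one_le_div hc1).2 hc12, fun q _ χ z z' P hχ hχ2 hz' hzz hP hPq => ?_⟩
  have hz : 2 ≤ z := hz'.trans hzz
  have hlogz : 0 < Real.log z := Real.log_pos (by exact_mod_cast hz)
  have hlogz' : 0 < Real.log z' := Real.log_pos (by exact_mod_cast hz')
  have hsub : Pz z' ⊆ Pz z := fun p hp => mem_Pz.2 ⟨(mem_Pz.1 hp).1, (mem_Pz.1 hp).2.trans hzz⟩
  have hL := LV_pos hχ hχ2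
  have hfac : ∀ p ∈ Pz z, 0 < 1 - cr χ p / (p : ℝ) := fun p hp => fac_pos hχ2 (mem_Pz.1 hp).1
  have e1 : ∏ p ∈ Pz z, (1 - cr χ p / (p : ℝ)) = (∏ p ∈ Pz z \ Pz z', (1 - cr χ p / (p : ℝ))) *
      ((∏ p ∈ Pz z' \ P, (1 - cr χ p / (p : ℝ))) * ∏ p ∈ P, (1 - cr χ p / (p : ℝ))) := by
    rw [prod_sdiff hP, prod_sdiff hsub]
  have e2 : ∏ p ∈ Pz z' \ P, (1 - cr χ p / (p : ℝ)) = 1 := by
    apply prod_eq_one
    intro p hp
    rw [Finset.mem_sdiff] at hp
    have h1 := hPq p hp.1 hp.2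
    have h2 : cr χ p = 0 := cr_zero_of_not_coprime χ (fun h => by
      have := Nat.dvd_gcd dvd_rfl h1
      rw [h] at this
      exact (mem_Pz.1 hp.1).1.one_lt.ne' (Nat.dvd_one.1 this))
    rw [h2]
    simp
  have e3 : V z / V z' ≤ ∏ p ∈ Pz z \ Pz z', (1 - cr χ p / (p : ℝ)) := by
    have h1 : V z = (∏ p ∈ Pz z \ Pz z', (1 - 1 / (p : ℝ))) * V z' := by
      unfold V
      rw [prod_sdiff hsub]
    rw [h1, mul_div_cancel_right₀ _ (V_pos z').ne']
    apply Finset.prod_le_prod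
    · intro p hp
      exact (one_sub_inv_pos (mem_Pz.1 (Finset.mem_sdiff.1 hp).1).1).le
    · intro p hp
      have hp2 : (2 : ℝ) ≤ p := by exact_mod_cast (mem_Pz.1 (Finset.mem_sdiff.1 hp).1).1.two_le
      have : cr χ p / (p : ℝ) ≤ 1 / p := div_le_div_of_nonneg_right (abs_le.1 (cr_abs hχ2 p)).2 (by linarith)
      linarith
  have e4 : c1 / c2 * (Real.log z' / Real.log z) ≤ V z / V z' := by
    have h1 := (h z hz).1
    have h2 := (h z' hz').2
    rw [le_div_iff₀ (V_pos z')]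
    have h3 : c1 / Real.log z ≤ V z := by rwa [div_le_iff₀ hlogz]
    refine le_trans ?_ h3
    calc c1 / c2 * (Real.log z' / Real.log z) * V z' = c1 / (c2 * Real.log z) * (V z' * Real.log z') := by field_simp
      _ ≤ c1 / (c2 * Real.log z) * c2 := mul_le_mul_of_nonneg_left h2 (by positivity)
      _ = c1 / Real.log z := by field_simp
  have hPpos : 0 < ∏ p ∈ P, (1 - cr χ p / (p : ℝ)) := prod_pos fun p hp => hfac p (hsub (hP hp))
  have e5 : c1 / c2 * (Real.log z' / Real.log z) * (LV χ * ∏ p ∈ P, (1 - cr χ p / (p : ℝ))) ≤ ell z χ := by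
    unfold ell
    rw [e1, e2, one_mul]
    calc c1 / c2 * (Real.log z' / Real.log z) * (LV χ * ∏ p ∈ P, (1 - cr χ p / (p : ℝ))) ≤
          (∏ p ∈ Pz z \ Pz z', (1 - cr χ p / (p : ℝ))) * (LV χ * ∏ p ∈ P, (1 - cr χ p / (p : ℝ))) :=
          mul_le_mul_of_nonneg_right (e4.trans e3) (by positivity)
      _ = _ := by ring
  have e6 : c2 / c1 * (Real.log z / Real.log z') * (c1 / c2 * (Real.log z' / Real.log z) * (LV χ * ∏ p ∈ P, (1 - cr χ p / (p : ℝ)))) =
      LV χ * ∏ p ∈ P, (1 - cr χ p / (p : ℝ)) := by field_simp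
  rw [← e6]
  exact mul_le_mul_of_nonneg_left e5 (by positivity)

/-- comparison of the products without character -/
theorem cmp_V : ∃ K : ℝ, 1 ≤ K ∧ ∀ (q z' : ℕ) (P : Finset ℕ), 0 < q → 2 ≤ z' → (∀ p ∈ P, p.Prime ∧ ¬ p ∣ q) →
    (∀ p ∈ Pz z', p ∉ P → p ∣ q) → (q.totient : ℝ) * ∏ p ∈ P, (1 - 1 / (p : ℝ)) ≤ K * q / Real.log z' := by
  obtain ⟨c1, c2, hc1, hc12, h⟩ := cz_bounds
  have hc2 : 0 < c2 := by linarith
  refine ⟨c2 + 1, by linarith, fun q z' P hq hz' hP hPq => ?_⟩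
  have hlogz' : 0 < Real.log z' := Real.log_pos (by exact_mod_cast hz')
  have hqr : (0 : ℝ) < q := by exact_mod_cast hq
  have h60 : (q.totient : ℝ) = q * ∏ p ∈ q.primeFactors, (1 - 1 / (p : ℝ)) := by
    have h61 := congrArg (fun x : ℚ => (x : ℝ)) (Nat.totient_eq_mul_prod_factors q)
    push_cast at h61
    simp only [one_div]
    exact h61
  have hdis : Disjoint q.primeFactors P := by
    rw [Finset.disjoint_left]
    intro p hp hpP
    exact (hP p hpP).2 (Nat.dvd_of_mem_primeFactors hp)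
  have h1 : (∏ p ∈ q.primeFactors, (1 - 1 / (p : ℝ))) * ∏ p ∈ P, (1 - 1 / (p : ℝ)) ≤ V z' := by
    rw [← prod_union hdis]
    unfold V
    have hsub : Pz z' ⊆ q.primeFactors ∪ P := by
      intro p hp
      rw [mem_union]
      by_cases hpP : p ∈ P
      · exact Or.inr hpP
      · exact Or.inl (Nat.mem_primeFactors.2 ⟨(mem_Pz.1 hp).1, hPq p hp hpP, hq.ne'⟩)
    rw [← prod_sdiff hsub]
    have hpr : ∀ p ∈ q.primeFactors ∪ P, p.Prime := by
      intro p hp
      rcases mem_union.1 hp with hp | hp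
      · exact Nat.prime_of_mem_primeFactors hp
      · exact (hP p hp).1
    have h4 : ∏ p ∈ (q.primeFactors ∪ P) \ Pz z', (1 - 1 / (p : ℝ)) ≤ 1 := by
      apply prod_le_one
      · intro p hp
        exact (one_sub_inv_pos (hpr p (Finset.mem_sdiff.1 hp).1)).le
      · intro p hp
        have : 0 ≤ 1 / (p : ℝ) := by positivity
        linarith
    have h5 : 0 ≤ ∏ p ∈ Pz z', (1 - 1 / (p : ℝ)) := prod_nonneg fun p hp => (one_sub_inv_pos (mem_Pz.1 hp).1).le
    nlinarith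
  have h2 := (h z' hz').2
  have h3 : V z' ≤ c2 / Real.log z' := by rwa [le_div_iff₀ hlogz']
  rw [h60, mul_assoc]
  calc (q : ℝ) * ((∏ p ∈ q.primeFactors, (1 - 1 / (p : ℝ))) * ∏ p ∈ P, (1 - 1 / (p : ℝ))) ≤ q * (c2 / Real.log z') :=
        mul_le_mul_of_nonneg_left (h1.trans h3) hqr.le
    _ = c2 * q / Real.log z' := by ring
    _ ≤ (c2 + 1) * q / Real.log z' := by
        apply div_le_div_of_nonneg_right _ hlogz'.le
        nlinarith

end Pool.Agent.H536.OB
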