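import Mathlib
import Pool.Agent.H536.OB.N3

open Finset Filter

/-! The decomposition of the sifted sum, and asymptotic facts. -/

namespace Pool.Agent.H536.OB

open Pool.Agent.H262R3.Lk Pool.Agent.H378R2

open Classical in
theorem decomp {k : ℕ} (Y : ℝ) (Q B : ℕ) (P : Finset ℕ) (Om : ℕ → Finset ℕ) (y1 : ℕ) (PA Mid : Finset ℕ)
    (H : Fin k → ℕ → ℕ → Prop) (R1 : ℕ) (hR1 : 0 < R1)
    (hyp : ∀ n : ℕ, (n : ℝ) ≤ 3 * Y → n ≡ B [MOD Q] → (∀ p ∈ P, n % p ∉ Om p) → n.Prime → y1 < n →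
      (∃ i, ∃ p ∈ PA, H i p n) ∨ (∃ i, ∃ l ∈ Mid, H i (l ^ 2) n) ∨ (∃ i, R1 ≤ (Mid.filter (fun l => H i l n)).card))
    (hY : 0 ≤ Y) :
    SF Y Q B P Om ≤ ∑ n ∈ (Icc 1 ⌊3 * Y⌋₊).filter (fun n => ¬ n.Prime), Phi (n / Y) * ArithmeticFunction.vonMangoldt n +
      ∑ n ∈ Icc 1 y1, Phi (n / Y) * ArithmeticFunction.vonMangoldt n +
      ∑ i : Fin k, ∑ p ∈ PA, US Y Q B P Om (fun n => n.Prime ∧ y1 < n ∧ H i p n) +
      ∑ i : Fin k, ∑ l ∈ Mid, US Y Q B P Om (fun n => n.Prime ∧ y1 < n ∧ H i (l ^ 2) n) +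
      (1 / (R1 : ℝ)) * ∑ i : Fin k, ∑ l ∈ Mid, US Y Q B P Om (fun n => n.Prime ∧ y1 < n ∧ H i l n) := by
  set S := ((Icc 1 ⌊3 * Y⌋₊).filter (fun n => n ≡ B [MOD Q])).filter (fun n => ∀ p ∈ P, n % p ∉ Om p) with hS
  set w : ℕ → ℝ := fun n => Phi (n / Y) * ArithmeticFunction.vonMangoldt n with hw
  have hw0 : ∀ n, 0 ≤ w n := fun n => wgt_nonneg Y n
  have hR : (0 : ℝ) < R1 := by exact_mod_cast hR1
  have hUS : ∀ G : ℕ → Prop, US Y Q B P Om G = ∑ n ∈ S, if G n then w n else 0 := by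
    intro G
    unfold US
    rw [← hS, sum_filter]
  have e1 : ∑ n ∈ (Icc 1 ⌊3 * Y⌋₊).filter (fun n => ¬ n.Prime), w n ≥ ∑ n ∈ S, if ¬ n.Prime then w n else 0 := by
    rw [← sum_filter]
    apply sum_le_sum_of_subset_of_nonneg
    · intro n hn
      rw [mem_filter, hS, mem_filter, mem_filter] at hn
      rw [mem_filter]
      exact ⟨hn.1.1.1, hn.2⟩
    · intro n _ _
      exact hw0 n
  have e2 : ∑ n ∈ Icc 1 y1, w n ≥ ∑ n ∈ S, if n ≤ y1 then w n else 0 := by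
    rw [← sum_filter]
    apply sum_le_sum_of_subset_of_nonneg
    · intro n hn
      rw [mem_filter, hS, mem_filter, mem_filter, mem_Icc] at hn
      rw [mem_Icc]
      exact ⟨hn.1.1.1.1, hn.2⟩
    · intro n _ _
      exact hw0 n
  have e3 : ∑ i : Fin k, ∑ p ∈ PA, US Y Q B P Om (fun n => n.Prime ∧ y1 < n ∧ H i p n) =
      ∑ n ∈ S, ∑ i : Fin k, ∑ p ∈ PA, if n.Prime ∧ y1 < n ∧ H i p n then w n else 0 := by
    simp only [hUS]
    rw [Finset.sum_comm (s := S)]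
    apply sum_congr rfl
    intro i _
    rw [Finset.sum_comm]
    refine sum_congr rfl fun n _ => sum_congr rfl fun p _ => ?_
    congr
  have e4 : ∑ i : Fin k, ∑ l ∈ Mid, US Y Q B P Om (fun n => n.Prime ∧ y1 < n ∧ H i (l ^ 2) n) =
      ∑ n ∈ S, ∑ i : Fin k, ∑ l ∈ Mid, if n.Prime ∧ y1 < n ∧ H i (l ^ 2) n then w n else 0 := by
    simp only [hUS]
    rw [Finset.sum_comm (s := S)]
    apply sum_congr rfl
    intro i _
    rw [Finset.sum_comm]
    refine sum_congr rfl fun n _ => sum_congr rfl fun p _ => ?_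
    congr
  have e5 : ∑ i : Fin k, ∑ l ∈ Mid, US Y Q B P Om (fun n => n.Prime ∧ y1 < n ∧ H i l n) =
      ∑ n ∈ S, ∑ i : Fin k, ∑ l ∈ Mid, if n.Prime ∧ y1 < n ∧ H i l n then w n else 0 := by
    simp only [hUS]
    rw [Finset.sum_comm (s := S)]
    apply sum_congr rfl
    intro i _
    rw [Finset.sum_comm]
    refine sum_congr rfl fun n _ => sum_congr rfl fun p _ => ?_
    congr
  have hSF : SF Y Q B P Om = ∑ n ∈ S, w n := rfl
  rw [hSF, e3, e4, e5, mul_sum]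
  refine le_trans ?_ (add_le_add (add_le_add (add_le_add (add_le_add e1 e2) le_rfl) le_rfl) le_rfl)
  rw [← sum_add_distrib, ← sum_add_distrib, ← sum_add_distrib, ← sum_add_distrib]
  apply sum_le_sum
  intro n hn
  rw [hS, mem_filter, mem_filter, mem_Icc] at hn
  have it0 : ∀ (G : Prop) [Decidable G], 0 ≤ (if G then w n else 0) := by
    intro G _
    split_ifs
    · exact hw0 n
    · exact le_rfl
  have n1 : 0 ≤ (if ¬ n.Prime then w n else 0) := it0 _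
  have n2 : 0 ≤ (if n ≤ y1 then w n else 0) := it0 _
  have n3 : 0 ≤ ∑ i : Fin k, ∑ p ∈ PA, (if n.Prime ∧ y1 < n ∧ H i p n then w n else 0) :=
    sum_nonneg fun i _ => sum_nonneg fun p _ => it0 _
  have n4 : 0 ≤ ∑ i : Fin k, ∑ l ∈ Mid, (if n.Prime ∧ y1 < n ∧ H i (l ^ 2) n then w n else 0) :=
    sum_nonneg fun i _ => sum_nonneg fun p _ => it0 _
  have n5 : 0 ≤ ∑ i : Fin k, ∑ l ∈ Mid, (if n.Prime ∧ y1 < n ∧ H i l n then w n else 0) :=
    sum_nonneg fun i _ => sum_nonneg fun p _ => it0 _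
  have n5' : 0 ≤ (1 / (R1 : ℝ)) * ∑ i : Fin k, ∑ l ∈ Mid, (if n.Prime ∧ y1 < n ∧ H i l n then w n else 0) :=
    mul_nonneg (by positivity) n5
  by_cases hp : n.Prime
  · by_cases hy : n ≤ y1
    · have : (if n ≤ y1 then w n else 0) = w n := if_pos hy
      linarith
    · push Not at hy
      have hn3 : (n : ℝ) ≤ 3 * Y := by
        have := hn.1.1.2
        exact (Nat.le_floor_iff (by linarith)).1 this
      rcases hyp n hn3 hn.1.2 hn.2 hp hy with ⟨i, p, hpA, hH⟩ | ⟨i, l, hl, hH⟩ | ⟨i, hc⟩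
      · have h1 : w n ≤ ∑ p ∈ PA, (if n.Prime ∧ y1 < n ∧ H i p n then w n else 0) := by
          have := single_le_sum (f := fun p => if n.Prime ∧ y1 < n ∧ H i p n then w n else 0)
            (fun p _ => it0 _) hpA
          simp only [hp, hy, hH, and_self, if_true] at this
          simpa only [hp, hy, true_and] using this
        have h2 := single_le_sum (f := fun i => ∑ p ∈ PA, (if n.Prime ∧ y1 < n ∧ H i p n then w n else 0))
          (fun i _ => sum_nonneg fun p _ => it0 _) (mem_univ i)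
        have h3 := h1.trans h2
        linarith
      · have h1 : w n ≤ ∑ l ∈ Mid, (if n.Prime ∧ y1 < n ∧ H i (l ^ 2) n then w n else 0) := by
          have := single_le_sum (f := fun l => if n.Prime ∧ y1 < n ∧ H i (l ^ 2) n then w n else 0)
            (fun p _ => it0 _) hl
          simp only [hp, hy, hH, and_self, if_true] at this
          simpa only [hp, hy, true_and] using this
        have h2 := single_le_sum (f := fun i => ∑ l ∈ Mid, (if n.Prime ∧ y1 < n ∧ H i (l ^ 2) n then w n else 0))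
          (fun i _ => sum_nonneg fun p _ => it0 _) (mem_univ i)
        have h3 := h1.trans h2
        linarith
      · have h1 : (R1 : ℝ) * w n ≤ ∑ l ∈ Mid, (if n.Prime ∧ y1 < n ∧ H i l n then w n else 0) := by
          simp only [hp, hy, true_and]
          rw [← sum_filter, sum_const, nsmul_eq_mul]
          apply mul_le_mul_of_nonneg_right _ (hw0 n)
          exact_mod_cast hc
        have h2 := single_le_sum (f := fun i => ∑ l ∈ Mid, (if n.Prime ∧ y1 < n ∧ H i l n then w n else 0))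
          (fun i _ => sum_nonneg fun p _ => it0 _) (mem_univ i)
        have h3 := h1.trans h2
        have h4 : w n ≤ (1 / (R1 : ℝ)) * ∑ i : Fin k, ∑ l ∈ Mid, (if n.Prime ∧ y1 < n ∧ H i l n then w n else 0) := by
          rw [one_div, ← div_eq_inv_mul, le_div_iff₀ hR, mul_comm]
          exact h3
        linarith
  · have : (if ¬ n.Prime then w n else 0) = w n := if_pos hp
    linarith

theorem poly_log (C : ℝ) (n : ℕ) {ε : ℝ} (hε : 0 < ε) : ∀ᶠ X : ℝ in atTop, C * (Real.log X) ^ n ≤ X ^ ε := by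
  have h1 := (isLittleO_log_rpow_rpow_atTop (n : ℝ) hε).bound (c := 1 / (|C| + 1)) (by positivity)
  filter_upwards [h1, eventually_ge_atTop (1 : ℝ)] with X h2 h3
  have hl : 0 ≤ Real.log X := Real.log_nonneg h3
  rw [Real.rpow_natCast, Real.norm_of_nonneg (by positivity), Real.norm_of_nonneg (by positivity)] at h2
  have hC : 0 < |C| + 1 := by positivity
  calc C * (Real.log X) ^ n ≤ (|C| + 1) * (Real.log X) ^ n := by
        apply mul_le_mul_of_nonneg_right _ (by positivity)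
        linarith [le_abs_self C]
    _ ≤ (|C| + 1) * (1 / (|C| + 1) * X ^ ε) := mul_le_mul_of_nonneg_left h2 hC.le
    _ = X ^ ε := by field_simp

/-- the parameters -/
theorem facts (k C1 D0 : ℕ) (c c5 C6 : ℝ) (hc : 0 < c) (hc5 : 0 < c5) (hC6 : 0 < C6) (hC1 : 2 * k + 2 ≤ C1)
    (hD0 : 2 ≤ D0) :
    ∀ᶠ X : ℝ in atTop, 1 ≤ Real.log X ∧
      1 / (Real.log X) ^ (2 * k + 1) ≤ (c / Real.log X) ^ (2 * k) ∧
      1 / (Real.log X) ^ (2 * k + 1) ≤ c5 / 4 * (c / Real.log X) ^ (2 * k) ∧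
      2 * √(3 * X) * Real.log (3 * X) + X ^ (1 / 2 : ℝ) * Real.log X ≤
        c5 / 32 * X ^ (99 / 100 : ℝ) * (c / Real.log X) ^ (2 * k) ∧
      k * (2 * Real.log X * (C6 / (⌊(Real.log X) ^ C1⌋₊ : ℝ))) ≤ c5 / 16 * (c / Real.log X) ^ (2 * k) ∧
      ((⌊(Real.log X) ^ C1⌋₊ ^ 2 : ℕ) : ℝ) ≤ X ^ (1 / 1000 : ℝ) ∧
      2 ≤ ⌊X ^ (1 / D0 : ℝ)⌋₊ ∧ X ^ 2 ≤ (⌊X ^ (1 / D0 : ℝ)⌋₊ : ℝ) ^ (4 * D0) ∧
      ⌊(Real.log X) ^ C1⌋₊ ≤ ⌊X ^ (1 / D0 : ℝ)⌋₊ ∧ 2 * k + 2 ≤ ⌊(Real.log X) ^ C1⌋₊ := by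
  have hlog : Tendsto Real.log atTop atTop := Real.tendsto_log_atTop
  have hD : (0 : ℝ) < D0 := by
    have : (2 : ℝ) ≤ D0 := by exact_mod_cast hD0
    linarith
  have hck : 0 < c ^ (2 * k) := by positivity
  have hy : Tendsto (fun X : ℝ => X ^ (1 / (2 * D0) : ℝ)) atTop atTop := tendsto_rpow_atTop (by positivity)
  filter_upwards [hlog.eventually_ge_atTop 1, hlog.eventually_ge_atTop (1 / c ^ (2 * k)),
    hlog.eventually_ge_atTop (4 / (c5 * c ^ (2 * k))), poly_log (9 * 32 / (c5 * c ^ (2 * k))) (2 * k + 1) (ε := 49 / 100) (by norm_num),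
    hlog.eventually_ge_atTop (64 * k * C6 / (c5 * c ^ (2 * k))), poly_log 1 (2 * C1) (ε := 1 / 1000) (by norm_num),
    hy.eventually_ge_atTop 2, poly_log 1 C1 (ε := 1 / D0) (by positivity),
    hlog.eventually_ge_atTop (2 * k + 3), eventually_ge_atTop (3 : ℝ)]
    with X h1 h2 h3 h4 h5 h6 h7 h8 h9 hX3
  have hX0 : 0 < X := by linarith
  set L := Real.log X with hL
  have hL0 : 0 < L := by linarith
  have hLk : 0 < L ^ (2 * k) := by positivity
  have hpow : L ≤ L ^ C1 := le_self_pow₀ h1 (by omega)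
  have hZ : L ^ C1 / 2 ≤ (⌊L ^ C1⌋₊ : ℝ) := by
    have g1 : L ^ C1 < ⌊L ^ C1⌋₊ + 1 := Nat.lt_floor_add_one _
    have g2 : (3 : ℝ) ≤ L ^ C1 := by
      have : (0 : ℝ) ≤ k := Nat.cast_nonneg k
      linarith
    linarith
  have hZ0 : 0 < L ^ C1 / 2 := by positivity
  refine ⟨h1, ?_, ?_, ?_, ?_, ?_, ?_, ?_, ?_, ?_⟩
  · rw [div_pow, div_le_div_iff₀ (by positivity) hLk, one_mul, pow_succ]
    rw [div_le_iff₀ hck] at h2
    nlinarith
  · rw [div_pow, mul_div_assoc', div_le_div_iff₀ (by positivity) hLk, one_mul, pow_succ]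
    rw [div_le_iff₀ (by positivity)] at h3
    have : 1 ≤ c5 / 4 * c ^ (2 * k) * L := by linarith
    nlinarith
  · have g1 : √(3 * X) ≤ 2 * X ^ (1 / 2 : ℝ) := by
      rw [← Real.sqrt_eq_rpow]
      have g0 : √(3 * X) ≤ √(2 ^ 2 * X) := Real.sqrt_le_sqrt (by linarith)
      have g0' : √(2 ^ 2 * X) = 2 * √X := by
        rw [Real.sqrt_mul (by norm_num), Real.sqrt_sq (by norm_num)]
      rwa [g0'] at g0
    have g2 : Real.log (3 * X) ≤ 2 * L := by
      rw [Real.log_mul (by norm_num) hX0.ne']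
      have : Real.log 3 ≤ Real.log X := Real.log_le_log (by norm_num) hX3
      linarith
    have g2' : 0 ≤ Real.log (3 * X) := Real.log_nonneg (by linarith)
    have g4 : 2 * √(3 * X) * Real.log (3 * X) + X ^ (1 / 2 : ℝ) * L ≤ 9 * X ^ (1 / 2 : ℝ) * L := by
      have g5 : 2 * √(3 * X) * Real.log (3 * X) ≤ 2 * (2 * X ^ (1 / 2 : ℝ)) * (2 * L) := by
        gcongr
      linarith
    refine g4.trans ?_
    have g7 : X ^ (99 / 100 : ℝ) = X ^ (1 / 2 : ℝ) * X ^ (49 / 100 : ℝ) := by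
      rw [← Real.rpow_add hX0]
      norm_num
    rw [g7, div_pow]
    have g8 : 9 * L ≤ c5 / 32 * X ^ (49 / 100 : ℝ) * (c ^ (2 * k) / L ^ (2 * k)) := by
      rw [mul_div_assoc', le_div_iff₀ hLk]
      have g9 : 9 * 32 / (c5 * c ^ (2 * k)) * L ^ (2 * k + 1) * (c5 * c ^ (2 * k)) ≤ X ^ (49 / 100 : ℝ) * (c5 * c ^ (2 * k)) :=
        mul_le_mul_of_nonneg_right h4 (by positivity)
      have g10 : 9 * 32 / (c5 * c ^ (2 * k)) * L ^ (2 * k + 1) * (c5 * c ^ (2 * k)) = 9 * 32 * (L ^ (2 * k) * L) := by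
        rw [pow_succ]
        field_simp
      rw [g10] at g9
      linarith
    have g11 : 0 ≤ X ^ (1 / 2 : ℝ) := by positivity
    calc 9 * X ^ (1 / 2 : ℝ) * L = X ^ (1 / 2 : ℝ) * (9 * L) := by ring
      _ ≤ X ^ (1 / 2 : ℝ) * (c5 / 32 * X ^ (49 / 100 : ℝ) * (c ^ (2 * k) / L ^ (2 * k))) :=
          mul_le_mul_of_nonneg_left g8 g11
      _ = _ := by ring
  · have g1 : C6 / (⌊L ^ C1⌋₊ : ℝ) ≤ C6 / (L ^ C1 / 2) := div_le_div_of_nonneg_left hC6.le hZ0 hZ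
    have g2 : (k : ℝ) * (2 * L * (C6 / (⌊L ^ C1⌋₊ : ℝ))) ≤ k * (2 * L * (C6 / (L ^ C1 / 2))) := by
      gcongr
    refine g2.trans ?_
    have g3 : L ^ (2 * k + 2) ≤ L ^ C1 := pow_le_pow_right₀ h1 hC1
    have g4 : C6 / (L ^ C1 / 2) ≤ C6 / (L ^ (2 * k + 2) / 2) :=
      div_le_div_of_nonneg_left hC6.le (by positivity) (by linarith)
    have g5 : (k : ℝ) * (2 * L * (C6 / (L ^ C1 / 2))) ≤ k * (2 * L * (C6 / (L ^ (2 * k + 2) / 2))) := by
      gcongr
    refine g5.trans ?_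
    rw [div_pow]
    have g6 : (k : ℝ) * (2 * L * (C6 / (L ^ (2 * k + 2) / 2))) = 4 * k * C6 / (L * L ^ (2 * k)) := by
      field_simp
      ring
    rw [g6, mul_div_assoc', div_le_div_iff₀ (by positivity) hLk]
    rw [div_le_iff₀ (by positivity)] at h5
    nlinarith
  · push_cast
    have g1 : (⌊L ^ C1⌋₊ : ℝ) ≤ L ^ C1 := Nat.floor_le (by positivity)
    calc (⌊L ^ C1⌋₊ : ℝ) ^ 2 ≤ (L ^ C1) ^ 2 := pow_le_pow_left₀ (Nat.cast_nonneg _) g1 2
      _ = 1 * L ^ (2 * C1) := by rw [← pow_mul]; ring_nf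
      _ ≤ _ := h6
  · apply Nat.le_floor
    push_cast
    have g1 : X ^ (1 / D0 : ℝ) = X ^ (1 / (2 * D0) : ℝ) * X ^ (1 / (2 * D0) : ℝ) := by
      rw [← Real.rpow_add hX0]
      congr 1
      field_simp
      norm_num
    rw [g1]
    nlinarith
  · have g1 : X ^ (1 / D0 : ℝ) = X ^ (1 / (2 * D0) : ℝ) * X ^ (1 / (2 * D0) : ℝ) := by
      rw [← Real.rpow_add hX0]
      congr 1
      field_simp
      norm_num
    have g2 : X ^ (1 / (2 * D0) : ℝ) ≤ (⌊X ^ (1 / D0 : ℝ)⌋₊ : ℝ) := by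
      have g3 : X ^ (1 / D0 : ℝ) < ⌊X ^ (1 / D0 : ℝ)⌋₊ + 1 := Nat.lt_floor_add_one _
      nlinarith
    calc X ^ 2 = (X ^ (1 / (2 * D0) : ℝ)) ^ (4 * D0) := by
          rw [← Real.rpow_natCast (X ^ (1 / (2 * D0) : ℝ)), ← Real.rpow_mul hX0.le]
          have : (1 / (2 * D0) : ℝ) * ((4 * D0 : ℕ) : ℝ) = 2 := by
            push_cast
            field_simp
            norm_num
          rw [this]
          norm_cast
      _ ≤ _ := pow_le_pow_left₀ (by positivity) g2 _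
  · apply Nat.floor_le_floor
    linarith
  · apply Nat.le_floor
    push_cast
    linarith

end Pool.Agent.H536.OB
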