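import Mathlib
import Pool.Agent.H536.OB.E6
import Pool.Agent.H536.OB.N4

open Finset Filter Topology

/-! The sum over the primes with `χ(p) = 1`. -/

namespace Pool.Agent.H536.OB

open Pool.Agent.H318R2.Cr (V Pz mem_Pz V_pos cz_bounds one_sub_inv_pos)
open Pool.Agent.H262R3.Lk (wM)

/-- asymptotic facts for the block bound -/
theorem facts7 (C1 D1 : ℕ) (c c' : ℝ) (hc : 0 < c) (hc' : 0 < c') (hD1 : 1 ≤ D1) : ∀ᶠ M : ℕ in atTop,
    3 ≤ M ∧ C1 ≤ wM M ∧ 4 ≤ wM M ∧ 3 ≤ ⌊(M : ℝ) ^ (1 / D1 : ℝ)⌋₊ ∧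
    Real.log M ≤ 2 * D1 * Real.log (⌊(M : ℝ) ^ (1 / D1 : ℝ)⌋₊ : ℝ) ∧
    ⌊(M : ℝ) ^ (1 / D1 : ℝ)⌋₊ ^ D1 ≤ M ∧ 26 / (M : ℝ) ^ 8 ≤ c / (M : ℝ) ^ 4 * (c' / Real.log M) ^ 3 := by
  have hD1r : (0 : ℝ) < D1 := by exact_mod_cast hD1
  have hcast : Tendsto (fun M : ℕ => (M : ℝ)) atTop atTop := tendsto_natCast_atTop_atTop
  have hT : Tendsto (fun M : ℕ => Real.log M) atTop atTop := Real.tendsto_log_atTop.comp hcast
  have hwt : Tendsto wM atTop atTop := by
    unfold wM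
    exact tendsto_nat_floor_atTop.comp (hT.atTop_div_const (by norm_num))
  have hy : Tendsto (fun M : ℕ => (M : ℝ) ^ (1 / (2 * D1) : ℝ)) atTop atTop :=
    (tendsto_rpow_atTop (by positivity)).comp hcast
  have hpl : ∀ᶠ M : ℕ in atTop, (26 / (c * c' ^ 3)) * (Real.log M) ^ 3 ≤ (M : ℝ) ^ (1 : ℝ) :=
    hcast.eventually (poly_log (26 / (c * c' ^ 3)) 3 one_pos)
  filter_upwards [eventually_ge_atTop 3, hwt.eventually_ge_atTop (C1 + 4), hy.eventually_ge_atTop 4, hpl,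
    hT.eventually_ge_atTop 1] with M h1 h2 h3 h4 h5
  have hMr : (3 : ℝ) ≤ M := by exact_mod_cast h1
  have hM0 : (0 : ℝ) < M := by linarith
  have hsq : (M : ℝ) ^ (1 / D1 : ℝ) = (M : ℝ) ^ (1 / (2 * D1) : ℝ) * (M : ℝ) ^ (1 / (2 * D1) : ℝ) := by
    rw [← Real.rpow_add hM0]
    congr 1
    field_simp
    norm_num
  have hfl : (M : ℝ) ^ (1 / (2 * D1) : ℝ) ≤ (⌊(M : ℝ) ^ (1 / D1 : ℝ)⌋₊ : ℝ) := by
    have g3 : (M : ℝ) ^ (1 / D1 : ℝ) < ⌊(M : ℝ) ^ (1 / D1 : ℝ)⌋₊ + 1 := Nat.lt_floor_add_one _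
    nlinarith
  refine ⟨h1, by omega, by omega, ?_, ?_, ?_, ?_⟩
  · have : (3 : ℝ) ≤ (⌊(M : ℝ) ^ (1 / D1 : ℝ)⌋₊ : ℝ) := by linarith
    exact_mod_cast this
  · have g1 := Real.log_le_log (by positivity) hfl
    rw [Real.log_rpow hM0] at g1
    have g2 : 1 / (2 * D1 : ℝ) * Real.log M * (2 * D1) = Real.log M := by field_simp
    have g3 : 1 / (2 * D1 : ℝ) * Real.log M * (2 * D1) ≤ Real.log (⌊(M : ℝ) ^ (1 / D1 : ℝ)⌋₊ : ℝ) * (2 * D1) :=
      mul_le_mul_of_nonneg_right g1 (by positivity)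
    linarith
  · have g1 : (⌊(M : ℝ) ^ (1 / D1 : ℝ)⌋₊ : ℝ) ≤ (M : ℝ) ^ (1 / D1 : ℝ) := Nat.floor_le (by positivity)
    have g2 : ((⌊(M : ℝ) ^ (1 / D1 : ℝ)⌋₊ : ℝ)) ^ D1 ≤ M := by
      calc ((⌊(M : ℝ) ^ (1 / D1 : ℝ)⌋₊ : ℝ)) ^ D1 ≤ ((M : ℝ) ^ (1 / D1 : ℝ)) ^ D1 := pow_le_pow_left₀ (Nat.cast_nonneg _) g1 _
        _ = M := by
            rw [← Real.rpow_natCast, ← Real.rpow_mul hM0.le]
            have : (1 / D1 : ℝ) * (D1 : ℝ) = 1 := by field_simp
            rw [this, Real.rpow_one]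
    exact_mod_cast g2
  · have hlog0 : 0 < Real.log M := by linarith
    rw [Real.rpow_one] at h4
    have g1 : 26 * (Real.log M) ^ 3 ≤ M * (c * c' ^ 3) := by
      have := mul_le_mul_of_nonneg_right h4 (by positivity : (0 : ℝ) ≤ c * c' ^ 3)
      calc 26 * (Real.log M) ^ 3 = 26 / (c * c' ^ 3) * Real.log M ^ 3 * (c * c' ^ 3) := by field_simp
        _ ≤ _ := this
    rw [div_pow, div_mul_div_comm, div_le_div_iff₀ (by positivity) (by positivity)]
    calc 26 * ((M : ℝ) ^ 4 * Real.log M ^ 3) = (26 * Real.log M ^ 3) * (M : ℝ) ^ 4 := by ring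
      _ ≤ (M * (c * c' ^ 3)) * (M : ℝ) ^ 4 := mul_le_mul_of_nonneg_right g1 (by positivity)
      _ = c * c' ^ 3 * (M : ℝ) ^ 5 := by ring
      _ ≤ c * c' ^ 3 * (M : ℝ) ^ 8 := by
          apply mul_le_mul_of_nonneg_left _ (by positivity)
          exact pow_le_pow_right₀ (by linarith) (by norm_num)

open Classical in
theorem block : ∃ (K : ℝ) (M0 : ℕ), 0 < K ∧ ∀ (M q : ℕ) [NeZero q] (χ : DirichletCharacter ℂ q) (x : ℕ), M0 ≤ M → q ≤ M ^ 2 →
    2 ≤ q → (∀ p : ℕ, p.Prime → p ≤ wM M → p ∣ q) → χ ≠ 1 → χ ^ 2 = 1 → M ^ 30 ≤ x →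
    (((Ioc x (2 * x)).filter (fun p => p.Prime ∧ cr χ p = 1)).card : ℝ) ≤ K * x / Real.log M * ell (M ^ 32) χ := by
  obtain ⟨C1, hC1, hsve⟩ := SVE 1
  obtain ⟨c, hc, hLV⟩ := LV_low
  obtain ⟨c', hc', hVV⟩ := VV_low 1
  obtain ⟨K1, hK1, hcmp⟩ := cmp_ell
  obtain ⟨K2, hK2, hcmpV⟩ := cmp_V
  obtain ⟨D1, hD1⟩ : ∃ D1 : ℕ, D1 = C1 * C1 := ⟨_, rfl⟩
  have hD11 : 1 ≤ D1 := by rw [hD1]; nlinarith
  obtain ⟨M0, hM0⟩ := eventually_atTop.1 (facts7 C1 D1 c c' hc hc' hD11)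
  refine ⟨768 * K1 * K2 * D1 ^ 2, M0, by positivity, ?_⟩
  intro M q _ χ x hM hqM hq2 hwq hχ hχ2 hx
  obtain ⟨hM3, hw1, hw4, hz3, hlz, hzD, herr0⟩ := hM0 M hM
  have hMr : (3 : ℝ) ≤ M := by exact_mod_cast hM3
  have hMpos : (0 : ℝ) < M := by linarith
  have hlM : 0 < Real.log M := Real.log_pos (by linarith)
  obtain ⟨z', hz'⟩ : ∃ z' : ℕ, z' = ⌊(M : ℝ) ^ (1 / D1 : ℝ)⌋₊ := ⟨_, rfl⟩
  rw [← hz'] at hz3 hlz hzD
  have hz'M : z' ≤ M := (Nat.le_self_pow (by omega) z').trans hzD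
  have hlz'0 : 0 < Real.log z' := Real.log_pos (by exact_mod_cast (by omega : 1 < z'))
  have hqpos : 0 < q := by omega
  have hqr : (2 : ℝ) ≤ q := by exact_mod_cast hq2
  have hqMr : (q : ℝ) ≤ (M : ℝ) ^ 2 := by exact_mod_cast hqM
  have hxr : (M : ℝ) ^ 30 ≤ x := by exact_mod_cast hx
  have hx0 : (0 : ℝ) < x := lt_of_lt_of_le (by positivity) hxr
  obtain ⟨J, hJ⟩ : ∃ J : ℕ, J = Pool.Agent.W41.JJ z' := ⟨_, rfl⟩
  have hJle : 2 ^ 2 ^ J ≤ z' ^ 2 := by rw [hJ]; exact Pool.Agent.W41.JJ_le z' (by omega)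
  have hJlt : z' < 2 ^ 2 ^ J := by rw [hJ]; exact Pool.Agent.W41.JJ_lt z'
  have hJs : J + 2 ≤ 2 * z' := by rw [hJ]; exact Pool.Agent.W41.JJ_small z' hz3
  set P := (Ioc (wM M) z').filter (fun p => p.Prime ∧ ¬ p ∣ q) with hP
  have hPmem : ∀ p ∈ P, p.Prime ∧ wM M < p ∧ p ≤ z' ∧ ¬ p ∣ q := by
    intro p hp
    rw [hP, mem_filter, mem_Ioc] at hp
    exact ⟨hp.2.1, hp.1.1, hp.1.2, hp.2.2⟩
  have hPz : P ⊆ Pz z' := fun p hp => mem_Pz.2 ⟨(hPmem p hp).1, (hPmem p hp).2.2.1⟩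
  have hPq : ∀ p ∈ Pz z', p ∉ P → p ∣ q := by
    intro p hp hnp
    rw [mem_Pz] at hp
    by_contra hd
    apply hnp
    rw [hP, mem_filter, mem_Ioc]
    refine ⟨⟨?_, hp.2⟩, hp.1, hd⟩
    by_contra hle
    push Not at hle
    exact hd (hwq p hp.1 hle)
  obtain ⟨T, hT⟩ : ∃ T : ℕ, T = 2 * x / q + 1 := ⟨_, rfl⟩
  have hT1 : 2 * x < q * T := by
    rw [hT]
    have := Nat.lt_div_mul_add (a := 2 * x) hqpos
    calc 2 * x < 2 * x / q * q + q := this
      _ = q * (2 * x / q + 1) := by ring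
  have hT2 : q * T ≤ 2 * x + q := by
    rw [hT]
    have := Nat.div_mul_le_self (2 * x) q
    calc q * (2 * x / q + 1) = 2 * x / q * q + q := by ring
      _ ≤ _ := by omega
  have hT1r : 2 * (x : ℝ) ≤ q * T := by exact_mod_cast hT1.le
  have hT2r : (q : ℝ) * T ≤ 2 * x + q := by exact_mod_cast hT2
  have hM28 : (M : ℝ) ^ 28 ≤ T := by
    by_contra hcon
    push Not at hcon
    have h1 : (q : ℝ) * T ≤ (M : ℝ) ^ 2 * (M : ℝ) ^ 28 := mul_le_mul hqMr hcon.le (Nat.cast_nonneg _) (by positivity)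
    rw [← pow_add] at h1
    norm_num at h1
    linarith
  have hT0 : (0 : ℝ) < T := lt_of_lt_of_le (by positivity) hM28
  have hqx : (q : ℝ) ≤ x := by
    refine hqMr.trans (le_trans ?_ hxr)
    exact pow_le_pow_right₀ (by linarith) (by norm_num)
  -- the value
  set U : ℝ := LV χ * ∏ p ∈ P, ((1 - 1 / (p : ℝ)) * (1 - cr χ p / (p : ℝ))) with hU
  -- for each class
  set G := (range q).filter (fun B => B.Coprime q ∧ cr χ B = 1) with hG
  have hclass : ∀ B ∈ G, ((((Ioc x (2 * x)).filter (fun p => p.Prime ∧ cr χ p = 1)).filter (fun p => p % q = B)).card : ℝ) ≤ 2 * T * U := by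
    intro B hB
    rw [hG, mem_filter, mem_range] at hB
    obtain ⟨hBq, hBco, hBχ⟩ := hB
    have hB1 : 1 ≤ B := by
      by_contra hcon
      have h0 : B = 0 := by omega
      rw [h0, Nat.coprime_zero_left] at hBco
      omega
    set H : ℕ → Finset ℕ := fun p => (range p).filter (fun c => p ∣ q * c + B) with hH
    have hHex : ∀ p ∈ P, ∃ c ∈ H p, p ∣ q * c + B := by
      intro p hp
      have hpp := (hPmem p hp).1
      obtain ⟨c, _, hc1, _⟩ := cls (a := q) (b := B) (W := 1) (ν := 0) (m := p) (Nat.coprime_one_left p)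
        ((Nat.Prime.coprime_iff_not_dvd hpp).2 (hPmem p hp).2.2.2).symm hpp.one_lt.le
      have h1 : q * (c % p) + B ≡ q * c + B [MOD p] := Nat.ModEq.add_right _ (Nat.ModEq.mul_left _ (Nat.mod_modEq c p))
      have h2 : p ∣ q * (c % p) + B := (Nat.modEq_zero_iff_dvd).1 (h1.trans ((Nat.modEq_zero_iff_dvd).2 hc1))
      exact ⟨c % p, mem_filter.2 ⟨mem_range.2 (Nat.mod_lt _ hpp.pos), h2⟩, h2⟩
    have hHcard : ∀ p ∈ P, (H p).card = 1 := by
      intro p hp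
      obtain ⟨c, hcm, hcd⟩ := hHex p hp
      have hpp := (hPmem p hp).1
      rw [card_eq_one]
      refine ⟨c, ?_⟩
      ext c2
      rw [mem_singleton]
      constructor
      · intro h2
        rw [hH, mem_filter, mem_range] at h2
        rw [hH, mem_filter, mem_range] at hcm
        have h3 : q * c2 + B ≡ q * c + B [MOD p] := ((Nat.modEq_zero_iff_dvd).2 h2.2).trans ((Nat.modEq_zero_iff_dvd).2 hcd).symm
        have h4 : c2 ≡ c [MOD p] := Nat.ModEq.cancel_left_of_coprime ((Nat.Prime.coprime_iff_not_dvd hpp).2 (hPmem p hp).2.2.2)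
          (Nat.ModEq.add_right_cancel' _ h3)
        exact Nat.ModEq.eq_of_lt_of_lt h4 h2.1 hcm.1
      · rintro rfl
        exact hcm
    have hq16 : 16 ≤ q * T := by
      have h1 : 3 ^ 30 ≤ x := (Nat.pow_le_pow_left hM3 30).trans hx
      have h2 : (16 : ℕ) ≤ 3 ^ 30 := by norm_num
      omega
    have hs := hsve C1 J (wM M) P le_rfl hw1 (fun p hp => ⟨(hPmem p hp).1, (hPmem p hp).2.1, (hPmem p hp).2.2.1.trans hJlt.le⟩)
      q χ hχ hχ2 B H T hB1 hBq.le hBco hBχ (fun p hp => ⟨filter_subset _ _, (hHcard p hp).le, fun _ => hHex p hp⟩) hq16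
    have hVVeq : VV χ P H = ∏ p ∈ P, ((1 - 1 / (p : ℝ)) * (1 - cr χ p / (p : ℝ))) := by
      unfold VV
      apply prod_congr rfl
      intro p hp
      rw [hHcard p hp, Nat.cast_one]
    have hVVlow := hVV q χ P H z' hχ2 (by omega) (fun p hp => ⟨(hPmem p hp).1, by have := (hPmem p hp).2.1; omega, (hPmem p hp).2.2.1⟩)
      (fun p hp => (hHcard p hp).le)
    have hLVl := hLV q χ hχ hχ2
    have hUlow : c / (M : ℝ) ^ 4 * (c' / Real.log M) ^ 3 ≤ U := by
      rw [hU, ← hVVeq]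
      have h1 : c / (M : ℝ) ^ 4 ≤ LV χ := by
        refine le_trans ?_ hLVl
        apply div_le_div_of_nonneg_left hc.le (by positivity)
        calc (q : ℝ) ^ 2 ≤ ((M : ℝ) ^ 2) ^ 2 := pow_le_pow_left₀ (by linarith) hqMr 2
          _ = (M : ℝ) ^ 4 := by rw [← pow_mul]
      have h2 : (c' / Real.log M) ^ 3 ≤ VV χ P H := by
        refine le_trans ?_ hVVlow
        apply pow_le_pow_left₀ (by positivity)
        apply div_le_div_of_nonneg_left hc'.le hlz'0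
        exact Real.log_le_log (by exact_mod_cast (by omega : 0 < z')) (by exact_mod_cast hz'M)
      exact mul_le_mul h1 h2 (by positivity) ((by positivity : (0 : ℝ) ≤ c / (M : ℝ) ^ 4).trans h1)
    have hU0 : 0 ≤ U := le_trans (by positivity) hUlow
    -- the error
    have herr : ((J : ℝ) + 2) * (13 * (((2 ^ 2 ^ J) ^ (C1 * C1) : ℕ) : ℝ) ^ 2 * √((q : ℝ) * T)) ≤ T * U := by
      have h1 : (((2 ^ 2 ^ J) ^ (C1 * C1) : ℕ) : ℝ) ≤ (M : ℝ) ^ 2 := by
        have h2 : (2 ^ 2 ^ J) ^ (C1 * C1) ≤ M ^ 2 := by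
          calc (2 ^ 2 ^ J) ^ (C1 * C1) ≤ (z' ^ 2) ^ (C1 * C1) := Nat.pow_le_pow_left hJle _
            _ = (z' ^ D1) ^ 2 := by rw [hD1, ← pow_mul, ← pow_mul, mul_comm 2]
            _ ≤ M ^ 2 := Nat.pow_le_pow_left hzD 2
        exact_mod_cast h2
      have h2 : (J : ℝ) + 2 ≤ 2 * M := by
        have h3 : J + 2 ≤ 2 * M := hJs.trans (Nat.mul_le_mul_left 2 hz'M)
        exact_mod_cast h3
      have h3 : √((q : ℝ) * T) ≤ T / (M : ℝ) ^ 13 := by
        have h4 : (M : ℝ) ^ 14 ≤ √(T : ℝ) := by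
          apply Real.le_sqrt_of_sq_le
          calc ((M : ℝ) ^ 14) ^ 2 = (M : ℝ) ^ 28 := by rw [← pow_mul]
            _ ≤ (T : ℝ) := hM28
        rw [Real.sqrt_mul (by linarith), le_div_iff₀ (by positivity)]
        have h5 : √(q : ℝ) ≤ M := by
          rw [show (M : ℝ) = √((M : ℝ) ^ 2) by rw [Real.sqrt_sq hMpos.le]]
          exact Real.sqrt_le_sqrt hqMr
        have h6 : √(T : ℝ) * √(T : ℝ) = T := Real.mul_self_sqrt hT0.le
        calc √(q : ℝ) * √(T : ℝ) * (M : ℝ) ^ 13 ≤ M * √(T : ℝ) * (M : ℝ) ^ 13 := by gcongr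
          _ = √(T : ℝ) * (M : ℝ) ^ 14 := by ring
          _ ≤ √(T : ℝ) * √(T : ℝ) := by gcongr
          _ = (T : ℝ) := h6
      calc ((J : ℝ) + 2) * (13 * (((2 ^ 2 ^ J) ^ (C1 * C1) : ℕ) : ℝ) ^ 2 * √((q : ℝ) * T)) ≤
            (2 * M) * (13 * ((M : ℝ) ^ 2) ^ 2 * (T / (M : ℝ) ^ 13)) := by gcongr
        _ = T * (26 / (M : ℝ) ^ 8) := by
            field_simp
            ring
        _ ≤ T * U := mul_le_mul_of_nonneg_left (herr0.trans hUlow) hT0.le
    have hSSup : SS χ B T P H ≤ 4 * T * U := by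
      have h1 := (abs_le.1 hs).2
      have h2 : (2 : ℝ) * T * LV χ * VV χ P H = 2 * T * U := by rw [hU, hVVeq]; ring
      rw [h2] at h1
      have h3 : (1 / 2 : ℝ) ^ C1 ≤ 1 / 2 := by
        calc (1 / 2 : ℝ) ^ C1 ≤ (1 / 2 : ℝ) ^ 1 := pow_le_pow_of_le_one (by norm_num) (by norm_num) hC1
          _ = 1 / 2 := pow_one _
      have h4 : (1 / 2 : ℝ) ^ C1 * (2 * T * U) ≤ 1 / 2 * (2 * T * U) := mul_le_mul_of_nonneg_right h3 (by positivity)
      linarith
    -- the primes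
    have hcount : 2 * ((((Ioc x (2 * x)).filter (fun p => p.Prime ∧ cr χ p = 1)).filter (fun p => p % q = B)).card : ℝ) ≤ SS χ B T P H := by
      unfold SS
      have h1 : ∑ t ∈ ((Ioc x (2 * x)).filter (fun p => p.Prime ∧ cr χ p = 1)).filter (fun p => p % q = B), (2 : ℝ) =
          2 * ((((Ioc x (2 * x)).filter (fun p => p.Prime ∧ cr χ p = 1)).filter (fun p => p % q = B)).card : ℝ) := by
        rw [sum_const, nsmul_eq_mul, mul_comm]
      rw [← h1]
      have hinj : Set.InjOn (fun p => p / q) (((Ioc x (2 * x)).filter (fun p => p.Prime ∧ cr χ p = 1)).filter (fun p => p % q = B) : Set ℕ) := by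
        intro p hp p' hp' hpp
        rw [mem_coe, mem_filter] at hp hp'
        have h2 := Nat.div_add_mod p q
        have h3 := Nat.div_add_mod p' q
        simp only at hpp
        rw [hp.2] at h2
        rw [hp'.2, ← hpp] at h3
        rw [← h2, ← h3]
      have h2 : ∑ t ∈ ((Ioc x (2 * x)).filter (fun p => p.Prime ∧ cr χ p = 1)).filter (fun p => p % q = B), (2 : ℝ) =
          ∑ t ∈ (((Ioc x (2 * x)).filter (fun p => p.Prime ∧ cr χ p = 1)).filter (fun p => p % q = B)).image (fun p => p / q), rr χ (q * t + B) := by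
        rw [sum_image hinj]
        apply sum_congr rfl
        intro p hp
        rw [mem_filter, mem_filter] at hp
        have h3 := Nat.div_add_mod p q
        rw [hp.2] at h3
        rw [h3, rr_prime hp.1.2.1, hp.1.2.2]
        norm_num
      rw [h2]
      apply sum_le_sum_of_subset_of_nonneg
      · intro t ht
        rw [mem_image] at ht
        obtain ⟨p, hp, rfl⟩ := ht
        rw [mem_filter, mem_filter, mem_Ioc] at hp
        have h3 := Nat.div_add_mod p q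
        rw [hp.2] at h3
        rw [mem_filter, mem_range]
        constructor
        · rw [hT]
          have := Nat.div_le_div_right (c := q) hp.1.1.2
          omega
        · intro r hr hmem
          rw [hH, mem_filter] at hmem
          have h4 : q * (p / q % r) + B ≡ q * (p / q) + B [MOD r] := Nat.ModEq.add_right _ (Nat.ModEq.mul_left _ (Nat.mod_modEq _ r))
          have h5 : r ∣ q * (p / q) + B := (Nat.modEq_zero_iff_dvd).1 (h4.symm.trans ((Nat.modEq_zero_iff_dvd).2 hmem.2))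
          rw [h3] at h5
          have h6 := (Nat.prime_dvd_prime_iff_eq (hPmem r hr).1 hp.1.2.1).1 h5
          have h7 : r ≤ M := (hPmem r hr).2.2.1.trans hz'M
          have h8 : M ≤ M ^ 30 := Nat.le_self_pow (by norm_num) M
          omega
      · intro t _ _
        exact rr_nonneg hχ2 _
    linarith
  -- the sum over the classes
  have hfib : ∀ p ∈ (Ioc x (2 * x)).filter (fun p => p.Prime ∧ cr χ p = 1), p % q ∈ G := by
    intro p hp
    rw [mem_filter] at hp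
    have h3 := Nat.div_add_mod p q
    have h4 : cr χ (p % q) = 1 := by
      have := cr_AP χ (p / q) (p % q)
      rw [h3, hp.2.2] at this
      exact this.symm
    rw [hG, mem_filter, mem_range]
    refine ⟨Nat.mod_lt _ hqpos, ?_, h4⟩
    by_contra hnc
    rw [cr_zero_of_not_coprime χ hnc] at h4
    norm_num at h4
  rw [card_eq_sum_card_fiberwise hfib]
  push_cast
  have hsum := sum_le_sum hclass
  refine hsum.trans ?_
  rw [sum_const, nsmul_eq_mul]
  have hGcard : (G.card : ℝ) ≤ q.totient := by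
    have : G.card ≤ q.totient := by
      rw [Nat.totient_eq_card_coprime]
      apply card_le_card
      intro B hB
      rw [hG, mem_filter] at hB
      rw [mem_filter]
      exact ⟨hB.1, hB.2.1.symm⟩
    exact_mod_cast this
  have hU1 : 0 ≤ LV χ * ∏ p ∈ P, (1 - cr χ p / (p : ℝ)) :=
    mul_nonneg (LV_pos hχ hχ2).le (prod_nonneg fun p hp => (fac_pos hχ2 (hPmem p hp).1).le)
  have hU0 : 0 ≤ U := by
    rw [hU]
    apply mul_nonneg (LV_pos hχ hχ2).le
    apply prod_nonneg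
    intro p hp
    exact mul_nonneg (one_sub_inv_pos (hPmem p hp).1).le (fac_pos hχ2 (hPmem p hp).1).le
  have k1 := hcmp q χ (M ^ 32) z' P hχ hχ2 (by omega) (hz'M.trans (Nat.le_self_pow (by norm_num) M)) hPz hPq
  have k2 := hcmpV q z' P hqpos (by omega) (fun p hp => ⟨(hPmem p hp).1, (hPmem p hp).2.2.2⟩) hPq
  have k3 : (q.totient : ℝ) * U = ((q.totient : ℝ) * ∏ p ∈ P, (1 - 1 / (p : ℝ))) * (LV χ * ∏ p ∈ P, (1 - cr χ p / (p : ℝ))) := by
    rw [hU, prod_mul_distrib]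
    ring
  have hell := ell_pos (z := M ^ 32) hχ hχ2
  have hlog32 : Real.log ((M ^ 32 : ℕ) : ℝ) = 32 * Real.log M := by
    push_cast
    rw [Real.log_pow]
    norm_num
  rw [hlog32] at k1
  have hTq : (T : ℝ) * q ≤ 3 * x := by linarith
  calc (G.card : ℝ) * (2 * T * U) ≤ (q.totient : ℝ) * (2 * T * U) := by gcongr
    _ = 2 * T * ((q.totient : ℝ) * U) := by ring
    _ = 2 * T * (((q.totient : ℝ) * ∏ p ∈ P, (1 - 1 / (p : ℝ))) * (LV χ * ∏ p ∈ P, (1 - cr χ p / (p : ℝ)))) := by rw [k3]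
    _ ≤ 2 * T * ((K2 * q / Real.log z') * (K1 * (32 * Real.log M / Real.log z') * ell (M ^ 32) χ)) := by
        apply mul_le_mul_of_nonneg_left _ (by positivity)
        exact mul_le_mul k2 k1 hU1 (by positivity)
    _ = (T * q) * (64 * K1 * K2 * (Real.log M / (Real.log z' * Real.log z'))) * ell (M ^ 32) χ := by
        field_simp
        ring
    _ ≤ (3 * x) * (64 * K1 * K2 * (4 * D1 ^ 2 / Real.log M)) * ell (M ^ 32) χ := by
        have h5 : Real.log M / (Real.log z' * Real.log z') ≤ 4 * D1 ^ 2 / Real.log M := by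
          rw [div_le_div_iff₀ (by positivity) hlM]
          have h6 : Real.log M * Real.log M ≤ (2 * D1 * Real.log z') * (2 * D1 * Real.log z') :=
            mul_le_mul hlz hlz hlM.le (by positivity)
          calc Real.log M * Real.log M ≤ (2 * D1 * Real.log z') * (2 * D1 * Real.log z') := h6
            _ = _ := by ring
        gcongr
    _ = 768 * K1 * K2 * D1 ^ 2 * x / Real.log M * ell (M ^ 32) χ := by ring

end Pool.Agent.H536.OB
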