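import Mathlib
import Pool.Agent.H536.OB.E7

open Finset Filter Topology

/-! The sum over the primes with `χ(p) = 1`, and lemmas on the subprogressions. -/

namespace Pool.Agent.H536.OB

open Pool.Agent.H318R2.Cr (V Pz mem_Pz V_pos cz_bounds one_sub_inv_pos)
open Pool.Agent.H262R3.Lk (wM)

open Classical in
theorem PS (A3 : ℕ) : ∃ (K : ℝ) (M0 : ℕ), 0 < K ∧ ∀ (M q : ℕ) [NeZero q] (χ : DirichletCharacter ℂ q), M0 ≤ M → q ≤ M ^ 2 →
    2 ≤ q → (∀ p : ℕ, p.Prime → p ≤ wM M → p ∣ q) → χ ≠ 1 → χ ^ 2 = 1 →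
    ∑ p ∈ (Ioc (M ^ 32) (M ^ A3)).filter (fun p => p.Prime ∧ cr χ p = 1), 1 / (p : ℝ) ≤ K * ell (M ^ 32) χ := by
  obtain ⟨K, M0, hK, hbl⟩ := block
  refine ⟨K * (3 * A3 + 1), M0 + 3, by positivity, ?_⟩
  intro M q _ χ hM hqM hq2 hwq hχ hχ2
  have hM3 : 3 ≤ M := by omega
  have hMr : (3 : ℝ) ≤ M := by exact_mod_cast hM3
  have hlM : 1 ≤ Real.log M := by
    rw [Real.le_log_iff_exp_le (by linarith)]
    have := Real.exp_one_lt_d9
    linarith
  have hell := ell_pos (z := M ^ 32) hχ hχ2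
  set z := M ^ 32 with hz
  have hz0 : 0 < z := Nat.pow_pos (by omega)
  have key : ∀ I : ℕ, ∑ p ∈ (Ioc z (2 ^ I * z)).filter (fun p => p.Prime ∧ cr χ p = 1), 1 / (p : ℝ) ≤
      I * (K / Real.log M * ell z χ) := by
    intro I
    induction I with
    | zero => simp
    | succ I ih =>
      have h1 : (Ioc z (2 ^ (I + 1) * z)).filter (fun p => p.Prime ∧ cr χ p = 1) =
          (Ioc z (2 ^ I * z)).filter (fun p => p.Prime ∧ cr χ p = 1) ∪
          (Ioc (2 ^ I * z) (2 * (2 ^ I * z))).filter (fun p => p.Prime ∧ cr χ p = 1) := by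
        rw [← filter_union]
        congr 1
        ext p
        rw [mem_union, mem_Ioc, mem_Ioc, mem_Ioc]
        have h2 : z ≤ 2 ^ I * z := Nat.le_mul_of_pos_left z (by positivity)
        have h3 : 2 ^ (I + 1) * z = 2 * (2 ^ I * z) := by rw [pow_succ]; ring
        omega
      have hdis : Disjoint ((Ioc z (2 ^ I * z)).filter (fun p => p.Prime ∧ cr χ p = 1))
          ((Ioc (2 ^ I * z) (2 * (2 ^ I * z))).filter (fun p => p.Prime ∧ cr χ p = 1)) := by
        apply disjoint_filter_filter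
        rw [Finset.disjoint_left]
        intro p hp hp'
        rw [mem_Ioc] at hp hp'
        omega
      rw [h1, sum_union hdis]
      have h4 : M ^ 30 ≤ 2 ^ I * z := by
        calc M ^ 30 ≤ z := Nat.pow_le_pow_right (by omega) (by norm_num)
          _ ≤ 2 ^ I * z := Nat.le_mul_of_pos_left z (by positivity)
      have h5 := hbl M q χ (2 ^ I * z) (by omega) hqM hq2 hwq hχ hχ2 h4
      have hx0 : (0 : ℝ) < ((2 ^ I * z : ℕ) : ℝ) := by exact_mod_cast Nat.mul_pos (by positivity) hz0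
      have h6 : ∑ p ∈ (Ioc (2 ^ I * z) (2 * (2 ^ I * z))).filter (fun p => p.Prime ∧ cr χ p = 1), 1 / (p : ℝ) ≤
          K / Real.log M * ell z χ := by
        have h7 : ∀ p ∈ (Ioc (2 ^ I * z) (2 * (2 ^ I * z))).filter (fun p => p.Prime ∧ cr χ p = 1), 1 / (p : ℝ) ≤ 1 / ((2 ^ I * z : ℕ) : ℝ) := by
          intro p hp
          rw [mem_filter, mem_Ioc] at hp
          exact one_div_le_one_div_of_le hx0 (by exact_mod_cast hp.1.1.le)
        refine (sum_le_sum h7).trans ?_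
        rw [sum_const, nsmul_eq_mul]
        calc (((Ioc (2 ^ I * z) (2 * (2 ^ I * z))).filter (fun p => p.Prime ∧ cr χ p = 1)).card : ℝ) * (1 / ((2 ^ I * z : ℕ) : ℝ)) ≤
              (K * ((2 ^ I * z : ℕ) : ℝ) / Real.log M * ell z χ) * (1 / ((2 ^ I * z : ℕ) : ℝ)) :=
              mul_le_mul_of_nonneg_right h5 (by positivity)
          _ = K / Real.log M * ell z χ := by field_simp
      push_cast
      linarith
  set I := A3 * (Nat.log 2 M + 1) with hI
  have hI1 : M ^ A3 ≤ 2 ^ I * z := by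
    calc M ^ A3 ≤ (2 ^ (Nat.log 2 M + 1)) ^ A3 := Nat.pow_le_pow_left (Nat.lt_pow_succ_log_self (by norm_num) M).le _
      _ = 2 ^ I := by rw [← pow_mul, hI, mul_comm]
      _ ≤ 2 ^ I * z := Nat.le_mul_of_pos_right _ hz0
  have h8 : ∑ p ∈ (Ioc z (M ^ A3)).filter (fun p => p.Prime ∧ cr χ p = 1), 1 / (p : ℝ) ≤
      ∑ p ∈ (Ioc z (2 ^ I * z)).filter (fun p => p.Prime ∧ cr χ p = 1), 1 / (p : ℝ) := by
    apply sum_le_sum_of_subset_of_nonneg
    · apply filter_subset_filter
      exact Ioc_subset_Ioc_right hI1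
    · intro p _ _
      positivity
  refine h8.trans ((key I).trans ?_)
  have hIr : (I : ℝ) ≤ (3 * A3 + 1) * Real.log M := by
    have h9 : (Nat.log 2 M : ℝ) * Real.log 2 ≤ Real.log M := by
      have k3 : ((2 : ℝ) ^ Nat.log 2 M) ≤ M := by exact_mod_cast Nat.pow_log_le_self 2 (by omega)
      have k4 := Real.log_le_log (by positivity) k3
      rwa [Real.log_pow] at k4
    have h10 := Real.log_two_gt_d9
    have h11 : (Nat.log 2 M : ℝ) ≤ 2 * Real.log M := by
      have : (0 : ℝ) ≤ (Nat.log 2 M : ℝ) := Nat.cast_nonneg _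
      nlinarith
    rw [hI]
    push_cast
    have h12 : (0 : ℝ) ≤ A3 := Nat.cast_nonneg _
    nlinarith
  calc (I : ℝ) * (K / Real.log M * ell z χ) ≤ ((3 * A3 + 1) * Real.log M) * (K / Real.log M * ell z χ) := by gcongr
    _ = K * (3 * A3 + 1) * ell z χ := by
        field_simp

/-- the number of divisors -/
theorem tau_le (n : ℕ) (hn : n ≠ 0) : n.divisors.card ≤ 2 ^ ArithmeticFunction.cardFactors n := by
  induction n using Nat.recOnMul with
  | zero => exact absurd rfl hn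
  | one => simp
  | prime p hp => rw [ArithmeticFunction.cardFactors_apply_prime hp, hp.divisors, card_pair hp.one_lt.ne]; norm_num
  | mul a b ha hb =>
    have ha0 : a ≠ 0 := left_ne_zero_of_mul hn
    have hb0 : b ≠ 0 := right_ne_zero_of_mul hn
    rw [ArithmeticFunction.cardFactors_mul ha0 hb0, pow_add]
    have h1 : (a * b).divisors.card ≤ (a.divisors ×ˢ b.divisors).card := by
      have h2 : (a * b).divisors ⊆ (a.divisors ×ˢ b.divisors).image (fun x => x.1 * x.2) := by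
        intro d hd
        rw [Nat.mem_divisors] at hd
        obtain ⟨d1, d2, h3, h4, h5⟩ := (Nat.dvd_mul.1 hd.1)
        rw [mem_image]
        exact ⟨(d1, d2), mem_product.2 ⟨Nat.mem_divisors.2 ⟨h3, ha0⟩, Nat.mem_divisors.2 ⟨h4, hb0⟩⟩, h5⟩
      exact (card_le_card h2).trans card_image_le
    rw [card_product] at h1
    exact h1.trans (Nat.mul_le_mul (ha ha0) (hb hb0))

/-- a composite value has a small prime factor -/
theorem comp_bound {q : ℕ} {χ : DirichletCharacter ℂ q} (h : χ ^ 2 = 1) {n z Y1 : ℕ} (hn2 : 2 ≤ n) (hnp : ¬ n.Prime)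
    (hχn : cr χ n = 1) (hrough : ∀ p : ℕ, p.Prime → p ∣ n → z < p) (hY : n ≤ Y1 ^ 2) :
    rr χ n ≤ ∑ p ∈ (Ioc z Y1).filter (fun p => p.Prime ∧ cr χ p = 1), (if p ∣ n then rr χ n else 0) +
      ∑ p ∈ (Ioc z Y1).filter Nat.Prime, (if p ^ 2 ∣ n then rr χ n else 0) := by
  classical
  have hr := rr_nonneg h n
  have hit : ∀ (G : Prop) [Decidable G], 0 ≤ (if G then rr χ n else 0) := by
    intro G _
    split_ifs
    · exact hr
    · exact le_rfl
  set p := n.minFac with hp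
  have hpp : p.Prime := Nat.minFac_prime (by omega)
  have hpn : p ∣ n := Nat.minFac_dvd n
  have hpz := hrough p hpp hpn
  have hpY : p ≤ Y1 := by
    have h1 : p ^ 2 ≤ n := Nat.minFac_sq_le_self (by omega) hnp
    exact (Nat.pow_le_pow_iff_left (by norm_num)).1 (h1.trans hY)
  obtain ⟨m, hm⟩ := hpn
  have hcr : cr χ p * cr χ m = 1 := by rw [← cr_mul h, ← hm, hχn]
  have s1 : 0 ≤ ∑ p ∈ (Ioc z Y1).filter (fun p => p.Prime ∧ cr χ p = 1), (if p ∣ n then rr χ n else 0) :=
    sum_nonneg fun p _ => hit _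
  have s2 : 0 ≤ ∑ p ∈ (Ioc z Y1).filter Nat.Prime, (if p ^ 2 ∣ n then rr χ n else 0) :=
    sum_nonneg fun p _ => hit _
  rcases cr_vals h p with h1 | h1 | h1
  · rw [h1, zero_mul] at hcr
    norm_num at hcr
  · have h2 := single_le_sum (f := fun p => if p ∣ n then rr χ n else 0) (fun p _ => hit _)
      (mem_filter.2 ⟨mem_Ioc.2 ⟨hpz, hpY⟩, hpp, h1⟩ : p ∈ (Ioc z Y1).filter (fun p => p.Prime ∧ cr χ p = 1))
    beta_reduce at h2
    rw [if_pos (by rw [hm]; exact dvd_mul_right _ _)] at h2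
    linarith
  · by_cases hpm : p ∣ m
    · have h2 := single_le_sum (f := fun p => if p ^ 2 ∣ n then rr χ n else 0) (fun p _ => hit _)
        (mem_filter.2 ⟨mem_Ioc.2 ⟨hpz, hpY⟩, hpp⟩ : p ∈ (Ioc z Y1).filter Nat.Prime)
      beta_reduce at h2
      rw [if_pos (by rw [sq]; conv_rhs => rw [hm]
                     exact mul_dvd_mul_left p hpm)] at h2
      linarith
    · have h2 : rr χ n = 0 := by
        rw [hm]
        exact rr_zero_of h hpp hpm h1
      rw [h2]
      simp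

end Pool.Agent.H536.OB
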