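import Mathlib
import Pool.Agent.H536.OB.E8

open Finset Filter Topology

/-! Classes of the sieve and subprogressions. -/

namespace Pool.Agent.H536.OB

open Pool.Agent.H318R2.Cr (V Pz mem_Pz V_pos cz_bounds one_sub_inv_pos)
open Pool.Agent.H262R3.Lk (wM)

open Classical in
/-- the classes of the sieve -/
noncomputable def HH {k : ℕ} (a b : Fin k → ℕ) (W ν p : ℕ) : Finset ℕ :=
  (range p).filter (fun c => ∃ i, p ∣ a i * (W * c + ν) + b i)

theorem HH_sub {k : ℕ} (a b : Fin k → ℕ) (W ν p : ℕ) : HH a b W ν p ⊆ range p := by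
  classical
  unfold HH
  exact filter_subset _ _

theorem HH_card {k : ℕ} {a b : Fin k → ℕ} (hcop : ∀ i, (a i).Coprime (b i)) {W ν p : ℕ} (hp : p.Prime) (hpW : ¬ p ∣ W) :
    (HH a b W ν p).card ≤ k := by
  classical
  rcases (HH a b W ν p).eq_empty_or_nonempty with h0 | ⟨c0, hc0⟩
  · rw [h0]
    simp
  have hi0 : ∃ i : Fin k, True := by
    unfold HH at hc0
    rw [mem_filter] at hc0
    obtain ⟨_, i, _⟩ := hc0
    exact ⟨i, trivial⟩
  obtain ⟨i0, _⟩ := hi0
  have : Inhabited (Fin k) := ⟨i0⟩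
  have h : ∀ c ∈ HH a b W ν p, ∃ i : Fin k, c < p ∧ p ∣ a i * (W * c + ν) + b i := by
    intro c hc
    unfold HH at hc
    rw [mem_filter, mem_range] at hc
    obtain ⟨h1, i, h2⟩ := hc
    exact ⟨i, h1, h2⟩
  choose! f hf using h
  have h1 : (HH a b W ν p).card ≤ (univ : Finset (Fin k)).card := by
    apply card_le_card_of_injOn f (fun _ _ => mem_coe.2 (mem_univ _))
    intro c hc c' hc' hff
    obtain ⟨h1, h2⟩ := hf c hc
    obtain ⟨h3, h4⟩ := hf c' hc'
    rw [← hff] at h4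
    have hpi : ¬ p ∣ a (f c) := by
      intro hd
      have h5 := (Nat.dvd_add_right (hd.mul_right (W * c + ν))).1 h2
      have h6 := Nat.dvd_gcd hd h5
      rw [hcop (f c)] at h6
      exact hp.one_lt.ne' (Nat.dvd_one.1 h6)
    have h5 : a (f c) * (W * c + ν) + b (f c) ≡ a (f c) * (W * c' + ν) + b (f c) [MOD p] :=
      ((Nat.modEq_zero_iff_dvd).2 h2).trans ((Nat.modEq_zero_iff_dvd).2 h4).symm
    have h7 : W * c + ν ≡ W * c' + ν [MOD p] := Nat.ModEq.cancel_left_of_coprime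
      ((Nat.Prime.coprime_iff_not_dvd hp).2 hpi) (Nat.ModEq.add_right_cancel' _ h5)
    have h8 : c ≡ c' [MOD p] := Nat.ModEq.cancel_left_of_coprime
      ((Nat.Prime.coprime_iff_not_dvd hp).2 hpW) (Nat.ModEq.add_right_cancel' _ h7)
    exact Nat.ModEq.eq_of_lt_of_lt h8 h1 h3
  simpa using h1

theorem HH_sift {k : ℕ} {a b : Fin k → ℕ} {W ν p t : ℕ} (hp : 0 < p) (h : t % p ∉ HH a b W ν p) (i : Fin k) :
    ¬ p ∣ a i * (W * t + ν) + b i := by
  classical
  intro hd
  apply h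
  unfold HH
  rw [mem_filter, mem_range]
  refine ⟨Nat.mod_lt _ hp, i, ?_⟩
  have h1 : a i * (W * (t % p) + ν) + b i ≡ a i * (W * t + ν) + b i [MOD p] :=
    Nat.ModEq.add_right _ (Nat.ModEq.mul_left _ (Nat.ModEq.add_right _ (Nat.ModEq.mul_left _ (Nat.mod_modEq t p))))
  exact (Nat.modEq_zero_iff_dvd).1 (h1.trans ((Nat.modEq_zero_iff_dvd).2 hd))

theorem HH_class {k : ℕ} {a b : Fin k → ℕ} {W ν p : ℕ} (j : Fin k) (hp : p.Prime) (hpq : ¬ p ∣ a j * W) :
    ∃ c ∈ HH a b W ν p, p ∣ (a j * W) * c + (a j * ν + b j) := by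
  classical
  obtain ⟨c, _, hc1, _⟩ := cls (a := a j * W) (b := a j * ν + b j) (W := 1) (ν := 0) (m := p) (Nat.coprime_one_left p)
    ((Nat.Prime.coprime_iff_not_dvd hp).2 hpq).symm hp.one_lt.le
  have h1 : (a j * W) * (c % p) + (a j * ν + b j) ≡ (a j * W) * c + (a j * ν + b j) [MOD p] :=
    Nat.ModEq.add_right _ (Nat.ModEq.mul_left _ (Nat.mod_modEq c p))
  have h2 : p ∣ (a j * W) * (c % p) + (a j * ν + b j) := (Nat.modEq_zero_iff_dvd).1 (h1.trans ((Nat.modEq_zero_iff_dvd).2 hc1))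
  refine ⟨c % p, ?_, h2⟩
  unfold HH
  rw [mem_filter, mem_range]
  refine ⟨Nat.mod_lt _ hp.pos, j, ?_⟩
  have : a j * (W * (c % p) + ν) + b j = (a j * W) * (c % p) + (a j * ν + b j) := by ring
  rw [this]
  exact h2

open Classical in
/-- the transformed classes -/
noncomputable def H1f (H : ℕ → Finset ℕ) (p1 t1 p : ℕ) : Finset ℕ := (range p).filter (fun c => (p1 * c + t1) % p ∈ H p)

theorem H1_inj {p1 t1 p : ℕ} (hc : p.Coprime p1) : Set.InjOn (fun c => (p1 * c + t1) % p) (range p : Set ℕ) := by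
  intro c hcm c' hcm' hcc
  rw [mem_coe, mem_range] at hcm hcm'
  have h1 : p1 * c + t1 ≡ p1 * c' + t1 [MOD p] := hcc
  have h2 : c ≡ c' [MOD p] := Nat.ModEq.cancel_left_of_coprime hc (Nat.ModEq.add_right_cancel' _ h1)
  exact Nat.ModEq.eq_of_lt_of_lt h2 hcm hcm'

theorem H1_surj {p1 t1 p : ℕ} (hp : 0 < p) (hc : p.Coprime p1) {x : ℕ} (hx : x < p) : ∃ c, c < p ∧ (p1 * c + t1) % p = x := by
  have h1 := Finset.surjOn_of_injOn_of_card_le (s := range p) (t := range p) (fun c => (p1 * c + t1) % p)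
    (fun c _ => mem_coe.2 (mem_range.2 (Nat.mod_lt _ hp))) (H1_inj hc) le_rfl
  obtain ⟨c, hc1, hc2⟩ := h1 (mem_coe.2 (mem_range.2 hx))
  exact ⟨c, mem_range.1 (mem_coe.1 hc1), hc2⟩

theorem H1_card {H : ℕ → Finset ℕ} {p1 t1 p : ℕ} (hp : 0 < p) (hc : p.Coprime p1) (hH : H p ⊆ range p) :
    (H1f H p1 t1 p).card = (H p).card := by
  classical
  unfold H1f
  apply card_nbij (fun c => (p1 * c + t1) % p)
  · intro c hcm
    rw [mem_coe, mem_filter] at hcm
    exact mem_coe.2 hcm.2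
  · intro c hcm c' hcm' hcc
    rw [mem_coe, mem_filter] at hcm hcm'
    exact H1_inj hc (mem_coe.2 hcm.1) (mem_coe.2 hcm'.1) hcc
  · intro x hx
    rw [mem_coe] at hx
    obtain ⟨c, hc1, hc2⟩ := H1_surj (t1 := t1) hp hc (mem_range.1 (hH hx))
    refine ⟨c, ?_, hc2⟩
    rw [mem_coe, mem_filter, mem_range]
    exact ⟨hc1, by rw [hc2]; exact hx⟩

theorem H1_class {H : ℕ → Finset ℕ} {q B B1 p1 t1 p : ℕ} (hp : p.Prime) (hc : p.Coprime p1) (hH : H p ⊆ range p)
    (hB1 : q * t1 + B = p1 * B1) (hcl : ∃ c ∈ H p, p ∣ q * c + B) : ∃ c ∈ H1f H p1 t1 p, p ∣ q * c + B1 := by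
  classical
  obtain ⟨c0, hc0, hd⟩ := hcl
  obtain ⟨c, hc1, hc2⟩ := H1_surj (t1 := t1) hp.pos hc (mem_range.1 (hH hc0))
  refine ⟨c, ?_, ?_⟩
  · unfold H1f
    rw [mem_filter, mem_range]
    exact ⟨hc1, by rw [hc2]; exact hc0⟩
  · rw [← hc2] at hd
    have h1 : q * ((p1 * c + t1) % p) + B ≡ q * (p1 * c + t1) + B [MOD p] :=
      Nat.ModEq.add_right _ (Nat.ModEq.mul_left _ (Nat.mod_modEq _ p))
    have h2 : p ∣ q * (p1 * c + t1) + B := (Nat.modEq_zero_iff_dvd).1 (h1.symm.trans ((Nat.modEq_zero_iff_dvd).2 hd))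
    have h3 : q * (p1 * c + t1) + B = p1 * (q * c + B1) := by
      calc q * (p1 * c + t1) + B = p1 * (q * c) + (q * t1 + B) := by ring
        _ = p1 * (q * c + B1) := by rw [hB1]; ring
    rw [h3] at h2
    exact hc.dvd_of_dvd_mul_left h2

open Classical in
/-- the part with a given prime factor -/
theorem sub_bound {q : ℕ} {χ : DirichletCharacter ℂ q} (h : χ ^ 2 = 1) {B B1 p1 t1 T0 : ℕ} (hq : 0 < q) (hB1pos : 0 < B1) (P : Finset ℕ)
    (H : ℕ → Finset ℕ) (hp1 : p1.Prime) (hχp : cr χ p1 = 1) (ht1 : t1 < p1) (hB1 : q * t1 + B = p1 * B1) :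
    ∑ t ∈ ((range T0).filter (fun t => ∀ p ∈ P, t % p ∉ H p)).filter (fun t => p1 ∣ q * t + B), rr χ (q * t + B) ≤
      2 * SS χ B1 (T0 / p1 + 1) P (H1f H p1 t1) := by
  have hp1q : ¬ p1 ∣ q := by
    intro hd
    have : cr χ p1 = 0 := cr_zero_of_not_coprime χ (fun h => by
      have := Nat.dvd_gcd dvd_rfl hd
      rw [h] at this
      exact hp1.one_lt.ne' (Nat.dvd_one.1 this))
    rw [hχp] at this
    norm_num at this
  have key : ∀ t, p1 ∣ q * t + B → t = p1 * (t / p1) + t1 := by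
    intro t hd
    have h1 : q * t + B ≡ q * t1 + B [MOD p1] :=
      ((Nat.modEq_zero_iff_dvd).2 hd).trans ((Nat.modEq_zero_iff_dvd).2 (by rw [hB1]; exact dvd_mul_right _ _)).symm
    have h2 : t ≡ t1 [MOD p1] := Nat.ModEq.cancel_left_of_coprime ((Nat.Prime.coprime_iff_not_dvd hp1).2 hp1q)
      (Nat.ModEq.add_right_cancel' _ h1)
    have h3 : t % p1 = t1 := by
      have : t % p1 = t1 % p1 := h2
      rw [this, Nat.mod_eq_of_lt ht1]
    have := Nat.div_add_mod t p1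
    omega
  have hval : ∀ t, p1 ∣ q * t + B → q * t + B = p1 * (q * (t / p1) + B1) := by
    intro t hd
    have h1 := key t hd
    calc q * t + B = q * (p1 * (t / p1) + t1) + B := by rw [← h1]
      _ = p1 * (q * (t / p1)) + (q * t1 + B) := by ring
      _ = p1 * (q * (t / p1) + B1) := by rw [hB1]; ring
  have h1 : ∀ t ∈ ((range T0).filter (fun t => ∀ p ∈ P, t % p ∉ H p)).filter (fun t => p1 ∣ q * t + B),
      rr χ (q * t + B) ≤ 2 * rr χ (q * (t / p1) + B1) := by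
    intro t ht
    rw [mem_filter] at ht
    rw [hval t ht.2]
    exact rr_mul_prime h hp1 (by positivity) hχp
  refine (sum_le_sum h1).trans ?_
  rw [← mul_sum]
  apply mul_le_mul_of_nonneg_left _ (by norm_num)
  unfold SS
  have hinj : Set.InjOn (fun t => t / p1) (((range T0).filter (fun t => ∀ p ∈ P, t % p ∉ H p)).filter (fun t => p1 ∣ q * t + B) : Set ℕ) := by
    intro t ht t' ht' htt
    rw [mem_coe, mem_filter] at ht ht'
    have e1 := key t ht.2
    have e2 := key t' ht'.2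
    have e3 : t / p1 = t' / p1 := htt
    rw [e3] at e1
    exact e1.trans e2.symm
  rw [← sum_image (f := fun s => rr χ (q * s + B1)) hinj]
  apply sum_le_sum_of_subset_of_nonneg
  · intro s hs
    rw [mem_image] at hs
    obtain ⟨t, ht, rfl⟩ := hs
    rw [mem_filter, mem_filter, mem_range] at ht
    rw [mem_filter, mem_range]
    constructor
    · have := Nat.div_le_div_right (c := p1) ht.1.1.le
      omega
    · intro p hp hmem
      unfold H1f at hmem
      rw [mem_filter] at hmem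
      apply ht.1.2 p hp
      have h2 : (p1 * (t / p1 % p) + t1) % p = t % p := by
        have h3 : p1 * (t / p1 % p) + t1 ≡ p1 * (t / p1) + t1 [MOD p] := Nat.ModEq.add_right _ (Nat.ModEq.mul_left _ (Nat.mod_modEq _ p))
        have h4 := key t ht.2
        rw [← h4] at h3
        exact h3
      rw [← h2]
      exact hmem.2
  · intro s _ _
    exact rr_nonneg h _

open Classical in
/-- the part with a given square factor -/
theorem sq_bound {q : ℕ} {χ : DirichletCharacter ℂ q} {B p1 T0 : ℕ} (hBq : B.Coprime q) (P : Finset ℕ)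
    (H : ℕ → Finset ℕ) (hp1 : p1.Prime) {Cτ : ℝ} (hC : 0 ≤ Cτ)
    (hr : ∀ t < T0, (∀ p ∈ P, t % p ∉ H p) → rr χ (q * t + B) ≤ Cτ) :
    ∑ t ∈ ((range T0).filter (fun t => ∀ p ∈ P, t % p ∉ H p)).filter (fun t => p1 ^ 2 ∣ q * t + B), rr χ (q * t + B) ≤
      Cτ * ((T0 : ℝ) / (p1 : ℝ) ^ 2 + 1) := by
  have hp0 : (0 : ℝ) < p1 := by exact_mod_cast hp1.pos
  by_cases hd : p1 ∣ q
  · have : ((range T0).filter (fun t => ∀ p ∈ P, t % p ∉ H p)).filter (fun t => p1 ^ 2 ∣ q * t + B) = ∅ := by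
      apply filter_false_of_mem
      intro t _ hd2
      have h1 : p1 ∣ q * t + B := (dvd_pow_self p1 (by norm_num)).trans hd2
      have h2 : p1 ∣ B := (Nat.dvd_add_right (hd.mul_right t)).1 h1
      have h3 := Nat.dvd_gcd h2 hd
      rw [hBq] at h3
      exact hp1.one_lt.ne' (Nat.dvd_one.1 h3)
    rw [this, sum_empty]
    positivity
  · have hco : q.Coprime (p1 ^ 2) := Nat.Coprime.pow_right _ ((Nat.Prime.coprime_iff_not_dvd hp1).2 hd).symm
    obtain ⟨c, _, _, hc⟩ := cls (a := q) (b := B) (W := 1) (ν := 0) (m := p1 ^ 2) (Nat.coprime_one_left _) hco (Nat.pow_pos hp1.pos)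
    have h1 : ∑ t ∈ ((range T0).filter (fun t => ∀ p ∈ P, t % p ∉ H p)).filter (fun t => p1 ^ 2 ∣ q * t + B), rr χ (q * t + B) ≤
        ∑ t ∈ ((range T0).filter (fun t => ∀ p ∈ P, t % p ∉ H p)).filter (fun t => p1 ^ 2 ∣ q * t + B), Cτ := by
      apply sum_le_sum
      intro t ht
      rw [mem_filter, mem_filter, mem_range] at ht
      exact hr t ht.1.1 ht.1.2
    refine h1.trans ?_
    rw [sum_const, nsmul_eq_mul, mul_comm]
    apply mul_le_mul_of_nonneg_left _ hC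
    have h2 : (((range T0).filter (fun t => ∀ p ∈ P, t % p ∉ H p)).filter (fun t => p1 ^ 2 ∣ q * t + B)).card ≤
        ((range T0).filter (fun t => t ≡ c [MOD p1 ^ 2])).card := by
      apply card_le_card
      intro t ht
      rw [mem_filter, mem_filter] at ht
      rw [mem_filter]
      refine ⟨ht.1.1, ?_⟩
      have := hc t Nat.modEq_one ht.2
      rwa [one_mul] at this
    have h3 := count_AP T0 (p1 ^ 2) c (Nat.pow_pos hp1.pos)
    have h4 := (abs_le.1 h3).2
    have h5 : ((((range T0).filter (fun t => ∀ p ∈ P, t % p ∉ H p)).filter (fun t => p1 ^ 2 ∣ q * t + B)).card : ℝ) ≤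
        (((range T0).filter (fun t => t ≡ c [MOD p1 ^ 2])).card : ℝ) := by exact_mod_cast h2
    push_cast at h4
    linarith

end Pool.Agent.H536.OB
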