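import Mathlib
import Pool.Agent.H536.OB.E9

open Finset Filter Topology

/-! The fundamental lemma for large ranges. -/

namespace Pool.Agent.H536.OB

open Pool.Agent.H262R3.Lk (wM)

theorem facts10 (κ C : ℕ) (c c' : ℝ) (hc : 0 < c) (hc' : 0 < c') : ∀ᶠ M : ℕ in atTop,
    3 ≤ M ∧ C ≤ wM M ∧ 2 * κ + 2 ≤ wM M ∧
    208 / (M : ℝ) ^ 12 ≤ c / (M : ℝ) ^ 4 * (c' / (32 * Real.log M)) ^ (2 * κ + 1) := by
  have hcast : Tendsto (fun M : ℕ => (M : ℝ)) atTop atTop := tendsto_natCast_atTop_atTop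
  have hT : Tendsto (fun M : ℕ => Real.log M) atTop atTop := Real.tendsto_log_atTop.comp hcast
  have hwt : Tendsto wM atTop atTop := by
    unfold wM
    exact tendsto_nat_floor_atTop.comp (hT.atTop_div_const (by norm_num))
  have hpl : ∀ᶠ M : ℕ in atTop, (208 * 32 ^ (2 * κ + 1) / (c * c' ^ (2 * κ + 1))) * (Real.log M) ^ (2 * κ + 1) ≤ (M : ℝ) ^ (1 : ℝ) :=
    hcast.eventually (poly_log (208 * 32 ^ (2 * κ + 1) / (c * c' ^ (2 * κ + 1))) (2 * κ + 1) one_pos)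
  filter_upwards [eventually_ge_atTop 3, hwt.eventually_ge_atTop (C + (2 * κ + 2)), hpl,
    hT.eventually_ge_atTop 1] with M h1 h2 h4 h5
  have hMr : (3 : ℝ) ≤ M := by exact_mod_cast h1
  have hM0 : (0 : ℝ) < M := by linarith
  refine ⟨h1, by omega, by omega, ?_⟩
  have hlog0 : 0 < Real.log M := by linarith
  rw [Real.rpow_one] at h4
  have g1 : 208 * (32 * Real.log M) ^ (2 * κ + 1) ≤ M * (c * c' ^ (2 * κ + 1)) := by
    have := mul_le_mul_of_nonneg_right h4 (by positivity : (0 : ℝ) ≤ c * c' ^ (2 * κ + 1))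
    calc 208 * (32 * Real.log M) ^ (2 * κ + 1) =
        (208 * 32 ^ (2 * κ + 1) / (c * c' ^ (2 * κ + 1))) * Real.log M ^ (2 * κ + 1) * (c * c' ^ (2 * κ + 1)) := by
          rw [mul_pow]
          field_simp
      _ ≤ _ := this
  rw [div_pow, div_mul_div_comm, div_le_div_iff₀ (by positivity) (by positivity)]
  calc 208 * ((M : ℝ) ^ 4 * (32 * Real.log M) ^ (2 * κ + 1)) = (208 * (32 * Real.log M) ^ (2 * κ + 1)) * (M : ℝ) ^ 4 := by ring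
    _ ≤ (M * (c * c' ^ (2 * κ + 1))) * (M : ℝ) ^ 4 := mul_le_mul_of_nonneg_right g1 (by positivity)
    _ = c * c' ^ (2 * κ + 1) * (M : ℝ) ^ 5 := by ring
    _ ≤ c * c' ^ (2 * κ + 1) * (M : ℝ) ^ 12 := by
        apply mul_le_mul_of_nonneg_left _ (by positivity)
        exact pow_le_pow_right₀ (by linarith) (by norm_num)

/-- the fundamental lemma for large ranges -/
theorem fund (κ : ℕ) : ∃ s1 M0 : ℕ, 45 ≤ s1 ∧ ∀ (M q : ℕ) [NeZero q] (χ : DirichletCharacter ℂ q) (P : Finset ℕ), M0 ≤ M →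
    2 ≤ q → q ≤ M ^ 2 → χ ≠ 1 → χ ^ 2 = 1 → (∀ p ∈ P, p.Prime ∧ wM M < p ∧ p ≤ M ^ 32) →
    ∀ (B : ℕ) (H : ℕ → Finset ℕ), 1 ≤ B → B ≤ q → B.Coprime q → cr χ B = 1 →
    (∀ p ∈ P, H p ⊆ range p ∧ (H p).card ≤ κ ∧ (¬ p ∣ q → ∃ c ∈ H p, p ∣ q * c + B)) →
    208 / (M : ℝ) ^ 12 ≤ LV χ * VV χ P H ∧
    ∀ T0 : ℕ, M ^ (2 * s1) ≤ T0 → |SS χ B T0 P H - 2 * (T0 * (LV χ * VV χ P H))| ≤ (T0 * (LV χ * VV χ P H)) / 4 := by
  obtain ⟨C, hC, hsve⟩ := SVE κ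
  obtain ⟨c, hc, hLV⟩ := LV_low
  obtain ⟨c', hc', hVV⟩ := VV_low κ
  obtain ⟨M0, hM0⟩ := eventually_atTop.1 (facts10 κ C c c' hc hc')
  refine ⟨128 * (C * (C + 4)) + 45, M0, by omega, ?_⟩
  intro M q _ χ P hM hq2 hqM hχ hχ2 hP B H hB1 hBq hBco hBχ hH
  obtain ⟨hM3, hwC, hwκ, herr0⟩ := hM0 M hM
  have hMr : (3 : ℝ) ≤ M := by exact_mod_cast hM3
  have hMpos : (0 : ℝ) < M := by linarith
  have hlM : 0 < Real.log M := Real.log_pos (by linarith)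
  have hqr : (2 : ℝ) ≤ q := by exact_mod_cast hq2
  have hqMr : (q : ℝ) ≤ (M : ℝ) ^ 2 := by exact_mod_cast hqM
  obtain ⟨z, hz⟩ : ∃ z : ℕ, z = M ^ 32 := ⟨_, rfl⟩
  have hz3 : 3 ≤ z := by
    rw [hz]
    exact hM3.trans (Nat.le_self_pow (by norm_num) M)
  have hzr : (z : ℝ) = (M : ℝ) ^ 32 := by rw [hz]; push_cast; rfl
  have hlz : Real.log (z : ℝ) = 32 * Real.log M := by
    rw [hzr, Real.log_pow]
    norm_num
  obtain ⟨J, hJ⟩ : ∃ J : ℕ, J = Pool.Agent.W41.JJ z := ⟨_, rfl⟩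
  have hJle : 2 ^ 2 ^ J ≤ z ^ 2 := by rw [hJ]; exact Pool.Agent.W41.JJ_le z (by omega)
  have hJlt : z < 2 ^ 2 ^ J := by rw [hJ]; exact Pool.Agent.W41.JJ_lt z
  have hJs : J + 2 ≤ 2 * z := by rw [hJ]; exact Pool.Agent.W41.JJ_small z hz3
  have hU : 208 / (M : ℝ) ^ 12 ≤ LV χ * VV χ P H := by
    have h1 := hLV q χ hχ hχ2
    have h2 := hVV q χ P H z hχ2 (by omega) (fun p hp => ⟨(hP p hp).1, by have := (hP p hp).2.1; omega, by rw [hz]; exact (hP p hp).2.2⟩)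
      (fun p hp => (hH p hp).2.1)
    rw [hlz] at h2
    have h3 : c / (M : ℝ) ^ 4 ≤ LV χ := by
      refine le_trans ?_ h1
      apply div_le_div_of_nonneg_left hc.le (by positivity)
      calc (q : ℝ) ^ 2 ≤ ((M : ℝ) ^ 2) ^ 2 := pow_le_pow_left₀ (by linarith) hqMr 2
        _ = (M : ℝ) ^ 4 := by ring
    have h4 : 0 < c / (M : ℝ) ^ 4 := by positivity
    exact herr0.trans (mul_le_mul h3 h2 (by positivity) (h4.le.trans h3))
  refine ⟨hU, fun T0 hT0 => ?_⟩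
  set U := LV χ * VV χ P H with hUdef
  have hU0 : 0 < U := lt_of_lt_of_le (by positivity) hU
  obtain ⟨e, he⟩ : ∃ e : ℕ, e = C * (C + 4) := ⟨_, rfl⟩
  rw [← he] at hT0
  have hT0r : (M : ℝ) ^ (2 * (128 * e + 45)) ≤ T0 := by exact_mod_cast hT0
  have hT0pos : (0 : ℝ) < T0 := lt_of_lt_of_le (by positivity) hT0r
  have h16 : 16 ≤ q * T0 := by
    have h1 : 3 ^ 3 ≤ T0 := by
      calc 3 ^ 3 ≤ M ^ 3 := Nat.pow_le_pow_left hM3 3
        _ ≤ M ^ (2 * (128 * e + 45)) := Nat.pow_le_pow_right (by omega) (by omega)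
        _ ≤ T0 := hT0
    nlinarith
  have hmain := hsve (C + 4) J (wM M) P (by omega) hwC (fun p hp => ⟨(hP p hp).1, (hP p hp).2.1, by
    have := (hP p hp).2.2
    rw [← hz] at this
    omega⟩) q χ hχ hχ2 B H T0 hB1 hBq hBco hBχ hH h16
  have e1 : 2 * (T0 : ℝ) * LV χ * VV χ P H = 2 * (T0 * U) := by rw [hUdef]; ring
  rw [e1] at hmain
  refine hmain.trans ?_
  have h5 : ((1 / 2 : ℝ)) ^ (C + 4) * (2 * (T0 * U)) ≤ (T0 * U) / 8 := by
    have h6 : ((1 / 2 : ℝ)) ^ (C + 4) ≤ 1 / 16 := by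
      rw [pow_add]
      have : ((1 / 2 : ℝ)) ^ C ≤ 1 := pow_le_one₀ (by norm_num) (by norm_num)
      norm_num
      norm_num at this
      linarith
    have h7 : 0 ≤ 2 * (T0 * U) := by positivity
    calc ((1 / 2 : ℝ)) ^ (C + 4) * (2 * (T0 * U)) ≤ 1 / 16 * (2 * (T0 * U)) := mul_le_mul_of_nonneg_right h6 h7
      _ = (T0 * U) / 8 := by ring
  have h8 : ((J : ℝ) + 2) * (13 * (((2 ^ 2 ^ J) ^ (C * (C + 4)) : ℕ) : ℝ) ^ 2 * √((q : ℝ) * T0)) ≤ (T0 * U) / 8 := by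
    rw [← he]
    have g1 : (J : ℝ) + 2 ≤ 2 * (M : ℝ) ^ 32 := by
      rw [← hzr]
      exact_mod_cast hJs
    have g2 : ((((2 ^ 2 ^ J) ^ e : ℕ) : ℝ)) ≤ (M : ℝ) ^ (64 * e) := by
      have g3 : (2 ^ 2 ^ J) ^ e ≤ M ^ (64 * e) := by
        calc (2 ^ 2 ^ J) ^ e ≤ (z ^ 2) ^ e := Nat.pow_le_pow_left hJle e
          _ = M ^ (64 * e) := by
              rw [hz, ← pow_mul, ← pow_mul]
              congr 1
              ring
      exact_mod_cast g3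
    have g4 : √((q : ℝ) * T0) ≤ M * √T0 := by
      calc √((q : ℝ) * T0) ≤ √((M : ℝ) ^ 2 * T0) := Real.sqrt_le_sqrt (mul_le_mul_of_nonneg_right hqMr hT0pos.le)
        _ = M * √T0 := by
            rw [Real.sqrt_mul (by positivity), Real.sqrt_sq hMpos.le]
    have g5 : (M : ℝ) ^ (128 * e + 45) ≤ √T0 := by
      apply Real.le_sqrt_of_sq_le
      rw [← pow_mul]
      calc (M : ℝ) ^ ((128 * e + 45) * 2) = (M : ℝ) ^ (2 * (128 * e + 45)) := by rw [mul_comm]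
        _ ≤ T0 := hT0r
    have g6 : 0 < √(T0 : ℝ) := Real.sqrt_pos.2 hT0pos
    have g7 : √(T0 : ℝ) * √T0 = T0 := Real.mul_self_sqrt hT0pos.le
    have g8 : 26 / (M : ℝ) ^ 12 ≤ U / 8 := by
      have : 208 / (M : ℝ) ^ 12 = 8 * (26 / (M : ℝ) ^ 12) := by ring
      rw [this] at hU
      linarith
    calc ((J : ℝ) + 2) * (13 * (((2 ^ 2 ^ J) ^ e : ℕ) : ℝ) ^ 2 * √((q : ℝ) * T0)) ≤
        (2 * (M : ℝ) ^ 32) * (13 * ((M : ℝ) ^ (64 * e)) ^ 2 * (M * √T0)) := by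
          gcongr
      _ = 26 / (M : ℝ) ^ 12 * ((M : ℝ) ^ (128 * e + 45) * √T0) := by
          have : (M : ℝ) ^ (128 * e + 45) = ((M : ℝ) ^ (64 * e)) ^ 2 * (M : ℝ) ^ 45 := by
            rw [← pow_mul, ← pow_add]
            congr 1
            ring
          rw [this]
          field_simp
          norm_num
      _ ≤ 26 / (M : ℝ) ^ 12 * (√T0 * √T0) := by gcongr
      _ = 26 / (M : ℝ) ^ 12 * T0 := by rw [g7]
      _ ≤ U / 8 * T0 := mul_le_mul_of_nonneg_right g8 hT0pos.le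
      _ = (T0 * U) / 8 := by ring
  linarith

end Pool.Agent.H536.OB
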