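import Mathlib
import Pool.Agent.H536.OB.E10

open Finset Filter Topology

/-! The values composite with a prime factor in the middle range. -/

namespace Pool.Agent.H536.OB

open Pool.Agent.H262R3.Lk (wM)

theorem VV_congr {q : ℕ} {χ : DirichletCharacter ℂ q} {P : Finset ℕ} {H H' : ℕ → Finset ℕ} (h : ∀ p ∈ P, (H p).card = (H' p).card) :
    VV χ P H = VV χ P H' := by
  unfold VV
  exact prod_congr rfl fun p hp => by rw [h p hp]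

theorem cr_coprime {q : ℕ} {χ : DirichletCharacter ℂ q} {n : ℕ} (h : cr χ n = 1) : n.Coprime q := by
  by_contra hn
  rw [cr_zero_of_not_coprime χ hn] at h
  norm_num at h

open Classical in
/-- the part with one given prime factor -/
theorem one_p {κ : ℕ} {M q s1 : ℕ} [NeZero q] {χ : DirichletCharacter ℂ q} {P : Finset ℕ} (hM3 : 3 ≤ M) (hχ2 : χ ^ 2 = 1)
    (hs1 : 45 ≤ s1) (hP : ∀ p ∈ P, p.Prime ∧ wM M < p ∧ p ≤ M ^ 32)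
    (hfund : ∀ (B : ℕ) (H : ℕ → Finset ℕ), 1 ≤ B → B ≤ q → B.Coprime q → cr χ B = 1 →
      (∀ p ∈ P, H p ⊆ range p ∧ (H p).card ≤ κ ∧ (¬ p ∣ q → ∃ c ∈ H p, p ∣ q * c + B)) →
      208 / (M : ℝ) ^ 12 ≤ LV χ * VV χ P H ∧
      ∀ T0 : ℕ, M ^ (2 * s1) ≤ T0 → |SS χ B T0 P H - 2 * (T0 * (LV χ * VV χ P H))| ≤ (T0 * (LV χ * VV χ P H)) / 4)
    {B : ℕ} {H : ℕ → Finset ℕ} (hB1 : 1 ≤ B) (hBq : B ≤ q) (hBχ : cr χ B = 1)
    (hH : ∀ p ∈ P, H p ⊆ range p ∧ (H p).card ≤ κ ∧ (¬ p ∣ q → ∃ c ∈ H p, p ∣ q * c + B))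
    {p1 : ℕ} (hp1 : p1.Prime) (hp1z : M ^ 32 < p1) (hp1Y : p1 ≤ M ^ (2 * s1 + 2)) (hχp : cr χ p1 = 1) :
    ∑ t ∈ ((range (M ^ (2 * (2 * s1 + 1)))).filter (fun t => ∀ p ∈ P, t % p ∉ H p)).filter (fun t => p1 ∣ q * t + B), rr χ (q * t + B) ≤
      9 * (((M ^ (2 * (2 * s1 + 1)) : ℕ) : ℝ) * (LV χ * VV χ P H)) * (1 / (p1 : ℝ)) := by
  have hqpos : 0 < q := Nat.pos_of_ne_zero (NeZero.ne q)
  obtain ⟨T0, hT0⟩ : ∃ T0 : ℕ, T0 = M ^ (2 * (2 * s1 + 1)) := ⟨_, rfl⟩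
  rw [← hT0]
  have hp1q : p1.Coprime q := cr_coprime hχp
  obtain ⟨N1, _, hN1, _⟩ := cls (a := q) (b := B) (W := 1) (ν := 0) (m := p1) (Nat.coprime_one_left _) hp1q.symm hp1.one_lt.le
  obtain ⟨t1, ht1⟩ : ∃ t1 : ℕ, t1 = N1 % p1 := ⟨_, rfl⟩
  have ht1lt : t1 < p1 := by rw [ht1]; exact Nat.mod_lt _ hp1.pos
  have hd : p1 ∣ q * t1 + B := by
    have h1 : q * t1 + B ≡ q * N1 + B [MOD p1] := by
      rw [ht1]
      exact Nat.ModEq.add_right _ (Nat.ModEq.mul_left _ (Nat.mod_modEq _ _))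
    exact (Nat.modEq_zero_iff_dvd).1 (h1.trans ((Nat.modEq_zero_iff_dvd).2 hN1))
  obtain ⟨B1, hB1e⟩ := hd
  have hB1pos : 0 < B1 := by
    rcases Nat.eq_zero_or_pos B1 with h | h
    · rw [h, mul_zero] at hB1e
      omega
    · exact h
  have hB1q : B1 ≤ q := by
    have h1 : p1 * B1 ≤ p1 * q := by
      rw [← hB1e]
      calc q * t1 + B ≤ q * (p1 - 1) + q := by
            apply Nat.add_le_add _ hBq
            exact Nat.mul_le_mul_left _ (by omega)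
        _ = q * (p1 - 1 + 1) := by ring
        _ = p1 * q := by rw [Nat.sub_add_cancel hp1.one_lt.le, mul_comm]
    exact Nat.le_of_mul_le_mul_left h1 hp1.pos
  have hB1χ : cr χ B1 = 1 := by
    have h1 : cr χ (q * t1 + B) = cr χ B := cr_AP χ t1 B
    rw [hB1e, cr_mul hχ2, hχp, hBχ, one_mul] at h1
    exact h1
  have hcop : ∀ p ∈ P, p.Coprime p1 := by
    intro p hp
    apply (Nat.coprime_primes (hP p hp).1 hp1).2
    have := (hP p hp).2.2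
    omega
  have hH1 : ∀ p ∈ P, H1f H p1 t1 p ⊆ range p ∧ (H1f H p1 t1 p).card ≤ κ ∧ (¬ p ∣ q → ∃ c ∈ H1f H p1 t1 p, p ∣ q * c + B1) := by
    intro p hp
    have hh := hH p hp
    refine ⟨?_, ?_, fun hpq => ?_⟩
    · unfold H1f
      exact filter_subset _ _
    · rw [H1_card (hP p hp).1.pos (hcop p hp) hh.1]
      exact hh.2.1
    · exact H1_class (hP p hp).1 (hcop p hp) hh.1 hB1e (hh.2.2 hpq)
  have hVV : VV χ P (H1f H p1 t1) = VV χ P H := VV_congr fun p hp =>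
    H1_card (hP p hp).1.pos (hcop p hp) (hH p hp).1
  have h1 := sub_bound hχ2 (T0 := T0) hqpos hB1pos P H hp1 hχp ht1lt hB1e
  refine h1.trans ?_
  have hMr : (3 : ℝ) ≤ M := by exact_mod_cast hM3
  have hT1 : M ^ (2 * s1) ≤ T0 / p1 + 1 := by
    have h2 : M ^ (2 * s1) ≤ T0 / p1 := by
      rw [Nat.le_div_iff_mul_le hp1.pos, hT0]
      calc M ^ (2 * s1) * p1 ≤ M ^ (2 * s1) * M ^ (2 * s1 + 2) := Nat.mul_le_mul_left _ hp1Y
        _ = M ^ (2 * (2 * s1 + 1)) := by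
            rw [← pow_add]
            congr 1
            ring
    omega
  obtain ⟨hU, hf⟩ := hfund B1 (H1f H p1 t1) hB1pos hB1q (cr_coprime hB1χ) hB1χ hH1
  have h2 := (abs_le.1 (hf _ hT1)).2
  rw [hVV] at h2 hU
  set U := LV χ * VV χ P H with hUdef
  have hU0 : 0 < U := lt_of_lt_of_le (by positivity) hU
  have hp0 : (0 : ℝ) < p1 := by exact_mod_cast hp1.pos
  have hT1r : ((T0 / p1 + 1 : ℕ) : ℝ) ≤ 2 * (T0 * (1 / (p1 : ℝ))) := by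
    have h3 : ((T0 / p1 : ℕ) : ℝ) ≤ (T0 : ℝ) / p1 := Nat.cast_div_le
    have h4 : (p1 : ℝ) ≤ T0 := by
      have : p1 ≤ T0 := by
        rw [hT0]
        exact hp1Y.trans (Nat.pow_le_pow_right (by omega) (by omega))
      exact_mod_cast this
    have h5 : 1 ≤ (T0 : ℝ) / p1 := by rwa [le_div_iff₀ hp0, one_mul]
    push_cast
    rw [mul_one_div]
    linarith
  have h6 : SS χ B1 (T0 / p1 + 1) P (H1f H p1 t1) ≤ 9 / 4 * (((T0 / p1 + 1 : ℕ) : ℝ) * U) := by linarith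
  calc 2 * SS χ B1 (T0 / p1 + 1) P (H1f H p1 t1) ≤ 2 * (9 / 4 * (((T0 / p1 + 1 : ℕ) : ℝ) * U)) := by linarith
    _ ≤ 2 * (9 / 4 * ((2 * (T0 * (1 / (p1 : ℝ)))) * U)) := by gcongr
    _ = 9 * ((T0 : ℝ) * U) * (1 / (p1 : ℝ)) := by ring

open Classical in
/-- the sum over the square factors -/
theorem squares {M q s1 : ℕ} [NeZero q] {χ : DirichletCharacter ℂ q} {P : Finset ℕ} (hM3 : 3 ≤ M)
    (hs1 : 45 ≤ s1) {B : ℕ} {H : ℕ → Finset ℕ} (hBχ : cr χ B = 1) {R0 : ℕ}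
    (hr : ∀ t < M ^ (2 * (2 * s1 + 1)), (∀ p ∈ P, t % p ∉ H p) → rr χ (q * t + B) ≤ 2 ^ R0) :
    ∑ p1 ∈ (Ioc (M ^ 32) (M ^ (2 * s1 + 2))).filter Nat.Prime,
      ∑ t ∈ ((range (M ^ (2 * (2 * s1 + 1)))).filter (fun t => ∀ p ∈ P, t % p ∉ H p)).filter (fun t => p1 ^ 2 ∣ q * t + B), rr χ (q * t + B) ≤
      2 ^ (R0 + 1) * (((M ^ (2 * (2 * s1 + 1)) : ℕ) : ℝ) / (M : ℝ) ^ 32) := by
  have hMr : (3 : ℝ) ≤ M := by exact_mod_cast hM3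
  obtain ⟨T0, hT0⟩ : ∃ T0 : ℕ, T0 = M ^ (2 * (2 * s1 + 1)) := ⟨_, rfl⟩
  rw [← hT0] at hr ⊢
  have hT0pos : (0 : ℝ) < T0 := by
    rw [hT0]
    push_cast
    positivity
  have h1 : ∀ p1 ∈ (Ioc (M ^ 32) (M ^ (2 * s1 + 2))).filter Nat.Prime,
      ∑ t ∈ ((range T0).filter (fun t => ∀ p ∈ P, t % p ∉ H p)).filter (fun t => p1 ^ 2 ∣ q * t + B), rr χ (q * t + B) ≤
      2 ^ R0 * ((T0 : ℝ) * (1 / ((p1 : ℝ) * ((p1 : ℝ) - 1))) + 1) := by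
    intro p1 hp1
    rw [mem_filter, mem_Ioc] at hp1
    refine (sq_bound (cr_coprime hBχ) P H hp1.2 (by positivity) hr).trans ?_
    apply mul_le_mul_of_nonneg_left _ (by positivity)
    apply add_le_add _ le_rfl
    rw [mul_one_div]
    have hp2 : (2 : ℝ) ≤ p1 := by exact_mod_cast hp1.2.two_le
    apply div_le_div_of_nonneg_left hT0pos.le
    · apply mul_pos <;> linarith
    · nlinarith
  refine (sum_le_sum h1).trans ?_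
  rw [← mul_sum, sum_add_distrib, ← mul_sum]
  have h2 := sq_sum (y := M ^ 32) (Nat.one_le_pow _ _ (by omega)) ((Ioc (M ^ 32) (M ^ (2 * s1 + 2))).filter Nat.Prime) (by
    intro n hn
    rw [mem_filter, mem_Ioc] at hn
    exact hn.1.1)
  have h3 : ∑ p1 ∈ (Ioc (M ^ 32) (M ^ (2 * s1 + 2))).filter Nat.Prime, (1 : ℝ) ≤ (T0 : ℝ) / (M : ℝ) ^ 32 := by
    rw [sum_const, nsmul_eq_mul, mul_one]
    have h4 : ((Ioc (M ^ 32) (M ^ (2 * s1 + 2))).filter Nat.Prime).card ≤ M ^ (2 * s1 + 2) := by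
      refine (card_filter_le _ _).trans ?_
      rw [Nat.card_Ioc]
      omega
    have h5 : (((Ioc (M ^ 32) (M ^ (2 * s1 + 2))).filter Nat.Prime).card : ℝ) ≤ (M : ℝ) ^ (2 * s1 + 2) := by exact_mod_cast h4
    refine h5.trans ?_
    rw [le_div_iff₀ (by positivity), ← pow_add, hT0]
    push_cast
    exact pow_le_pow_right₀ (by linarith) (by omega)
  have h6 : (T0 : ℝ) * ∑ n ∈ (Ioc (M ^ 32) (M ^ (2 * s1 + 2))).filter Nat.Prime, 1 / ((n : ℝ) * ((n : ℝ) - 1)) ≤ (T0 : ℝ) / (M : ℝ) ^ 32 := by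
    calc (T0 : ℝ) * ∑ n ∈ (Ioc (M ^ 32) (M ^ (2 * s1 + 2))).filter Nat.Prime, 1 / ((n : ℝ) * ((n : ℝ) - 1)) ≤
        T0 * (1 / ((M ^ 32 : ℕ) : ℝ)) := mul_le_mul_of_nonneg_left h2 hT0pos.le
      _ = (T0 : ℝ) / (M : ℝ) ^ 32 := by push_cast; ring
  calc (2 : ℝ) ^ R0 * ((T0 : ℝ) * ∑ n ∈ (Ioc (M ^ 32) (M ^ (2 * s1 + 2))).filter Nat.Prime, 1 / ((n : ℝ) * ((n : ℝ) - 1)) +
      ∑ p1 ∈ (Ioc (M ^ 32) (M ^ (2 * s1 + 2))).filter Nat.Prime, (1 : ℝ)) ≤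
      2 ^ R0 * ((T0 : ℝ) / (M : ℝ) ^ 32 + (T0 : ℝ) / (M : ℝ) ^ 32) := by gcongr
    _ = 2 ^ (R0 + 1) * ((T0 : ℝ) / (M : ℝ) ^ 32) := by rw [pow_succ]; ring

end Pool.Agent.H536.OB
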