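import Mathlib
import Pool.Agent.H536.OB.N4

open Finset Filter

/-! The alternatives for a prime value whose other forms have many prime factors. -/

namespace Pool.Agent.H536.OB

open Pool.Agent.H262R3.Lk Pool.Agent.H378R2 Pool.Agent.H262R2.UP

theorem primeFactors_card_le {a : ℕ} (ha : 0 < a) : ((a.primeFactors.card : ℕ) : ℝ) ≤ 2 * Real.log a := by
  have h1 : 2 ^ a.primeFactors.card ≤ a := by
    calc 2 ^ a.primeFactors.card = ∏ p ∈ a.primeFactors, 2 := by rw [prod_const]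
      _ ≤ ∏ p ∈ a.primeFactors, p := Finset.prod_le_prod' fun p hp => (Nat.prime_of_mem_primeFactors hp).two_le
      _ ≤ a := Nat.le_of_dvd ha (Nat.prod_primeFactors_dvd a)
  have h2 : (2 : ℝ) ^ a.primeFactors.card ≤ a := by exact_mod_cast h1
  have h3 := Real.log_le_log (by positivity) h2
  rw [Real.log_pow] at h3
  have h4 := Real.log_two_gt_d9
  have h5 : (0 : ℝ) ≤ (a.primeFactors.card : ℝ) := Nat.cast_nonneg _
  nlinarith

open Classical in
theorem alt {k : ℕ} {a b : Fin k → ℕ} {j : Fin k} {M ν W y1 y2 Z1 w R1 R0 : ℕ} {Y : ℝ}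
    (hab : ∀ i, 0 < a i ∧ b i ≤ a i ∧ a i ≤ M ∧ (a i).Coprime (b i)) (hM3 : 3 ≤ M)
    (hcopW : ∀ i, (a i * ν + b i).Coprime W) (hWpf : W.primeFactors = Pz w) (hY : (M : ℝ) ^ 3 ≤ Y)
    (f7 : 2 ≤ y1) (f8 : Y ^ 2 ≤ (y1 : ℝ) ^ R0) (hy12 : y1 ≤ y2) (hMy2 : M ≤ y2) (hR1 : 0 < R1)
    (hcon : ∀ n : ℕ, (n : ℝ) ≤ 3 * Y → (a j * n + b j).Prime → ∃ i, R1 + R0 < ArithmeticFunction.cardFactors (a i * n + b i))
    {n : ℕ} (hn3 : (n : ℝ) ≤ 3 * Y) (hnB : n ≡ a j * ν + b j [MOD a j * W])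
    (hsift : ∀ p ∈ (Ioc Z1 y1).filter (fun p => p.Prime ∧ ¬ p ∣ a j), n % p ∉ OmF a b j p) (hnp : n.Prime) (hny : y2 < n) :
    (∃ i, ∃ p ∈ (a j).primeFactors.filter (fun p => Z1 < p), GG a b j i p n) ∨
    (∃ i, ∃ l ∈ (Ioc w Z1).filter Nat.Prime, GG a b j i (l ^ 2) n) ∨
    (∃ i, R1 ≤ (((Ioc w Z1).filter Nat.Prime).filter (fun l => GG a b j i l n)).card) := by
  have hMr : (3 : ℝ) ≤ M := by exact_mod_cast hM3
  have hcop : ∀ i, (a i).Coprime (b i) := fun i => (hab i).2.2.2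
  have haj : 0 < a j := (hab j).1
  have hBj : a j * ν + b j ≡ b j [MOD a j] := by
    have := Nat.ModEq.add_right (b j) ((Nat.modEq_zero_iff_dvd).2 (dvd_mul_right (a j) ν))
    rwa [zero_add] at this
  set PA := (a j).primeFactors.filter (fun p => Z1 < p) with hPA
  set Mid := (Ioc w Z1).filter Nat.Prime with hMid
  have hjn : ∃ t, a j * t + b j = n := by
    have h1 : n ≡ b j [MOD a j] := (hnB.of_dvd (dvd_mul_right (a j) W)).trans hBj
    have hle : b j ≤ n := by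
      have h2 : b j ≤ M := (hab j).2.1.trans (hab j).2.2.1
      omega
    obtain ⟨t, ht⟩ := (Nat.modEq_iff_dvd' hle).1 h1.symm
    exact ⟨t, by omega⟩
  obtain ⟨t, ht⟩ := hjn
  have htn : t ≤ n := by
    have : t ≤ a j * t := Nat.le_mul_of_pos_left t haj
    omega
  have ht3 : (t : ℝ) ≤ 3 * Y := le_trans (by exact_mod_cast htn) hn3
  obtain ⟨i, hi⟩ := hcon t ht3 (by rw [ht]; exact hnp)
  by_cases c1 : ∃ p ∈ PA, p ∣ a i * t + b i
  · left
    obtain ⟨p, hp, hd⟩ := c1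
    exact ⟨i, p, hp, t, ht, hd⟩
  by_cases c2 : ∃ l ∈ Mid, l ^ 2 ∣ a i * t + b i
  · right; left
    obtain ⟨l, hl, hd⟩ := c2
    exact ⟨i, l, hl, t, ht, hd⟩
  right; right
  refine ⟨i, ?_⟩
  by_contra c3
  push Not at c1 c2 c3
  have hij : i ≠ j := by
    rintro rfl
    rw [ht, ArithmeticFunction.cardFactors_apply_prime hnp] at hi
    omega
  have hNpos : a i * t + b i ≠ 0 := by
    intro h0
    have h1 : b i = 0 := by omega
    have h2 := hcop i
    rw [h1, Nat.coprime_zero_right] at h2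
    rw [h2, h1] at h0
    have h3 : t = 0 := by omega
    rw [h3] at ht
    have h4 : b j ≤ M := (hab j).2.1.trans (hab j).2.2.1
    omega
  have htW : t ≡ ν [MOD W] := by
    rw [← ht] at hnB
    have h4 : a j * t ≡ a j * ν [MOD a j * W] := Nat.ModEq.add_right_cancel' _ hnB
    exact Nat.ModEq.mul_left_cancel' haj.ne' h4
  have hy1r2 : (1 : ℝ) < y1 := by exact_mod_cast (by omega : 1 < y1)
  have hfin := cardF_bound (N := a i * t + b i) (Z := Z1) (R1 := R1) (R0 := R0) (U := (y1 : ℝ)) hNpos hy1r2 (by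
    intro p hp hd
    by_cases hpZ : p ≤ Z1
    · left
      refine ⟨hpZ, ?_⟩
      have hpw : w < p := by
        by_contra hle
        push Not at hle
        have h1 : p ∈ W.primeFactors := by rw [hWpf]; exact mem_Pz.2 ⟨hle, hp⟩
        have h2 := Nat.dvd_of_mem_primeFactors h1
        have h3 : a i * t + b i ≡ a i * ν + b i [MOD W] := Nat.ModEq.add_right _ (Nat.ModEq.mul_left _ htW)
        have h4 : (a i * t + b i).Coprime W := by
          rw [Nat.coprime_iff_gcd_eq_one, h3.gcd_eq]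
          exact hcopW i
        have h5 := Nat.dvd_gcd hd h2
        rw [h4] at h5
        exact hp.one_lt.ne' (Nat.dvd_one.1 h5)
      exact c2 p (mem_filter.2 ⟨mem_Ioc.2 ⟨hpw, hpZ⟩, hp⟩)
    · right
      push Not at hpZ
      by_contra hle
      push Not at hle
      have hle' : p ≤ y1 := by exact_mod_cast hle
      by_cases hpa : p ∣ a j
      · exact c1 p (mem_filter.2 ⟨Nat.mem_primeFactors.2 ⟨hp, hpa, haj.ne'⟩, hpZ⟩) hd
      · have hpP : p ∈ (Ioc Z1 y1).filter (fun p => p.Prime ∧ ¬ p ∣ a j) := mem_filter.2 ⟨mem_Ioc.2 ⟨hpZ, hle'⟩, hp, hpa⟩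
        have h1 := hsift p hpP
        rw [← ht] at h1 hnp
        exact OmF_sift hij hp hnp (by omega) h1 hd) (by
    have h1 : ((Icc 1 Z1).filter (fun p => p.Prime ∧ p ∣ a i * t + b i)) ⊆ Mid.filter (fun l => GG a b j i l n) := by
      intro p hp
      rw [mem_filter, mem_Icc] at hp
      rw [mem_filter, hMid, mem_filter, mem_Ioc]
      have hpw : w < p := by
        by_contra hle
        push Not at hle
        have h1 : p ∈ W.primeFactors := by rw [hWpf]; exact mem_Pz.2 ⟨hle, hp.2.1⟩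
        have h2 := Nat.dvd_of_mem_primeFactors h1
        have h3 : a i * t + b i ≡ a i * ν + b i [MOD W] := Nat.ModEq.add_right _ (Nat.ModEq.mul_left _ htW)
        have h4 : (a i * t + b i).Coprime W := by
          rw [Nat.coprime_iff_gcd_eq_one, h3.gcd_eq]
          exact hcopW i
        have h5 := Nat.dvd_gcd hp.2.2 h2
        rw [h4] at h5
        exact hp.2.1.one_lt.ne' (Nat.dvd_one.1 h5)
      exact ⟨⟨⟨hpw, hp.1.2⟩, hp.2.1⟩, t, ht, hp.2.2⟩
    exact (card_le_card h1).trans c3.le) (by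
    refine le_trans ?_ f8
    push_cast
    have h1 : (a i : ℝ) ≤ M := by exact_mod_cast (hab i).2.2.1
    have h2 : (b i : ℝ) ≤ M := by exact_mod_cast (hab i).2.1.trans (hab i).2.2.1
    have h3 : (a i : ℝ) * t + b i ≤ M * (3 * Y) + M := by
      have : (0 : ℝ) ≤ t := Nat.cast_nonneg _
      have : (0 : ℝ) ≤ M := Nat.cast_nonneg _
      nlinarith
    have h4 : (M : ℝ) * 4 ≤ (M : ℝ) ^ 3 := by
      have h40 : (9 : ℝ) ≤ M * M := by nlinarith
      nlinarith
    have h5 : (M : ℝ) * 4 ≤ Y := h4.trans hY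
    nlinarith)
  omega

end Pool.Agent.H536.OB
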